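import Pool.Agent.Lib.Pf91712x.Defs

/-!
`Bnd 0`. `𝓑 = ∅`: then `ρ` is empty and the claim is `|ψ X| ≤ 1`. `𝓑 ≠ ∅`: if some block is empty then
`uq = 0`; otherwise `ρ` is not empty and `∑ L, sg X L = ∏ x (1 + (-1)) = 0` (`dD X x = true` for `X : Fin 0 → _`;
`Finset.prod_univ_sum`), the other factors do not depend on `L`; the right side is `≥ 0`.
-/

set_option autoImplicit false

open Finset

namespace Pool.Agent.Lib.Pf91712x

namespace BaseAux

theorem sum_sg {ρ : Type} [Fintype ρ] [DecidableEq ρ] [Nonempty ρ] (X : Fin 0 → ρ → Bool) :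
    ∑ L : ρ → Bool, sg X L = 0 := by
  have h1 : ∀ L : ρ → Bool, sg X L = ∏ x, if L x = true then (-1 : ℝ) else 1 := by
    intro L
    unfold sg
    refine prod_congr rfl fun x _ => ?_
    have h : dD X x = true := by simp [dD]
    rw [h, Bool.true_and]
  rw [sum_congr rfl fun L _ => h1 L]
  have h2 := Finset.prod_univ_sum (fun _ : ρ => (univ : Finset Bool))
    (fun (_ : ρ) (b : Bool) => if b = true then (-1 : ℝ) else 1)
  rw [Fintype.piFinset_univ] at h2
  rw [← h2]
  obtain ⟨x0⟩ := (inferInstance : Nonempty ρ)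
  exact prod_eq_zero (mem_univ x0) (by simp)

theorem rhs_nonneg {ρ β : Type} [Fintype ρ] [DecidableEq β] (𝓑 : Finset β) (π : ρ → β) (k : ℕ) :
    0 ≤ (2 * ((2 : ℝ) ^ 0 - 1)) ^ k * ∏ b ∈ 𝓑, √(bz π b : ℝ) := by
  have h : (2 * ((2 : ℝ) ^ 0 - 1)) = 0 := by norm_num
  rw [h]
  exact mul_nonneg (pow_nonneg le_rfl _) (prod_nonneg fun _ _ => Real.sqrt_nonneg _)

end BaseAux

theorem bnd_zero : Bnd 0 := by
  intro ρ β _ _ _ 𝓑 π hπ ψ φ hψ hφ hloc
  by_cases hne : Nonempty ρ
  · have hl : ∑ X : Fin 0 → ρ → Bool, ∑ L : ρ → Bool,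
        ψ X * (∏ i, φ i X L) * (∏ b ∈ 𝓑, uq π X b) * sg X L = 0 := by
      refine sum_eq_zero fun X _ => ?_
      have h : ∀ L : ρ → Bool, ψ X * (∏ i, φ i X L) * (∏ b ∈ 𝓑, uq π X b) * sg X L =
          (ψ X * ∏ b ∈ 𝓑, uq π X b) * sg X L := by
        intro L
        rw [Finset.univ_eq_empty (α := Fin 0), Finset.prod_empty, mul_one]
      rw [sum_congr rfl fun L _ => h L, ← mul_sum, BaseAux.sum_sg, mul_zero]
    rw [hl, abs_zero]
    exact BaseAux.rhs_nonneg 𝓑 π _
  · have : IsEmpty ρ := not_nonempty_iff.1 hne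
    by_cases hB : 𝓑.Nonempty
    · obtain ⟨b, hb⟩ := hB
      have hl : ∑ X : Fin 0 → ρ → Bool, ∑ L : ρ → Bool,
          ψ X * (∏ i, φ i X L) * (∏ b ∈ 𝓑, uq π X b) * sg X L = 0 := by
        refine sum_eq_zero fun X _ => sum_eq_zero fun L _ => ?_
        have h : uq π X b = 0 := by
          have hc : cp π b (dD X) = 0 := by
            unfold cp
            rw [Finset.univ_eq_empty (α := ρ), Finset.filter_empty, Finset.card_empty]
          unfold uq
          rw [hc, if_neg (by norm_num)]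
        rw [prod_eq_zero hb h, mul_zero, zero_mul]
      rw [hl, abs_zero]
      exact BaseAux.rhs_nonneg 𝓑 π _
    · rw [Finset.not_nonempty_iff_eq_empty] at hB
      subst hB
      rw [Fintype.sum_unique]
      rw [Fintype.sum_unique]
      rw [Finset.prod_empty, Finset.prod_empty, mul_one, mul_one, Fintype.card_eq_zero, pow_zero]
      rw [Finset.univ_eq_empty (α := Fin 0), Finset.prod_empty, mul_one]
      have h : ∀ (X : Fin 0 → ρ → Bool) (L : ρ → Bool), sg X L = 1 := by
        intro X L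
        unfold sg
        rw [Finset.univ_eq_empty (α := ρ), Finset.prod_empty]
      rw [h, mul_one]
      exact hψ _

end Pool.Agent.Lib.Pf91712x
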