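import Pool.Agent.Lib.Pf91712x.Defs

/-!
Sums over assignments factor over the blocks: the sum over `f : ρ → C` of a product over the
blocks `b ∈ 𝓑` of functions of the restriction of `f` to the block is the product of the sums.
-/

set_option autoImplicit false

open Finset

namespace Pool.Agent.Lib.Pf91712x

theorem fact {ρ β C : Type} [Fintype ρ] [DecidableEq ρ] [DecidableEq β] [Fintype C] (𝓑 : Finset β)
    (π : ρ → β) (hπ : ∀ x, π x ∈ 𝓑) (F : ∀ b, ({x // π x = b} → C) → ℝ) :
    ∑ f : ρ → C, ∏ b ∈ 𝓑, F b (fun x => f x.1) =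
      ∏ b ∈ 𝓑, ∑ h : {x // π x = b} → C, F b h := by
  let e : (ρ → C) ≃ (∀ b : {b // b ∈ 𝓑}, ({x // π x = b.1} → C)) :=
    { toFun := fun f b x => f x.1
      invFun := fun g x => g ⟨π x, hπ x⟩ ⟨x, rfl⟩
      left_inv := fun f => rfl
      right_inv := fun g => by
        funext b x
        obtain ⟨b0, hb⟩ := b
        obtain ⟨x0, hx⟩ := x
        simp only at hx
        subst hx
        rfl }
  rw [← Finset.prod_coe_sort 𝓑 (fun b => ∑ h : {x // π x = b} → C, F b h), Finset.prod_univ_sum,
    Fintype.piFinset_univ]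
  refine Fintype.sum_equiv e _ _ ?_
  intro f
  rw [← Finset.prod_coe_sort 𝓑 (fun b => F b (fun x => f x.1))]
  rfl

end Pool.Agent.Lib.Pf91712x
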