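import Pool.Agent.Lib.Pf91712x.OneBlock
import Pool.Agent.Lib.Pf91712x.Fact

/-!
PROOF.

`push`: `∑_X G (dD X) = ∑_D (∏_x if D x then 1 else 2 ^ m - 1) * G D`: for each row one assignment `Fin m → Bool` is `true` everywhere
(swap the arguments of `X`; `Finset.sum_fiberwise` along `dD`, `Fintype.card_piFinset`).

`blocks`: exchange the sums, `push`, then `fact` with `C = Bool × Bool × Bool` (or `f : ρ → C` for the three functions
`D`, `A`, `A'`), `cp π b P = nn` of the restriction of `P` to the block `{x // π x = b}`, `bz π b = Fintype.card {x // π x = b}`,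
`∏_x = ∏_b ∏_{x in b}` (`Finset.prod_fiberwise_of_maps_to`), then `one_block` for each block (all factors are `≥ 0`).
-/

set_option autoImplicit false

open Finset

namespace Pool.Agent.Lib.Pf91712x

theorem push {ρ : Type} [Fintype ρ] [DecidableEq ρ] (m : ℕ) (G : (ρ → Bool) → ℝ) :
    ∑ X : Fin m → ρ → Bool, G (dD X) =
      ∑ D : ρ → Bool, (∏ x, if D x = true then (1 : ℝ) else 2 ^ m - 1) * G D := by
  classical
  have h1 : ∑ X : Fin m → ρ → Bool, G (dD X) =
      ∑ Z : ρ → Fin m → Bool, G (fun x => decide (∀ i, Z x i = true)) := by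
    refine Fintype.sum_equiv (Equiv.piComm fun _ _ => Bool) _ _ ?_
    intro X
    rfl
  rw [h1, ← Finset.sum_fiberwise univ
    (fun Z : ρ → Fin m → Bool => (fun x => decide (∀ i, Z x i = true) : ρ → Bool))]
  refine sum_congr rfl fun D _ => ?_
  have h2 : ∀ Z ∈ univ.filter (fun Z : ρ → Fin m → Bool =>
      (fun x => decide (∀ i, Z x i = true) : ρ → Bool) = D),
      G (fun x => decide (∀ i, Z x i = true)) = G D := by
    intro Z hZ
    rw [(mem_filter.1 hZ).2]
  rw [sum_congr rfl h2, sum_const, nsmul_eq_mul]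
  congr 1
  have h3 : univ.filter (fun Z : ρ → Fin m → Bool =>
      (fun x => decide (∀ i, Z x i = true) : ρ → Bool) = D) =
      Fintype.piFinset fun x => univ.filter fun z : Fin m → Bool =>
        decide (∀ i, z i = true) = D x := by
    ext Z
    simp only [mem_filter, mem_univ, true_and, Fintype.mem_piFinset]
    exact funext_iff
  rw [h3, Fintype.card_piFinset]
  push_cast
  refine prod_congr rfl fun x _ => ?_
  cases hD : D x
  · have h4 : univ.filter (fun z : Fin m → Bool => decide (∀ i, z i = true) = false) =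
        univ.erase (fun _ => true) := by
      ext z
      simp only [mem_filter, mem_univ, true_and, mem_erase, ne_eq, and_true, decide_eq_false_iff_not]
      rw [funext_iff]
    rw [h4, card_erase_of_mem (mem_univ _), card_univ]
    simp only [Fintype.card_fun, Fintype.card_bool, Fintype.card_fin, Bool.false_eq_true, if_false]
    rw [Nat.cast_sub (Nat.one_le_two_pow)]
    push_cast
    rfl
  · have h4 : univ.filter (fun z : Fin m → Bool => decide (∀ i, z i = true) = true) =
        {fun _ => true} := by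
      ext z
      simp only [mem_filter, mem_univ, true_and, mem_singleton, decide_eq_true_eq]
      rw [funext_iff]
    rw [h4]
    simp

namespace BlocksAux

/-- the summand of one block -/
noncomputable def tt (m : ℕ) {σ : Type} [Fintype σ] [DecidableEq σ] (D A A' : σ → Bool) : ℝ :=
  wt (Fintype.card σ) (nn D) *
        ((if nn (fun x => D x && (A x && A' x)) = 1 ∧ nn (fun x => D x && xor (A x) (A' x)) = 0
            then 1 else 0) +
          (if nn (fun x => D x && (A x && A' x)) = 0 ∧ nn (fun x => D x && (A x && !(A' x))) = 1 ∧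
              nn (fun x => D x && (!(A x) && A' x)) = 1 then 1 else 0) *
            ((2 ^ m - 1) / √(nn (fun x => A x && !(A' x)) : ℝ) *
              ((2 ^ m - 1) / √(nn (fun x => !(A x) && A' x) : ℝ))))

theorem v_nonneg (m : ℕ) : (0 : ℝ) ≤ 2 ^ m - 1 := by
  have : (1 : ℝ) ≤ 2 ^ m := one_le_pow₀ (by norm_num)
  linarith

theorem tt_nonneg (m : ℕ) {σ : Type} [Fintype σ] [DecidableEq σ] (D A A' : σ → Bool) :
    0 ≤ tt m D A A' := by
  unfold tt wt
  have hv := v_nonneg m
  apply mul_nonneg (by positivity)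
  apply add_nonneg
  · split_ifs <;> norm_num
  · apply mul_nonneg
    · split_ifs <;> norm_num
    · exact mul_nonneg (div_nonneg hv (Real.sqrt_nonneg _)) (div_nonneg hv (Real.sqrt_nonneg _))

theorem cp_eq {ρ β : Type} [Fintype ρ] [DecidableEq ρ] [DecidableEq β] (π : ρ → β) (b : β)
    (P : ρ → Bool) : cp π b P = nn (fun x : {x // π x = b} => P x.1) := by
  unfold cp nn
  symm
  refine Finset.card_bij (fun x _ => x.1) ?_ ?_ ?_
  · intro x hx
    simp only [mem_filter, mem_univ, true_and] at hx ⊢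
    exact ⟨x.2, hx⟩
  · intro x _ y _ h
    exact Subtype.ext h
  · intro x hx
    simp only [mem_filter, mem_univ, true_and] at hx
    exact ⟨⟨x, hx.1⟩, by simpa using hx.2, rfl⟩

theorem bz_eq {ρ β : Type} [Fintype ρ] [DecidableEq ρ] [DecidableEq β] (π : ρ → β) (b : β) :
    bz π b = Fintype.card {x // π x = b} := by
  rw [bz, Fintype.card_subtype]

theorem kk_eq {ρ β : Type} [Fintype ρ] [DecidableEq ρ] [DecidableEq β] (m : ℕ) (π : ρ → β)
    (A A' D : ρ → Bool) (b : β) :
    kk m π A A' D b = tt m (fun x : {x // π x = b} => D x.1) (fun x => A x.1) (fun x => A' x.1) := by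
  unfold kk tt
  simp only [cp_eq, bz_eq]

/-- sums over three functions -/
theorem sum3 {σ : Type} [Fintype σ] [DecidableEq σ] (Φ : (σ → Bool) → (σ → Bool) → (σ → Bool) → ℝ) :
    ∑ f : σ → Bool × Bool × Bool, Φ (fun x => (f x).1) (fun x => (f x).2.1) (fun x => (f x).2.2) =
      ∑ A : σ → Bool, ∑ A' : σ → Bool, ∑ D : σ → Bool, Φ A A' D := by
  have h1 : ∑ f : σ → Bool × Bool × Bool,
      Φ (fun x => (f x).1) (fun x => (f x).2.1) (fun x => (f x).2.2) =
      ∑ p : (σ → Bool) × (σ → Bool) × (σ → Bool), Φ p.1 p.2.1 p.2.2 := by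
    refine Fintype.sum_equiv
      { toFun := fun f => (fun x => (f x).1, fun x => (f x).2.1, fun x => (f x).2.2)
        invFun := fun p x => (p.1 x, p.2.1 x, p.2.2 x)
        left_inv := fun f => rfl
        right_inv := fun p => rfl } _ _ ?_
    intro f
    rfl
  rw [h1, Fintype.sum_prod_type]
  refine sum_congr rfl fun A _ => ?_
  rw [Fintype.sum_prod_type]

end BlocksAux

open BlocksAux

theorem blocks {ρ β : Type} [Fintype ρ] [DecidableEq ρ] [DecidableEq β] (m : ℕ) (𝓑 : Finset β)
    (π : ρ → β) (hπ : ∀ x, π x ∈ 𝓑) :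
    ∑ A : ρ → Bool, ∑ A' : ρ → Bool, ∑ X : Fin m → ρ → Bool, ∏ b ∈ 𝓑, kk m π A A' (dD X) b ≤
      ∏ b ∈ 𝓑, (2 ^ (m + 1) - 1 : ℝ) ^ (bz π b + 1) := by
  classical
  let F : ∀ b : β, ({x // π x = b} → Bool × Bool × Bool) → ℝ := fun b h =>
    (∏ x, if (h x).2.2 = true then (1 : ℝ) else 2 ^ m - 1) *
      tt m (fun x => (h x).2.2) (fun x => (h x).1) (fun x => (h x).2.1)
  have h1 : ∑ A : ρ → Bool, ∑ A' : ρ → Bool, ∑ X : Fin m → ρ → Bool,
      ∏ b ∈ 𝓑, kk m π A A' (dD X) b =
      ∑ f : ρ → Bool × Bool × Bool, ∏ b ∈ 𝓑, F b (fun x => f x.1) := by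
    have h2 : ∀ f : ρ → Bool × Bool × Bool, ∏ b ∈ 𝓑, F b (fun x => f x.1) =
        (fun A A' D : ρ → Bool => (∏ x, if D x = true then (1 : ℝ) else 2 ^ m - 1) *
          ∏ b ∈ 𝓑, kk m π A A' D b) (fun x => (f x).1) (fun x => (f x).2.1) (fun x => (f x).2.2) := by
      intro f
      simp only [F]
      rw [prod_mul_distrib]
      congr 1
      · rw [← Finset.prod_fiberwise_of_maps_to (s := univ) (t := 𝓑) (g := π) (fun x _ => hπ x)]
        refine prod_congr rfl fun b _ => ?_
        exact (Finset.prod_subtype (univ.filter fun x => π x = b) (by simp)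
          (fun x => if (f x).2.2 = true then (1 : ℝ) else 2 ^ m - 1)).symm
      · refine prod_congr rfl fun b _ => ?_
        rw [kk_eq]
    rw [sum_congr rfl fun f _ => h2 f]
    rw [sum3 (fun A A' D : ρ → Bool => (∏ x, if D x = true then (1 : ℝ) else 2 ^ m - 1) *
          ∏ b ∈ 𝓑, kk m π A A' D b)]
    refine sum_congr rfl fun A _ => sum_congr rfl fun A' _ => ?_
    exact push m (fun D => ∏ b ∈ 𝓑, kk m π A A' D b)
  rw [h1, fact 𝓑 π hπ F]
  refine prod_le_prod ?_ ?_
  · intro b _
    refine sum_nonneg fun h _ => ?_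
    exact mul_nonneg (prod_nonneg fun x _ => by
      split_ifs
      · norm_num
      · exact v_nonneg m) (tt_nonneg m _ _ _)
  · intro b _
    have h3 := sum3 (σ := {x // π x = b}) (fun A A' D =>
      (∏ x, if D x = true then (1 : ℝ) else 2 ^ m - 1) * tt m D A A')
    simp only [F]
    rw [h3, bz_eq]
    refine le_trans (le_of_eq ?_) (one_block {x // π x = b} m)
    have h4 : ∀ A : {x // π x = b} → Bool,
        ∑ A' : {x // π x = b} → Bool, ∑ D : {x // π x = b} → Bool,
          (∏ x, if D x = true then (1 : ℝ) else 2 ^ m - 1) * tt m D A A' =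
        ∑ D : {x // π x = b} → Bool, ∑ A' : {x // π x = b} → Bool,
          (∏ x, if D x = true then (1 : ℝ) else 2 ^ m - 1) * tt m D A A' := fun A => sum_comm
    rw [sum_congr rfl fun A _ => h4 A, sum_comm]
    refine sum_congr rfl fun D _ => ?_
    rw [mul_sum]
    refine sum_congr rfl fun A _ => ?_
    rw [mul_sum]
    rfl

end Pool.Agent.Lib.Pf91712x
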