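import Pool.Agent.Lib.Pf91712x.Uq

/-!
PROOF. Write `X = Fin.cons A X'` (`Fin.consEquiv` or `Fin.insertNthEquiv`,
`Fin.prod_univ_succ`). The left side is `∑_{X', L} φ 0 (X', L) * H (X', L)`, `φ 0` does not depend on `A` (choose any `A₀`),
`H = ∑_A ψ * ∏_{i ≥ 1} φ i * ∏ uq * sg`. Let `Z X' = ∑_A ∏_b uq (cons A X') b ≥ 0`. `|H| ≤ Z` as `|sg| = 1`. By `sum_A`
`Z = ∏_b (s_b * 2 ^ B_b / 2 ^ s_b)`; so `Z = 0` or `Z * ∏_b wt B_b s_b = 1`; put `w = ∏_b wt B_b s_b`. Then `H ^ 2 = Z * (w * H ^ 2)`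
in both cases, and `(∑ |H|) ^ 2 ≤ (∑_{X', L} Z) * (∑_{X', L} w H ^ 2)` (`Finset.sum_sq_le_sum_mul_sum_of_sq_eq_mul`),
`∑_{X', L} Z = 2 ^ card ρ * ∑_X ∏ uq π X b`, `H ^ 2 = ∑_{A, A'} ...`; exchange the sums.
-/

set_option autoImplicit false

open Finset

namespace Pool.Agent.Lib.Pf91712x

namespace CSAux

theorem sum_fcons {m : ℕ} {γ : Type} [Fintype γ] (f : (Fin (m + 1) → γ) → ℝ) :
    ∑ X : Fin (m + 1) → γ, f X = ∑ A : γ, ∑ X : Fin m → γ, f (Fin.cons A X) := by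
  rw [← (Fin.consEquiv (fun _ : Fin (m + 1) => γ)).sum_comp f, Fintype.sum_prod_type]
  rfl

theorem abs_sg {n : ℕ} {ρ : Type} [Fintype ρ] (X : Fin n → ρ → Bool) (L : ρ → Bool) : |sg X L| = 1 := by
  unfold sg
  rw [Finset.abs_prod]
  apply Finset.prod_eq_one
  intro x _
  split_ifs <;> simp

theorem uq_nonneg {n : ℕ} {ρ β : Type} [Fintype ρ] [DecidableEq β] (π : ρ → β)
    (X : Fin n → ρ → Bool) (b : β) : 0 ≤ uq π X b := by
  unfold uq
  split_ifs <;> norm_num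

theorem wt_nonneg (B s : ℕ) : 0 ≤ wt B s := by
  unfold wt
  positivity

theorem zw {β : Type} (𝓑 : Finset β) (s B : β → ℕ) :
    (∏ b ∈ 𝓑, ((s b : ℝ) * 2 ^ B b / 2 ^ s b)) = 0 ∨
      (∏ b ∈ 𝓑, ((s b : ℝ) * 2 ^ B b / 2 ^ s b)) * ∏ b ∈ 𝓑, wt (B b) (s b) = 1 := by
  by_cases h : ∃ b ∈ 𝓑, s b = 0
  · left
    obtain ⟨b, hb, h0⟩ := h
    exact Finset.prod_eq_zero hb (by rw [h0]; simp)
  · right
    push Not at h
    rw [← Finset.prod_mul_distrib]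
    apply Finset.prod_eq_one
    intro b hb
    have h1 : (s b : ℝ) ≠ 0 := Nat.cast_ne_zero.mpr (h b hb)
    unfold wt
    field_simp

theorem abs_prod_le_one {m : ℕ} (a : Fin m → ℝ) (h : ∀ i, |a i| ≤ 1) : |∏ i, a i| ≤ 1 := by
  rw [Finset.abs_prod]
  exact Finset.prod_le_one (fun i _ => abs_nonneg _) (fun i _ => h i)

end CSAux

open CSAux

theorem cs {m : ℕ} {ρ β : Type} [Fintype ρ] [DecidableEq ρ] [DecidableEq β] (𝓑 : Finset β) (π : ρ → β)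
    (hπ : ∀ x, π x ∈ 𝓑)
    (ψ : (Fin (m + 1) → ρ → Bool) → ℝ) (φ : Fin (m + 1) → (Fin (m + 1) → ρ → Bool) → (ρ → Bool) → ℝ)
    (hψ : ∀ X, |ψ X| ≤ 1) (hφ : ∀ i X L, |φ i X L| ≤ 1)
    (hφ2 : ∀ i X Y L, (∀ j, j ≠ i → X j = Y j) → φ i X L = φ i Y L) :
    (∑ X : Fin (m + 1) → ρ → Bool, ∑ L : ρ → Bool,
        ψ X * (∏ i, φ i X L) * (∏ b ∈ 𝓑, uq π X b) * sg X L) ^ 2 ≤
      (2 ^ Fintype.card ρ * ∑ X : Fin (m + 1) → ρ → Bool, ∏ b ∈ 𝓑, uq π X b) *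
      ∑ A : ρ → Bool, ∑ A' : ρ → Bool,
        |∑ X : Fin m → ρ → Bool, ∑ L : ρ → Bool,
          (ψ (Fin.cons A X) * ψ (Fin.cons A' X)) *
          (∏ i : Fin m, (φ i.succ (Fin.cons A X) L * φ i.succ (Fin.cons A' X) L)) *
          (∏ b ∈ 𝓑, (wt (bz π b) (cp π b (dD X)) *
            (uq π (Fin.cons A X : Fin (m + 1) → ρ → Bool) b *
              uq π (Fin.cons A' X : Fin (m + 1) → ρ → Bool) b))) *
          (sg (Fin.cons A X : Fin (m + 1) → ρ → Bool) L *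
            sg (Fin.cons A' X : Fin (m + 1) → ρ → Bool) L)| := by
  obtain ⟨U, hU⟩ : ∃ U : (Fin (m + 1) → ρ → Bool) → ℝ, ∀ X, ∏ b ∈ 𝓑, uq π X b = U X :=
    ⟨fun X => ∏ b ∈ 𝓑, uq π X b, fun X => rfl⟩
  have hU0 : ∀ X, 0 ≤ U X := by
    intro X
    rw [← hU]
    exact Finset.prod_nonneg fun b _ => uq_nonneg π X b
  obtain ⟨w, hw⟩ : ∃ w : (Fin m → ρ → Bool) → ℝ, ∀ X, ∏ b ∈ 𝓑, wt (bz π b) (cp π b (dD X)) = w X :=
    ⟨fun X => ∏ b ∈ 𝓑, wt (bz π b) (cp π b (dD X)), fun X => rfl⟩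
  have hw0 : ∀ X, 0 ≤ w X := by
    intro X
    rw [← hw]
    exact Finset.prod_nonneg fun b _ => wt_nonneg _ _
  obtain ⟨F, hF⟩ : ∃ F : (ρ → Bool) → (Fin m → ρ → Bool) → (ρ → Bool) → ℝ, ∀ A X L,
      ψ (Fin.cons A X) * (∏ i : Fin m, φ i.succ (Fin.cons A X) L) * U (Fin.cons A X) *
        sg (Fin.cons A X : Fin (m + 1) → ρ → Bool) L = F A X L :=
    ⟨_, fun A X L => rfl⟩
  have hFU : ∀ A X L, |F A X L| ≤ U (Fin.cons A X) := by
    intro A X L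
    rw [← hF, abs_mul, abs_mul, abs_mul, abs_sg, mul_one, abs_of_nonneg (hU0 _)]
    have h1 : |ψ (Fin.cons A X)| * |∏ i : Fin m, φ i.succ (Fin.cons A X) L| ≤ 1 := by
      have h2 := hψ (Fin.cons A X)
      have h3 := abs_prod_le_one (fun i : Fin m => φ i.succ (Fin.cons A X) L) (fun i => hφ _ _ _)
      exact mul_le_one₀ h2 (abs_nonneg _) h3
    calc _ ≤ 1 * U (Fin.cons A X) := mul_le_mul_of_nonneg_right h1 (hU0 _)
      _ = _ := one_mul _
  have hS : ∑ X : Fin (m + 1) → ρ → Bool, ∑ L : ρ → Bool,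
        ψ X * (∏ i, φ i X L) * (∏ b ∈ 𝓑, uq π X b) * sg X L =
      ∑ p : (Fin m → ρ → Bool) × (ρ → Bool), φ 0 (Fin.cons (fun _ => false) p.1) p.2 * ∑ A, F A p.1 p.2 := by
    rw [sum_fcons, Fintype.sum_prod_type, Finset.sum_comm]
    apply Finset.sum_congr rfl
    intro X _
    rw [Finset.sum_comm]
    apply Finset.sum_congr rfl
    intro L _
    rw [Finset.mul_sum]
    apply Finset.sum_congr rfl
    intro A _
    have h1 : φ 0 (Fin.cons A X) L = φ 0 (Fin.cons (fun _ => false) X) L := by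
      apply hφ2
      intro j hj
      obtain ⟨i, rfl⟩ := Fin.exists_succ_eq.mpr hj
      rw [Fin.cons_succ, Fin.cons_succ]
    rw [Fin.prod_univ_succ, h1, hU, ← hF]
    ring
  have hZ : ∀ X : Fin m → ρ → Bool, ∑ A : ρ → Bool, U (Fin.cons A X) =
      ∏ b ∈ 𝓑, ((cp π b (dD X) : ℝ) * 2 ^ bz π b / 2 ^ cp π b (dD X)) := by
    intro X
    rw [← sum_A m 𝓑 π hπ X]
    apply Finset.sum_congr rfl
    intro A _
    rw [hU]
  have hZ0 : ∀ X : Fin m → ρ → Bool, 0 ≤ ∑ A : ρ → Bool, U (Fin.cons A X) :=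
    fun X => Finset.sum_nonneg fun A _ => hU0 _
  have hH : ∀ X L, |∑ A, F A X L| ≤ ∑ A : ρ → Bool, U (Fin.cons A X) := by
    intro X L
    exact (Finset.abs_sum_le_sum_abs _ _).trans (Finset.sum_le_sum fun A _ => hFU A X L)
  have hsq : ∀ X L, |∑ A, F A X L| ^ 2 =
      (∑ A : ρ → Bool, U (Fin.cons A X)) * (w X * (∑ A, F A X L) ^ 2) := by
    intro X L
    rw [sq_abs]
    rcases zw 𝓑 (fun b => cp π b (dD X)) (fun b => bz π b) with h | h
    · rw [← hZ X] at h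
      have h1 := hH X L
      rw [h] at h1
      have h2 : ∑ A, F A X L = 0 := abs_nonpos_iff.mp h1
      rw [h2, h]
      simp
    · rw [← hZ X, hw] at h
      rw [← mul_assoc, h, one_mul]
  have hCS := Finset.sum_sq_le_sum_mul_sum_of_sq_le_mul
    (univ : Finset ((Fin m → ρ → Bool) × (ρ → Bool)))
    (r := fun p => |∑ A, F A p.1 p.2|) (f := fun p => ∑ A : ρ → Bool, U (Fin.cons A p.1))
    (g := fun p => w p.1 * (∑ A, F A p.1 p.2) ^ 2)
    (fun p _ => hZ0 p.1) (fun p _ => mul_nonneg (hw0 _) (sq_nonneg _)) (fun p _ => (hsq p.1 p.2).le)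
  have h5 : ∑ p : (Fin m → ρ → Bool) × (ρ → Bool), ∑ A : ρ → Bool, U (Fin.cons A p.1) =
      2 ^ Fintype.card ρ * ∑ X : Fin (m + 1) → ρ → Bool, ∏ b ∈ 𝓑, uq π X b := by
    have h51 : ∑ A : ρ → Bool, ∑ X : Fin m → ρ → Bool, ∏ b ∈ 𝓑, uq π (Fin.cons A X : Fin (m + 1) → ρ → Bool) b =
        ∑ X : Fin m → ρ → Bool, ∑ A : ρ → Bool, U (Fin.cons A X) := by
      rw [Finset.sum_comm]
      apply Finset.sum_congr rfl
      intro X _
      apply Finset.sum_congr rfl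
      intro A _
      rw [hU]
    rw [sum_fcons, h51, Fintype.sum_prod_type, Finset.mul_sum]
    apply Finset.sum_congr rfl
    intro X _
    change ∑ _y : ρ → Bool, ∑ A : ρ → Bool, U (Fin.cons A X) = _
    rw [Finset.sum_const, Finset.card_univ, Fintype.card_fun, Fintype.card_bool, nsmul_eq_mul, Nat.cast_pow,
      Nat.cast_ofNat]
  have h6 : ∑ p : (Fin m → ρ → Bool) × (ρ → Bool), w p.1 * (∑ A, F A p.1 p.2) ^ 2 ≤
      ∑ A : ρ → Bool, ∑ A' : ρ → Bool,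
        |∑ X : Fin m → ρ → Bool, ∑ L : ρ → Bool, w X * (F A X L * F A' X L)| := by
    have h7 : ∑ p : (Fin m → ρ → Bool) × (ρ → Bool), w p.1 * (∑ A, F A p.1 p.2) ^ 2 =
        ∑ A : ρ → Bool, ∑ A' : ρ → Bool,
          ∑ X : Fin m → ρ → Bool, ∑ L : ρ → Bool, w X * (F A X L * F A' X L) := by
      have h8 : ∀ p : (Fin m → ρ → Bool) × (ρ → Bool), w p.1 * (∑ A, F A p.1 p.2) ^ 2 =
          ∑ A : ρ → Bool, ∑ A' : ρ → Bool, w p.1 * (F A p.1 p.2 * F A' p.1 p.2) := by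
        intro p
        rw [pow_two, Finset.sum_mul_sum, Finset.mul_sum]
        apply Finset.sum_congr rfl
        intro A _
        rw [Finset.mul_sum]
      rw [Finset.sum_congr rfl fun p _ => h8 p, Finset.sum_comm]
      apply Finset.sum_congr rfl
      intro A _
      rw [Finset.sum_comm]
      apply Finset.sum_congr rfl
      intro A' _
      rw [Fintype.sum_prod_type]
    rw [h7]
    exact Finset.sum_le_sum fun A _ => Finset.sum_le_sum fun A' _ => le_abs_self _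
  have h9 : ∀ (A A' : ρ → Bool) (X : Fin m → ρ → Bool) (L : ρ → Bool),
      (ψ (Fin.cons A X) * ψ (Fin.cons A' X)) *
          (∏ i : Fin m, (φ i.succ (Fin.cons A X) L * φ i.succ (Fin.cons A' X) L)) *
          (∏ b ∈ 𝓑, (wt (bz π b) (cp π b (dD X)) *
            (uq π (Fin.cons A X : Fin (m + 1) → ρ → Bool) b *
              uq π (Fin.cons A' X : Fin (m + 1) → ρ → Bool) b))) *
          (sg (Fin.cons A X : Fin (m + 1) → ρ → Bool) L *
            sg (Fin.cons A' X : Fin (m + 1) → ρ → Bool) L) = w X * (F A X L * F A' X L) := by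
    intro A A' X L
    rw [Finset.prod_mul_distrib, Finset.prod_mul_distrib, Finset.prod_mul_distrib, hU, hU, hw, ← hF, ← hF]
    ring
  have h10 : |∑ p : (Fin m → ρ → Bool) × (ρ → Bool), φ 0 (Fin.cons (fun _ => false) p.1) p.2 *
      ∑ A, F A p.1 p.2| ≤ ∑ p : (Fin m → ρ → Bool) × (ρ → Bool), |∑ A, F A p.1 p.2| := by
    refine (Finset.abs_sum_le_sum_abs _ _).trans (Finset.sum_le_sum fun p _ => ?_)
    rw [abs_mul]
    calc _ ≤ 1 * |∑ A, F A p.1 p.2| := mul_le_mul_of_nonneg_right (hφ _ _ _) (abs_nonneg _)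
      _ = _ := one_mul _
  simp only [h9]
  rw [hS, ← sq_abs]
  calc _ ≤ (∑ p : (Fin m → ρ → Bool) × (ρ → Bool), |∑ A, F A p.1 p.2|) ^ 2 :=
        pow_le_pow_left₀ (abs_nonneg _) h10 2
    _ ≤ _ := hCS
    _ ≤ _ := by
        rw [h5]
        apply mul_le_mul_of_nonneg_left h6
        apply mul_nonneg (by positivity)
        apply Finset.sum_nonneg
        intro X _
        rw [hU]
        exact hU0 X

end Pool.Agent.Lib.Pf91712x
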