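import Pool.Agent.Lib.Pf91712x.Cyl3
import Pool.Agent.Lib.Pf91712.Core

/-!
PROOF. Copy the proof of `Pf91712.core` (Pf91712/Core.lean) with `q = 1` and `R0 = R0 (τ + 1) J π`
(the inputs in `R0` have a nonzero `r i x` in each row, which is all that is used: `zet y r` has a zero in each row, so the answer
is `false`); `greedy` and `cover (q := 1)` are used for `r` with values in `Fin (1 + 1)`, `card_small` for the sets `K`. Instead of `Nat.card X` count the
`r ∈ R0` with `r ∈ X`: one gets `K`, `X ∈ 𝒳 K` with `R0.card ≤ 2 * U * Nat.card {r // r ∈ R0 ∧ r ∈ X}`, and `cyl` gives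
`2 ^ J * Nat.card {..} ≤ R0.card`; `R0.card > 0`, so `2 ^ J ≤ 2 * U`, contradiction to `hB`.
-/

set_option autoImplicit false

open Finset

namespace Pool.Agent.Lib.Pf91712x

open Pool.Agent.Lib.Pa76659 (DT)
open Pool.Agent.Lib.Pf91712

theorem coreX {τ M w d t J : ℕ} {ρ : Type} [Fintype ρ] [DecidableEq ρ] {Q : Type}
    (π : ρ → Fin J) (hπ : ∀ b, bz π b = 4 ^ (τ + 3))
    (cq : Q → CQ (ρ × Fin (τ + 2) × Fin M) w) (hd : ∀ p, (cq p).Dep d) (T : DT Q Bool)
    (hT : T.depth ≤ t) (hM : 0 < M)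
    (hA : 2 * (t * w * (d + 1) ^ (2 * τ + 1)) ≤ M ^ (τ + 1))
    (hB : 2 * ((Fintype.card ρ * (τ + 2) * M + 1) ^ ((t + 1) * (τ + 1)) *
        ((w + 1) ^ (2 ^ (τ + 2))) ^ t) < 2 ^ J) :
    ∃ ζ : ρ × Fin (τ + 2) × Fin M → Bool,
      ¬ (T.eval (fun p => (cq p).val ζ) = true ↔ ∃ x, ∀ i c, ζ (x, i, c) = false) := by
  classical
  by_contra hcon
  push Not at hcon
  set s : ℕ := (t + 1) * (τ + 1) with hs
  set R : Finset (Fin (τ + 1 + 1) → ρ → Fin (1 + 1)) := R0 (τ + 1) J π with hR0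
  have hRm : ∀ r ∈ R, ∀ x, ∃ i, r i x ≠ 0 := by
    intro r hr
    rw [hR0, R0, mem_filter] at hr
    exact hr.2.2
  have hπ' : ∀ b, bz π b = 4 ^ (τ + 1 + 2) := fun b => hπ b
  let G : (ρ → Fin (τ + 2) → Fin M) → (Fin (τ + 1 + 1) → ρ → Fin (1 + 1)) → Prop := fun y r =>
    ∃ K : Finset (ρ × Fin (τ + 2) × Fin M),
      K.card ≤ s ∧ (∀ e ∈ K, zet y r e = true) ∧ GoodP bl cq (zet y r) K τ T
  have hgr : ∀ r, 2 * (univ.filter fun y => ¬ G y r).card ≤
      Fintype.card (ρ → Fin (τ + 2) → Fin M) := by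
    intro r
    have := greedy cq hd T hT hA r
    rw [Nat.card_eq_fintype_card, Fintype.card_subtype] at this
    exact this
  have : Nonempty (Fin M) := ⟨⟨0, hM⟩⟩
  -- one good `y`
  obtain ⟨y, hy⟩ : ∃ y, 2 * (R.filter fun r => ¬ G y r).card ≤ R.card := by
    by_contra hno
    push Not at hno
    have h1 : ∑ y : ρ → Fin (τ + 2) → Fin M, (R.card + 1) ≤
        ∑ y : ρ → Fin (τ + 2) → Fin M, 2 * (R.filter fun r => ¬ G y r).card :=
      sum_le_sum fun y _ => hno y
    have h2 : ∑ y : ρ → Fin (τ + 2) → Fin M, 2 * (R.filter fun r => ¬ G y r).card =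
        ∑ r ∈ R, 2 * (univ.filter fun y => ¬ G y r).card := by
      rw [← mul_sum, ← mul_sum]
      congr 1
      simp only [card_filter]
      exact sum_comm
    have h3 : ∑ r ∈ R, 2 * (univ.filter fun y => ¬ G y r).card ≤
        ∑ r ∈ R, Fintype.card (ρ → Fin (τ + 2) → Fin M) := sum_le_sum fun r _ => hgr r
    rw [sum_const, smul_eq_mul] at h1 h3
    rw [h2] at h1
    have h4 := h1.trans h3
    rw [card_univ] at h4
    have h5 : 0 < Fintype.card (ρ → Fin (τ + 2) → Fin M) := Fintype.card_pos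
    nlinarith
  -- the sets `X`
  have hcov := fun K => cover (q := 1) cq y K t T hT false
  choose 𝒳 h𝒳len h𝒳ci h𝒳 using hcov
  have hsub : ∀ K, ∀ X ∈ 𝒳 K, ∀ r ∈ X, ∀ x, ∃ i, r i x ≠ 0 := by
    intro K X hX r hr x
    have h1 := ((h𝒳 K r).1 ⟨X, hX, hr⟩).2.2
    by_contra hno
    push Not at hno
    have h2 := (hcon (zet y r)).2 ⟨x, fun i c => by simp [zet, hno i]⟩
    rw [h1] at h2
    exact absurd h2 (by simp)
  have hR0f : ∀ r ∈ R, T.eval (fun p => (cq p).val (zet y r)) = false := by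
    intro r hr
    by_contra hno
    rw [Bool.not_eq_false] at hno
    obtain ⟨x, hx⟩ := (hcon (zet y r)).1 hno
    obtain ⟨i, hi⟩ := hRm r hr x
    have := hx i (y x i)
    simp [zet, hi] at this
  set 𝒦 : Finset (Finset (ρ × Fin (τ + 2) × Fin M)) := univ.filter fun K => K.card ≤ s with h𝒦
  set U : ℕ := (Fintype.card ρ * (τ + 2) * M + 1) ^ s * ((w + 1) ^ (2 ^ (τ + 2))) ^ t with hU
  have hUpos : 0 < U := by positivity
  have h𝒦c : 𝒦.card ≤ (Fintype.card ρ * (τ + 2) * M + 1) ^ s := by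
    have := card_small (E := ρ × Fin (τ + 2) × Fin M) s
    simpa [Fintype.card_prod, mul_assoc] using this
  have hRpos : 0 < R.card := R0_pos (τ + 1) J (by omega) π hπ'
  obtain ⟨K, X, hX, hXc⟩ : ∃ K, ∃ X ∈ 𝒳 K,
      R.card ≤ 2 * U * Nat.card {r // r ∈ R ∧ r ∈ X} := by
    by_contra hno
    push Not at hno
    -- count
    have h1 : R.card ≤ 2 * (R.filter fun r => G y r).card := by
      have := card_filter_add_card_filter_not (s := R) (fun r => G y r)
      omega
    have h2 : (R.filter fun r => G y r) ⊆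
        𝒦.biUnion fun K => (𝒳 K).toFinset.biUnion fun X => univ.filter fun r => r ∈ R ∧ r ∈ X := by
      intro r hr
      rw [mem_filter] at hr
      obtain ⟨hr0, K, hK1, hK2, hK3⟩ := hr
      obtain ⟨X, hX, hrX⟩ := (h𝒳 K r).2 ⟨hK2, hK3, hR0f r hr0⟩
      simp only [mem_biUnion]
      exact ⟨K, by simp [h𝒦, hK1], X, by simpa using hX, by simpa using ⟨hr0, hrX⟩⟩
    have h3 : ∀ K, 2 * U * ((𝒳 K).toFinset.biUnion fun X =>
          univ.filter fun r => r ∈ R ∧ r ∈ X).card ≤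
        ((w + 1) ^ (2 ^ (τ + 2))) ^ t * (R.card - 1) := by
      intro K
      calc 2 * U * ((𝒳 K).toFinset.biUnion fun X => univ.filter fun r => r ∈ R ∧ r ∈ X).card
          ≤ 2 * U * ∑ X ∈ (𝒳 K).toFinset, (univ.filter fun r => r ∈ R ∧ r ∈ X).card :=
            Nat.mul_le_mul_left _ card_biUnion_le
        _ = ∑ X ∈ (𝒳 K).toFinset, 2 * U * (univ.filter fun r => r ∈ R ∧ r ∈ X).card := by
            rw [mul_sum]
        _ ≤ ∑ X ∈ (𝒳 K).toFinset, (R.card - 1) := by
            apply sum_le_sum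
            intro X hX
            have := hno K X (by simpa using hX)
            rw [Nat.card_eq_fintype_card, Fintype.card_subtype] at this
            omega
        _ = (𝒳 K).toFinset.card * (R.card - 1) := by rw [sum_const, smul_eq_mul]
        _ ≤ _ := Nat.mul_le_mul_right _ ((List.toFinset_card_le _).trans (h𝒳len K))
    have h4 : U * R.card ≤ U * (R.card - 1) := by
      calc U * R.card ≤ U * (2 * (R.filter fun r => G y r).card) := Nat.mul_le_mul_left _ h1
        _ = 2 * U * (R.filter fun r => G y r).card := by ring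
        _ ≤ 2 * U * ∑ K ∈ 𝒦, ((𝒳 K).toFinset.biUnion fun X =>
              univ.filter fun r => r ∈ R ∧ r ∈ X).card :=
            Nat.mul_le_mul_left _ ((card_le_card h2).trans card_biUnion_le)
        _ = ∑ K ∈ 𝒦, 2 * U * ((𝒳 K).toFinset.biUnion fun X =>
              univ.filter fun r => r ∈ R ∧ r ∈ X).card := by
            rw [mul_sum]
        _ ≤ ∑ K ∈ 𝒦, ((w + 1) ^ (2 ^ (τ + 2))) ^ t * (R.card - 1) := sum_le_sum fun K _ => h3 K
        _ = 𝒦.card * (((w + 1) ^ (2 ^ (τ + 2))) ^ t * (R.card - 1)) := by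
            rw [sum_const, smul_eq_mul]
        _ ≤ (Fintype.card ρ * (τ + 2) * M + 1) ^ s *
            (((w + 1) ^ (2 ^ (τ + 2))) ^ t * (R.card - 1)) := Nat.mul_le_mul_right _ h𝒦c
        _ = U * (R.card - 1) := by rw [hU]; ring
    have h5 := Nat.le_of_mul_le_mul_left h4 hUpos
    omega
  -- numbers
  have hb := cyl (τ + 1) J (by omega) π hπ' X (h𝒳ci K X hX) (hsub K X hX)
  rw [← hR0] at hb
  have hc0 : 0 < Nat.card {r // r ∈ R ∧ r ∈ X} := by
    rcases Nat.eq_zero_or_pos (Nat.card {r // r ∈ R ∧ r ∈ X}) with h | h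
    · rw [h] at hXc; omega
    · exact h
  have h6 : 2 ^ J * Nat.card {r // r ∈ R ∧ r ∈ X} ≤ 2 * U * Nat.card {r // r ∈ R ∧ r ∈ X} :=
    hb.trans hXc
  have h7 := Nat.le_of_mul_le_mul_right h6 hc0
  omega

end Pool.Agent.Lib.Pf91712x
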