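import Pool.Agent.Lib.Pf91712x.Uq

/-!
the induction hypothesis for fixed `A`, `A'`. PROOF. For each block `uq (cons A X) b * uq (cons A' X) b = c1 + c2` with the two
indicators `c1` (the common row is the same: one row in `D ∩ A ∩ A'`, none in `D ∩ (A ∆ A')`) and `c2` (none in `D ∩ A ∩ A'`,
one in `D ∩ A \ A'`, one in `D ∩ A' \ A`) as in `kk` (`dD_cons`). Expand the product over the blocks (`Finset.prod_add`): sum over
`T ⊆ 𝓑` (`T` = blocks with `c2`). For fixed `T` use `BndG m` with the block indices `(b, c)`, `𝓑' = T ×ˢ univ : Finset (β × Bool)`,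
`π' x = if A x ≠ A' x ∧ π x ∈ T then some (π x, A x) else none`, and the weight
`g X = ∏_{b ∈ T} ([no row of b in D ∩ A ∩ A'] * wt B_b (2 + o_b)) * ∏_{b ∈ 𝓑 \ T} (c1_b * wt B_b s_b)`,
`o_b` = number of the rows of `b` in `D` and in neither `A` nor `A'` (on the blocks in `T` the rows of `A ∆ A'` are not used; on
the other blocks all rows are outside). For all `X`: `∏_{b ∈ T} (wt B_b s_b * c2_b) * ∏_{b ∉ T} (wt B_b s_b * c1_b) =
g X * ∏_{(b, c) ∈ 𝓑'} uq π' X (some (b, c))` (if `c2_b = 1` then `s_b = 2 + o_b`), and if this is not `0` then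
`sg (cons A X) L * sg (cons A' X) L = sgV (π' x).isSome X L` (row by row: the product of the signs is `-1` iff `D`, `L`,
`A x ≠ A' x`; on the blocks outside `T` there is no row in `D ∩ (A ∆ A')`). The functions `ψ (cons A X) * ψ (cons A' X)`,
`φ i.succ (cons A X) L * φ i.succ (cons A' X) L` are again bounded by `1` and independent of `X i`. Finally
`∏_{𝓑'} (2 ^ m - 1) / √(size) = ∏_{b ∈ T} (2 ^ m - 1) / √|A \ A'| * ((2 ^ m - 1) / √|A' \ A|)`, and sum over `T` (`prod_add`
again).
-/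

set_option autoImplicit false

open Finset

namespace Pool.Agent.Lib.Pf91712x

namespace SplitAux

variable {ρ β : Type} [Fintype ρ] [DecidableEq ρ] [DecidableEq β]

omit [DecidableEq ρ] in
theorem cp_congr (π : ρ → β) (b : β) {P Q : ρ → Bool} (h : ∀ x, π x = b → P x = Q x) :
    cp π b P = cp π b Q := by
  unfold cp
  congr 1
  ext x
  simp only [mem_filter, mem_univ, true_and]
  constructor
  · rintro ⟨h1, h2⟩
    exact ⟨h1, by rw [← h x h1]; exact h2⟩
  · rintro ⟨h1, h2⟩
    exact ⟨h1, by rw [h x h1]; exact h2⟩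

theorem cp_add (π : ρ → β) (b : β) {P Q R : ρ → Bool} (h1 : ∀ x, R x = (P x || Q x))
    (h2 : ∀ x, ¬ (P x = true ∧ Q x = true)) : cp π b R = cp π b P + cp π b Q := by
  unfold cp
  rw [← card_union_of_disjoint]
  · congr 1
    ext x
    simp only [mem_filter, mem_univ, true_and, mem_union, h1, Bool.or_eq_true]
    tauto
  · rw [disjoint_left]
    intro x hx hy
    simp only [mem_filter, mem_univ, true_and] at hx hy
    exact h2 x ⟨hx.2, hy.2⟩

/-- the rows of `D` in both sets -/
def pp (π : ρ → β) (A A' D : ρ → Bool) (b : β) : ℕ := cp π b (fun x => D x && (A x && A' x))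
/-- the rows of `D` in the first set only -/
def qq (π : ρ → β) (A A' D : ρ → Bool) (b : β) : ℕ := cp π b (fun x => D x && (A x && !(A' x)))
/-- the rows of `D` in the second set only -/
def rr (π : ρ → β) (A A' D : ρ → Bool) (b : β) : ℕ := cp π b (fun x => D x && (!(A x) && A' x))
/-- the rows of `D` in no set -/
def oo (π : ρ → β) (A A' D : ρ → Bool) (b : β) : ℕ := cp π b (fun x => D x && (!(A x) && !(A' x)))
/-- the rows of `D` in exactly one set -/
def xx (π : ρ → β) (A A' D : ρ → Bool) (b : β) : ℕ := cp π b (fun x => D x && xor (A x) (A' x))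

theorem xx_eq (π : ρ → β) (A A' D : ρ → Bool) (b : β) :
    xx π A A' D b = qq π A A' D b + rr π A A' D b := by
  unfold xx qq rr
  apply cp_add
  · intro x
    cases D x <;> cases A x <;> cases A' x <;> rfl
  · intro x
    cases D x <;> cases A x <;> cases A' x <;> simp

theorem cp_A (π : ρ → β) (A A' D : ρ → Bool) (b : β) :
    cp π b (fun x => A x && D x) = pp π A A' D b + qq π A A' D b := by
  unfold pp qq
  apply cp_add
  · intro x
    cases D x <;> cases A x <;> cases A' x <;> rfl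
  · intro x
    cases D x <;> cases A x <;> cases A' x <;> simp

theorem cp_A' (π : ρ → β) (A A' D : ρ → Bool) (b : β) :
    cp π b (fun x => A' x && D x) = pp π A A' D b + rr π A A' D b := by
  unfold pp rr
  apply cp_add
  · intro x
    cases D x <;> cases A x <;> cases A' x <;> rfl
  · intro x
    cases D x <;> cases A x <;> cases A' x <;> simp

theorem cp_D (π : ρ → β) (A A' D : ρ → Bool) (b : β) :
    cp π b D = pp π A A' D b + qq π A A' D b + (rr π A A' D b + oo π A A' D b) := by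
  have h1 : cp π b (fun x => D x && A x) = pp π A A' D b + qq π A A' D b := by
    unfold pp qq
    apply cp_add
    · intro x
      cases D x <;> cases A x <;> cases A' x <;> rfl
    · intro x
      cases D x <;> cases A x <;> cases A' x <;> simp
  have h2 : cp π b (fun x => D x && !(A x)) = rr π A A' D b + oo π A A' D b := by
    unfold rr oo
    apply cp_add
    · intro x
      cases D x <;> cases A x <;> cases A' x <;> rfl
    · intro x
      cases D x <;> cases A x <;> cases A' x <;> simp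
  rw [← h1, ← h2]
  apply cp_add
  · intro x
    cases D x <;> cases A x <;> rfl
  · intro x
    cases D x <;> cases A x <;> simp

/-- the common row is the same -/
noncomputable def c1 (π : ρ → β) (A A' D : ρ → Bool) (b : β) : ℝ :=
  if pp π A A' D b = 1 ∧ xx π A A' D b = 0 then 1 else 0
/-- the common rows are different -/
noncomputable def c2 (π : ρ → β) (A A' D : ρ → Bool) (b : β) : ℝ :=
  if pp π A A' D b = 0 ∧ qq π A A' D b = 1 ∧ rr π A A' D b = 1 then 1 else 0

theorem uq_mul {m : ℕ} (π : ρ → β) (A A' : ρ → Bool) (X : Fin m → ρ → Bool) (b : β) :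
    uq π (Fin.cons A X : Fin (m + 1) → ρ → Bool) b *
      uq π (Fin.cons A' X : Fin (m + 1) → ρ → Bool) b = c2 π A A' (dD X) b + c1 π A A' (dD X) b := by
  have h1 : cp π b (dD (Fin.cons A X : Fin (m + 1) → ρ → Bool)) =
      pp π A A' (dD X) b + qq π A A' (dD X) b := by
    rw [← cp_A]
    exact cp_congr π b fun x _ => dD_cons A X x
  have h2 : cp π b (dD (Fin.cons A' X : Fin (m + 1) → ρ → Bool)) =
      pp π A A' (dD X) b + rr π A A' (dD X) b := by
    rw [← cp_A']
    exact cp_congr π b fun x _ => dD_cons A' X x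
  simp only [uq, h1, h2, c1, c2, xx_eq]
  split_ifs <;> first | (exfalso; omega) | norm_num

/-- the factor of a block in `T` -/
noncomputable def vb (m : ℕ) (π : ρ → β) (A A' : ρ → Bool) (b : β) : ℝ :=
  (2 ^ m - 1) / √(cp π b (fun x => A x && !(A' x)) : ℝ) *
    ((2 ^ m - 1) / √(cp π b (fun x => !(A x) && A' x) : ℝ))

omit [DecidableEq ρ] in
theorem kk_eq (m : ℕ) (π : ρ → β) (A A' D : ρ → Bool) (b : β) :
    kk m π A A' D b = wt (bz π b) (cp π b D) * c2 π A A' D b * vb m π A A' b +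
      wt (bz π b) (cp π b D) * c1 π A A' D b := by
  unfold kk c1 c2 vb pp qq rr xx
  ring

/-- the new blocks -/
def pi' (π : ρ → β) (A A' : ρ → Bool) (T : Finset β) (x : ρ) : Option (β × Bool) :=
  if A x ≠ A' x ∧ π x ∈ T then some (π x, A x) else none

/-- the weight of `T` -/
noncomputable def ee (π : ρ → β) (A A' : ρ → Bool) (𝓑 T : Finset β) (D : ρ → Bool) : ℝ :=
  (∏ b ∈ T, wt (bz π b) (cp π b D) * c2 π A A' D b) *
    ∏ b ∈ 𝓑 \ T, wt (bz π b) (cp π b D) * c1 π A A' D b

/-- the weight which depends on the other rows -/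
noncomputable def gg (π : ρ → β) (A A' : ρ → Bool) (𝓑 T : Finset β) (D : ρ → Bool) : ℝ :=
  (∏ b ∈ T, (if pp π A A' D b = 0 then (1 : ℝ) else 0) * wt (bz π b) (2 + oo π A A' D b)) *
    ∏ b ∈ 𝓑 \ T, c1 π A A' D b * wt (bz π b) (cp π b D)

omit [DecidableEq ρ] in
theorem cp_pi_true (π : ρ → β) (A A' : ρ → Bool) (T : Finset β) {b : β} (hb : b ∈ T) (D : ρ → Bool) :
    cp (pi' π A A' T) (some (b, true)) D = qq π A A' D b := by
  unfold cp qq cp
  congr 1
  ext x
  simp only [mem_filter, mem_univ, true_and]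
  constructor
  · rintro ⟨h1, h2⟩
    unfold pi' at h1
    split_ifs at h1 with h
    simp only [Option.some.injEq, Prod.mk.injEq] at h1
    have h3 : A' x = false := by
      cases h4 : A' x
      · rfl
      · exact absurd (h1.2.trans h4.symm) h.1
    refine ⟨h1.1, ?_⟩
    rw [h2, h1.2, h3]
    rfl
  · rintro ⟨h1, h2⟩
    simp only [Bool.and_eq_true, Bool.not_eq_true'] at h2
    have h3 : A x ≠ A' x ∧ π x ∈ T := by
      rw [h2.2.1, h2.2.2, h1]
      exact ⟨by simp, hb⟩
    refine ⟨?_, h2.1⟩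
    unfold pi'
    rw [if_pos h3, h1, h2.2.1]

omit [DecidableEq ρ] in
theorem cp_pi_false (π : ρ → β) (A A' : ρ → Bool) (T : Finset β) {b : β} (hb : b ∈ T)
    (D : ρ → Bool) : cp (pi' π A A' T) (some (b, false)) D = rr π A A' D b := by
  unfold cp rr cp
  congr 1
  ext x
  simp only [mem_filter, mem_univ, true_and]
  constructor
  · rintro ⟨h1, h2⟩
    unfold pi' at h1
    split_ifs at h1 with h
    simp only [Option.some.injEq, Prod.mk.injEq] at h1
    have h3 : A' x = true := by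
      cases h4 : A' x
      · exact absurd (h1.2.trans h4.symm) h.1
      · rfl
    refine ⟨h1.1, ?_⟩
    rw [h2, h1.2, h3]
    rfl
  · rintro ⟨h1, h2⟩
    simp only [Bool.and_eq_true, Bool.not_eq_true'] at h2
    have h3 : A x ≠ A' x ∧ π x ∈ T := by
      rw [h2.2.1, h2.2.2, h1]
      exact ⟨by simp, hb⟩
    refine ⟨?_, h2.1⟩
    unfold pi'
    rw [if_pos h3, h1, h2.2.1]

omit [DecidableEq ρ] in
theorem bz_cp (π : ρ → β) (b : β) : bz π b = cp π b (fun _ => true) := by
  unfold bz cp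
  simp

omit [DecidableEq ρ] in
theorem bz_pi_true (π : ρ → β) (A A' : ρ → Bool) (T : Finset β) {b : β} (hb : b ∈ T) :
    bz (pi' π A A' T) (some (b, true)) = cp π b (fun x => A x && !(A' x)) := by
  rw [bz_cp, cp_pi_true π A A' T hb]
  exact cp_congr π b fun x _ => by simp

omit [DecidableEq ρ] in
theorem bz_pi_false (π : ρ → β) (A A' : ρ → Bool) (T : Finset β) {b : β} (hb : b ∈ T) :
    bz (pi' π A A' T) (some (b, false)) = cp π b (fun x => !(A x) && A' x) := by
  rw [bz_cp, cp_pi_false π A A' T hb]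
  exact cp_congr π b fun x _ => by simp

theorem point1 {m : ℕ} (π : ρ → β) (A A' : ρ → Bool) (𝓑 T : Finset β) (X : Fin m → ρ → Bool) :
    gg π A A' 𝓑 T (dD X) * ∏ c ∈ T ×ˢ (univ : Finset Bool), uq (pi' π A A' T) X (some c) =
      ee π A A' 𝓑 T (dD X) := by
  unfold gg ee
  rw [prod_product, mul_right_comm, ← prod_mul_distrib]
  congr 1
  · refine prod_congr rfl fun b hb => ?_
    rw [Fintype.prod_bool]
    simp only [uq, cp_pi_true π A A' T hb, cp_pi_false π A A' T hb, c2]
    by_cases h : pp π A A' (dD X) b = 0 ∧ qq π A A' (dD X) b = 1 ∧ rr π A A' (dD X) b = 1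
    · rw [if_pos h, if_pos h.1, if_pos h.2.1, if_pos h.2.2, cp_D π A A' (dD X) b, h.1, h.2.1, h.2.2]
      rw [show 0 + 1 + (1 + oo π A A' (dD X) b) = 2 + oo π A A' (dD X) b by ring]
      ring
    · rw [if_neg h]
      by_cases h1 : pp π A A' (dD X) b = 0
      · by_cases h2 : qq π A A' (dD X) b = 1
        · have h3 : ¬ rr π A A' (dD X) b = 1 := fun h3 => h ⟨h1, h2, h3⟩
          simp [h3]
        · simp [h2]
      · simp [h1]
  · refine prod_congr rfl fun b _ => ?_
    ring

omit [DecidableEq ρ] in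
theorem point2 {m : ℕ} (π : ρ → β) (A A' : ρ → Bool) (𝓑 T : Finset β) (hπ : ∀ x, π x ∈ 𝓑)
    (X : Fin m → ρ → Bool) (L : ρ → Bool) (h0 : ee π A A' 𝓑 T (dD X) ≠ 0) :
    sg (Fin.cons A X : Fin (m + 1) → ρ → Bool) L * sg (Fin.cons A' X : Fin (m + 1) → ρ → Bool) L =
      sgV (fun x => (pi' π A A' T x).isSome) X L := by
  unfold sg sgV
  rw [← prod_mul_distrib]
  refine prod_congr rfl fun x _ => ?_
  rw [dD_cons, dD_cons]
  beta_reduce
  by_cases hx : π x ∈ T
  · have h1 : (pi' π A A' T x).isSome = decide (A x ≠ A' x) := by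
      unfold pi'
      by_cases h : A x ≠ A' x
      · rw [if_pos ⟨h, hx⟩]
        simp [h]
      · rw [if_neg (fun h' => h h'.1)]
        simp [h]
    rw [h1]
    cases A x <;> cases A' x <;> cases dD X x <;> cases L x <;> simp
  · have h1 : (pi' π A A' T x).isSome = false := by
      unfold pi'
      rw [if_neg (fun h' => hx h'.2)]
      rfl
    rw [h1]
    have h2 : c1 π A A' (dD X) (π x) ≠ 0 := by
      intro h
      apply h0
      unfold ee
      have : ∏ b ∈ 𝓑 \ T, wt (bz π b) (cp π b (dD X)) * c1 π A A' (dD X) b = 0 :=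
        prod_eq_zero (mem_sdiff.2 ⟨hπ x, hx⟩) (by rw [h, mul_zero])
      rw [this, mul_zero]
    have h3 : xx π A A' (dD X) (π x) = 0 := by
      unfold c1 at h2
      by_contra h
      exact h2 (if_neg (fun h' => h h'.2))
    have h4 : (dD X x && xor (A x) (A' x)) = false := by
      unfold xx cp at h3
      rw [card_eq_zero, filter_eq_empty_iff] at h3
      by_contra h
      rw [Bool.not_eq_false] at h
      exact h3 (mem_univ x) ⟨rfl, h⟩
    revert h4
    cases A x <;> cases A' x <;> cases dD X x <;> cases L x <;> simp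

theorem wt_nonneg (B s : ℕ) : 0 ≤ wt B s := by
  unfold wt
  positivity

omit [DecidableEq ρ] in
theorem gg_nonneg (π : ρ → β) (A A' : ρ → Bool) (𝓑 T : Finset β) (D : ρ → Bool) :
    0 ≤ gg π A A' 𝓑 T D := by
  unfold gg
  apply mul_nonneg
  · refine prod_nonneg fun b _ => mul_nonneg ?_ (wt_nonneg _ _)
    split_ifs <;> norm_num
  · refine prod_nonneg fun b _ => mul_nonneg ?_ (wt_nonneg _ _)
    unfold c1
    split_ifs <;> norm_num

omit [DecidableEq ρ] in
theorem gg_congr {m : ℕ} (π : ρ → β) (A A' : ρ → Bool) (𝓑 T : Finset β)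
    (X Y : Fin m → ρ → Bool) (h : ∀ x, pi' π A A' T x = none → ∀ i, X i x = Y i x) :
    gg π A A' 𝓑 T (dD X) = gg π A A' 𝓑 T (dD Y) := by
  have hD : ∀ x, (¬ (A x ≠ A' x ∧ π x ∈ T)) → dD X x = dD Y x := by
    intro x hx
    have h1 := h x (by unfold pi'; rw [if_neg hx])
    unfold dD
    simp only [h1]
  unfold gg
  congr 1
  · refine prod_congr rfl fun b hb => ?_
    have h1 : pp π A A' (dD X) b = pp π A A' (dD Y) b := by
      unfold pp
      refine cp_congr π b fun x _ => ?_
      by_cases hx : A x = A' x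
      · rw [hD x (fun h' => h'.1 hx)]
      · revert hx
        cases A x <;> cases A' x <;> simp
    have h2 : oo π A A' (dD X) b = oo π A A' (dD Y) b := by
      unfold oo
      refine cp_congr π b fun x _ => ?_
      by_cases hx : A x = A' x
      · rw [hD x (fun h' => h'.1 hx)]
      · revert hx
        cases A x <;> cases A' x <;> simp
    rw [h1, h2]
  · refine prod_congr rfl fun b hb => ?_
    have hb' := (mem_sdiff.1 hb).2
    have h1 : ∀ x, π x = b → dD X x = dD Y x := by
      intro x hx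
      exact hD x (fun h' => hb' (hx ▸ h'.2))
    have h2 : c1 π A A' (dD X) b = c1 π A A' (dD Y) b := by
      unfold c1 pp xx
      rw [cp_congr π b (P := fun x => dD X x && (A x && A' x)) (Q := fun x => dD Y x && (A x && A' x))
        (fun x hx => by rw [h1 x hx]),
        cp_congr π b (P := fun x => dD X x && xor (A x) (A' x))
          (Q := fun x => dD Y x && xor (A x) (A' x)) (fun x hx => by rw [h1 x hx])]
    rw [h2, cp_congr π b h1]

theorem oneT {m : ℕ} (hG : BndG m) (𝓑 T : Finset β) (π : ρ → β) (hπ : ∀ x, π x ∈ 𝓑)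
    (A A' : ρ → Bool)
    (ψ : (Fin m → ρ → Bool) → ℝ) (φ : Fin m → (Fin m → ρ → Bool) → (ρ → Bool) → ℝ)
    (hψ : ∀ X, |ψ X| ≤ 1) (hφ : ∀ i X L, |φ i X L| ≤ 1)
    (hφ2 : ∀ i X Y L, (∀ j, j ≠ i → X j = Y j) → φ i X L = φ i Y L) :
    |∑ X : Fin m → ρ → Bool, ∑ L : ρ → Bool,
        ψ X * (∏ i, φ i X L) * ee π A A' 𝓑 T (dD X) *
          (sg (Fin.cons A X : Fin (m + 1) → ρ → Bool) L *
            sg (Fin.cons A' X : Fin (m + 1) → ρ → Bool) L)| ≤
      2 ^ Fintype.card ρ * ∑ X : Fin m → ρ → Bool, ee π A A' 𝓑 T (dD X) * ∏ b ∈ T, vb m π A A' b := by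
  have h1 : ∀ X : Fin m → ρ → Bool, ∀ L : ρ → Bool,
      ψ X * (∏ i, φ i X L) * ee π A A' 𝓑 T (dD X) *
          (sg (Fin.cons A X : Fin (m + 1) → ρ → Bool) L *
            sg (Fin.cons A' X : Fin (m + 1) → ρ → Bool) L) =
      ψ X * (∏ i, φ i X L) * gg π A A' 𝓑 T (dD X) *
        (∏ c ∈ T ×ˢ (univ : Finset Bool), uq (pi' π A A' T) X (some c)) *
          sgV (fun x => (pi' π A A' T x).isSome) X L := by
    intro X L
    rw [mul_assoc (ψ X * ∏ i, φ i X L) (gg π A A' 𝓑 T (dD X)), point1]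
    by_cases h0 : ee π A A' 𝓑 T (dD X) = 0
    · rw [h0]
      ring
    · rw [point2 π A A' 𝓑 T hπ X L h0]
  rw [sum_congr rfl fun X _ => sum_congr rfl fun L _ => h1 X L]
  have h2 := hG ρ (β × Bool) (T ×ˢ (univ : Finset Bool)) (pi' π A A' T)
    (by
      intro x b hx
      unfold pi' at hx
      split_ifs at hx with h
      rw [← Option.some.inj hx]
      exact mem_product.2 ⟨h.2, mem_univ _⟩)
    (fun X => gg π A A' 𝓑 T (dD X)) (fun X => gg_nonneg π A A' 𝓑 T _)
    (fun X Y h => gg_congr π A A' 𝓑 T X Y h) ψ φ hψ hφ hφ2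
  refine h2.trans (le_of_eq ?_)
  rw [← sum_mul, ← mul_assoc]
  congr 1
  · congr 1
    exact sum_congr rfl fun X _ => point1 π A A' 𝓑 T X
  · rw [prod_product]
    refine prod_congr rfl fun b hb => ?_
    rw [Fintype.prod_bool, bz_pi_true π A A' T hb, bz_pi_false π A A' T hb]
    rfl

end SplitAux

open SplitAux

theorem split {m : ℕ} (hG : BndG m) {ρ β : Type} [Fintype ρ] [DecidableEq ρ] [DecidableEq β]
    (𝓑 : Finset β) (π : ρ → β) (hπ : ∀ x, π x ∈ 𝓑)
    (ψ : (Fin (m + 1) → ρ → Bool) → ℝ) (φ : Fin (m + 1) → (Fin (m + 1) → ρ → Bool) → (ρ → Bool) → ℝ)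
    (hψ : ∀ X, |ψ X| ≤ 1) (hφ : ∀ i X L, |φ i X L| ≤ 1)
    (hφ2 : ∀ i X Y L, (∀ j, j ≠ i → X j = Y j) → φ i X L = φ i Y L) (A A' : ρ → Bool) :
    |∑ X : Fin m → ρ → Bool, ∑ L : ρ → Bool,
          (ψ (Fin.cons A X) * ψ (Fin.cons A' X)) *
          (∏ i : Fin m, (φ i.succ (Fin.cons A X) L * φ i.succ (Fin.cons A' X) L)) *
          (∏ b ∈ 𝓑, (wt (bz π b) (cp π b (dD X)) *
            (uq π (Fin.cons A X : Fin (m + 1) → ρ → Bool) b *
              uq π (Fin.cons A' X : Fin (m + 1) → ρ → Bool) b))) *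
          (sg (Fin.cons A X : Fin (m + 1) → ρ → Bool) L *
            sg (Fin.cons A' X : Fin (m + 1) → ρ → Bool) L)| ≤
      2 ^ Fintype.card ρ * ∑ X : Fin m → ρ → Bool, ∏ b ∈ 𝓑, kk m π A A' (dD X) b := by
  have h1 : ∀ X : Fin m → ρ → Bool, ∏ b ∈ 𝓑, (wt (bz π b) (cp π b (dD X)) *
            (uq π (Fin.cons A X : Fin (m + 1) → ρ → Bool) b *
              uq π (Fin.cons A' X : Fin (m + 1) → ρ → Bool) b)) =
      ∑ T ∈ 𝓑.powerset, ee π A A' 𝓑 T (dD X) := by
    intro X
    unfold ee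
    rw [← prod_add]
    refine prod_congr rfl fun b _ => ?_
    rw [uq_mul, mul_add]
  have h2 : ∑ X : Fin m → ρ → Bool, ∑ L : ρ → Bool,
          (ψ (Fin.cons A X) * ψ (Fin.cons A' X)) *
          (∏ i : Fin m, (φ i.succ (Fin.cons A X) L * φ i.succ (Fin.cons A' X) L)) *
          (∏ b ∈ 𝓑, (wt (bz π b) (cp π b (dD X)) *
            (uq π (Fin.cons A X : Fin (m + 1) → ρ → Bool) b *
              uq π (Fin.cons A' X : Fin (m + 1) → ρ → Bool) b))) *
          (sg (Fin.cons A X : Fin (m + 1) → ρ → Bool) L *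
            sg (Fin.cons A' X : Fin (m + 1) → ρ → Bool) L) =
      ∑ T ∈ 𝓑.powerset, ∑ X : Fin m → ρ → Bool, ∑ L : ρ → Bool,
          (ψ (Fin.cons A X) * ψ (Fin.cons A' X)) *
          (∏ i : Fin m, (φ i.succ (Fin.cons A X) L * φ i.succ (Fin.cons A' X) L)) *
          ee π A A' 𝓑 T (dD X) *
          (sg (Fin.cons A X : Fin (m + 1) → ρ → Bool) L *
            sg (Fin.cons A' X : Fin (m + 1) → ρ → Bool) L) := by
    symm
    rw [sum_comm]
    refine sum_congr rfl fun X _ => ?_
    rw [sum_comm]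
    refine sum_congr rfl fun L _ => ?_
    rw [h1 X, mul_sum, sum_mul]
  have h3 : ∑ X : Fin m → ρ → Bool, ∏ b ∈ 𝓑, kk m π A A' (dD X) b =
      ∑ T ∈ 𝓑.powerset, ∑ X : Fin m → ρ → Bool, ee π A A' 𝓑 T (dD X) * ∏ b ∈ T, vb m π A A' b := by
    symm
    rw [sum_comm]
    refine sum_congr rfl fun X _ => ?_
    simp only [kk_eq]
    rw [prod_add]
    refine sum_congr rfl fun T _ => ?_
    unfold ee
    simp only [prod_mul_distrib]
    ring
  rw [h2, h3, mul_sum]
  refine (abs_sum_le_sum_abs _ _).trans (sum_le_sum fun T _ => ?_)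
  refine oneT hG 𝓑 T π hπ A A' (fun X => ψ (Fin.cons A X) * ψ (Fin.cons A' X))
    (fun i X L => φ i.succ (Fin.cons A X) L * φ i.succ (Fin.cons A' X) L) ?_ ?_ ?_
  · intro X
    rw [abs_mul]
    exact mul_le_one₀ (hψ _) (abs_nonneg _) (hψ _)
  · intro i X L
    rw [abs_mul]
    exact mul_le_one₀ (hφ _ _ _) (abs_nonneg _) (hφ _ _ _)
  · intro i X Y L h
    have h4 : ∀ C : ρ → Bool, φ i.succ (Fin.cons C X) L = φ i.succ (Fin.cons C Y) L := by
      intro C
      apply hφ2
      intro j hj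
      induction j using Fin.cases with
      | zero => rfl
      | succ j =>
        simp only [Fin.cons_succ]
        exact h j (fun h' => hj (by rw [h']))
    simp only [h4]

end Pool.Agent.Lib.Pf91712x
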