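import Pool.Agent.Lib.Pf91712x.Uq

/-!
`Bnd n → BndG n`. PROOF.
Let `V = {x // (π x).isSome}`, `W = {x // ¬ (π x).isSome}`; inputs are pairs of inputs on `V` and `W`
(`Equiv.piEquivPiSubtypeProd` for `L` and for each `X i`). For fixed values on `W` use `Bnd n` for the rows `V` with
`x ↦ (π x).get` and the functions with the values on `W` filled in: the inner sum is at most
`g * (2 (2 ^ n - 1)) ^ card V * ∏ √B_b`, and this is `g * 2 ^ card V * (∑ over the X on V of ∏ uq) * ∏ (2 ^ n - 1) / √B_b` by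
`sum_uq` (block by block `c ^ B * √B = B * c ^ (B - 1) * (c / √B)`, also for `B = 0`, and `card V = ∑ B_b`).
Then sum over the values on `W` (`2 ^ card W` sets `L`).
-/

set_option autoImplicit false

open Finset

namespace Pool.Agent.Lib.Pf91712x

namespace TransAux

section

variable {ρ β : Type} (π : ρ → Option β)

/-- the rows in the blocks -/
abbrev Vt := {x : ρ // (π x).isSome = true}

/-- the other rows -/
abbrev Wt := {x : ρ // ¬ (π x).isSome = true}

/-- the set with given parts on `Vt` and `Wt` -/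
def glue (a : Vt π → Bool) (c : Wt π → Bool) : ρ → Bool :=
  fun x => if h : (π x).isSome = true then a ⟨x, h⟩ else c ⟨x, h⟩

/-- the block of a row in `Vt` -/
def pr (x : Vt π) : β := (π x.1).get x.2

theorem glue_V (a : Vt π → Bool) (c : Wt π → Bool) (x : Vt π) : glue π a c x.1 = a x := dif_pos x.2

theorem glue_W (a : Vt π → Bool) (c : Wt π → Bool) (x : Wt π) : glue π a c x.1 = c x := dif_neg x.2

theorem pr_iff (x : Vt π) (b : β) : pr π x = b ↔ π x.1 = some b := by
  unfold pr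
  constructor
  · intro h
    rw [← h, Option.some_get]
  · intro h
    simp [h]

theorem glue_eta (f : ρ → Bool) : glue π (fun x => f x.1) (fun x => f x.1) = f := by
  funext x
  unfold glue
  split_ifs <;> rfl

/-- pairs of sets -/
def eq1 : (ρ → Bool) ≃ (Vt π → Bool) × (Wt π → Bool) where
  toFun f := (fun x => f x.1, fun x => f x.1)
  invFun p := glue π p.1 p.2
  left_inv f := glue_eta π f
  right_inv _ := Prod.ext (funext fun x => glue_V π _ _ x) (funext fun x => glue_W π _ _ x)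

/-- pairs of families -/
def eqn (n : ℕ) : (Fin n → ρ → Bool) ≃ (Fin n → Vt π → Bool) × (Fin n → Wt π → Bool) where
  toFun f := (fun i x => f i x.1, fun i x => f i x.1)
  invFun p := fun i => glue π (p.1 i) (p.2 i)
  left_inv f := funext fun i => glue_eta π (f i)
  right_inv _ := Prod.ext (funext fun _ => funext fun x => glue_V π _ _ x)
    (funext fun _ => funext fun x => glue_W π _ _ x)

theorem sum1 [Fintype ρ] [DecidableEq ρ] (f : (ρ → Bool) → ℝ) :
    ∑ L, f L = ∑ c : Wt π → Bool, ∑ a : Vt π → Bool, f (glue π a c) := by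
  rw [← (eq1 π).symm.sum_comp f, Fintype.sum_prod_type, Finset.sum_comm]
  rfl

theorem sumn [Fintype ρ] [DecidableEq ρ] {n : ℕ} (f : (Fin n → ρ → Bool) → ℝ) :
    ∑ X, f X = ∑ Y : Fin n → Wt π → Bool, ∑ Z : Fin n → Vt π → Bool, f (fun i => glue π (Z i) (Y i)) := by
  rw [← (eqn π n).symm.sum_comp f, Fintype.sum_prod_type, Finset.sum_comm]
  rfl

theorem dD_V {n : ℕ} (Z : Fin n → Vt π → Bool) (Y : Fin n → Wt π → Bool) (x : Vt π) :
    dD (fun i => glue π (Z i) (Y i)) x.1 = dD Z x := by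
  unfold dD
  congr 1
  apply propext
  refine forall_congr' fun i => ?_
  change glue π (Z i) (Y i) x.1 = true ↔ Z i x = true
  rw [glue_V]

theorem cp_V [Fintype ρ] [DecidableEq ρ] [DecidableEq β] (P : ρ → Bool) (b : β) :
    cp π (some b) P = cp (pr π) b (fun x => P x.1) := by
  unfold cp
  symm
  apply Finset.card_bij (fun (x : Vt π) _ => x.1)
  · intro x hx
    rw [mem_filter] at hx ⊢
    exact ⟨mem_univ _, (pr_iff π x b).mp hx.2.1, hx.2.2⟩
  · intro x _ y _ h
    exact Subtype.ext h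
  · intro y hy
    rw [mem_filter] at hy
    refine ⟨⟨y, by rw [hy.2.1]; rfl⟩, ?_, rfl⟩
    rw [mem_filter]
    exact ⟨mem_univ _, (pr_iff π _ b).mpr hy.2.1, hy.2.2⟩

theorem bz_V [Fintype ρ] [DecidableEq ρ] [DecidableEq β] (b : β) : bz π (some b) = bz (pr π) b := by
  have h := cp_V π (fun _ => true) b
  unfold cp at h
  unfold bz
  simpa using h

theorem uq_V [Fintype ρ] [DecidableEq ρ] [DecidableEq β] {n : ℕ} (Z : Fin n → Vt π → Bool)
    (Y : Fin n → Wt π → Bool) (b : β) : uq π (fun i => glue π (Z i) (Y i)) (some b) = uq (pr π) Z b := by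
  unfold uq
  have h : cp π (some b) (dD fun i => glue π (Z i) (Y i)) = cp (pr π) b (dD Z) := by
    rw [cp_V]
    congr 1
    funext x
    exact dD_V π Z Y x
  rw [h]

theorem sgV_V [Fintype ρ] [DecidableEq ρ] {n : ℕ} (Z : Fin n → Vt π → Bool) (Y : Fin n → Wt π → Bool)
    (a : Vt π → Bool) (c : Wt π → Bool) :
    sgV (fun x => (π x).isSome) (fun i => glue π (Z i) (Y i)) (glue π a c) = sg Z a := by
  unfold sgV sg
  rw [← Fintype.prod_subtype_mul_prod_subtype (fun x => (π x).isSome = true)]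
  have h1 : (∏ x : {x : ρ // ¬ (π x).isSome = true},
      if ((π x.1).isSome && (dD (fun i => glue π (Z i) (Y i)) x.1 && glue π a c x.1)) = true then
        (-1 : ℝ) else 1) = 1 := by
    apply Finset.prod_eq_one
    intro x _
    have h2 : (π x.1).isSome = false := by
      have := x.2
      simpa using this
    rw [h2]
    simp
  rw [h1, mul_one]
  apply Finset.prod_congr rfl
  intro x _
  rw [dD_V, glue_V]
  have h3 : (π x.1).isSome = true := x.2
  change (if ((π x.1).isSome && (dD Z x && a x)) = true then (-1 : ℝ) else 1) = _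
  rw [h3, Bool.true_and]

theorem card_V [Fintype ρ] [DecidableEq ρ] [DecidableEq β] (𝓑 : Finset β)
    (hπ : ∀ x b, π x = some b → b ∈ 𝓑) : Fintype.card (Vt π) = ∑ b ∈ 𝓑, bz (pr π) b := by
  rw [← Finset.card_univ]
  exact Finset.card_eq_sum_card_fiberwise (fun x _ => hπ x.1 _ ((pr_iff π x _).mp rfl))

theorem card_VW [Fintype ρ] [DecidableEq ρ] : Fintype.card (Vt π) + Fintype.card (Wt π) = Fintype.card ρ := by
  rw [← Fintype.card_sum]
  exact Fintype.card_congr (Equiv.sumCompl fun x => (π x).isSome = true)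

end

theorem block (c : ℝ) (B : ℕ) : c ^ B * √(B : ℝ) = (B * c ^ (B - 1)) * (c / √(B : ℝ)) := by
  rcases Nat.eq_zero_or_pos B with h | h
  · subst h
    simp
  · have h1 : (0 : ℝ) < B := Nat.cast_pos.mpr h
    have h2 : √(B : ℝ) ≠ 0 := (Real.sqrt_pos.mpr h1).ne'
    have h3 : c ^ B = c ^ (B - 1) * c := by
      rw [← pow_succ]
      congr 1
      omega
    have h4 : (B : ℝ) = √(B : ℝ) * √(B : ℝ) := (Real.mul_self_sqrt h1.le).symm
    rw [h3, mul_div_assoc', eq_div_iff h2]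
    calc c ^ (B - 1) * c * √(B : ℝ) * √(B : ℝ) = c ^ (B - 1) * c * (√(B : ℝ) * √(B : ℝ)) := by ring
      _ = (B : ℝ) * c ^ (B - 1) * c := by rw [← h4]; ring

end TransAux

open TransAux

theorem bndG {n : ℕ} (h : Bnd n) : BndG n := by
  intro ρ β _ _ _ 𝓑 π hπ g hg0 hg ψ φ hψ hφ hφ2
  obtain ⟨G, hG⟩ : ∃ G : (Fin n → Wt π → Bool) → ℝ, ∀ (Z : Fin n → Vt π → Bool)
      (Y : Fin n → Wt π → Bool), g (fun i => glue π (Z i) (Y i)) = G Y := by
    refine ⟨fun Y => g (fun i => glue π (fun _ => false) (Y i)), fun Z Y => hg _ _ ?_⟩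
    intro x hx i
    have hx' : ¬ (π x).isSome = true := by rw [hx]; simp
    rw [glue_W π _ _ ⟨x, hx'⟩, glue_W π _ _ ⟨x, hx'⟩]
  have hG0 : ∀ Y, 0 ≤ G Y := fun Y => by
    rw [← hG (fun _ _ => false) Y]
    exact hg0 _
  have hpr : ∀ x : Vt π, pr π x ∈ 𝓑 := fun x => hπ x.1 _ ((pr_iff π x _).mp rfl)
  obtain ⟨K, hK⟩ : ∃ K : ℝ, K = (2 * (2 ^ n - 1)) ^ Fintype.card (Vt π) * ∏ b ∈ 𝓑, √(bz (pr π) b : ℝ) :=
    ⟨_, rfl⟩
  -- the inner sums
  have hin : ∀ (Y : Fin n → Wt π → Bool) (c : Wt π → Bool),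
      |∑ Z : Fin n → Vt π → Bool, ∑ a : Vt π → Bool,
        ψ (fun i => glue π (Z i) (Y i)) *
          (∏ i, φ i (fun i => glue π (Z i) (Y i)) (glue π a c)) *
          (∏ b ∈ 𝓑, uq (pr π) Z b) * sg Z a| ≤ K := by
    intro Y c
    rw [hK]
    apply h (Vt π) β 𝓑 (pr π) hpr (fun Z => ψ (fun i => glue π (Z i) (Y i)))
      (fun i Z a => φ i (fun i => glue π (Z i) (Y i)) (glue π a c))
    · intro Z
      exact hψ _
    · intro i Z a
      exact hφ _ _ _
    · intro i Z Z' a hZ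
      apply hφ2
      intro j hj
      rw [hZ j hj]
  have hL : ∑ X : Fin n → ρ → Bool, ∑ L : ρ → Bool,
        ψ X * (∏ i, φ i X L) * g X * (∏ b ∈ 𝓑, uq π X (some b)) * sgV (fun x => (π x).isSome) X L =
      ∑ Y : Fin n → Wt π → Bool, ∑ c : Wt π → Bool, G Y *
        ∑ Z : Fin n → Vt π → Bool, ∑ a : Vt π → Bool,
          ψ (fun i => glue π (Z i) (Y i)) *
            (∏ i, φ i (fun i => glue π (Z i) (Y i)) (glue π a c)) *
            (∏ b ∈ 𝓑, uq (pr π) Z b) * sg Z a := by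
    rw [sumn π]
    apply Finset.sum_congr rfl
    intro Y _
    have h1 : ∀ Z : Fin n → Vt π → Bool, ∑ L : ρ → Bool,
        ψ (fun i => glue π (Z i) (Y i)) * (∏ i, φ i (fun i => glue π (Z i) (Y i)) L) *
          g (fun i => glue π (Z i) (Y i)) * (∏ b ∈ 𝓑, uq π (fun i => glue π (Z i) (Y i)) (some b)) *
          sgV (fun x => (π x).isSome) (fun i => glue π (Z i) (Y i)) L =
        ∑ c : Wt π → Bool, ∑ a : Vt π → Bool, G Y * (ψ (fun i => glue π (Z i) (Y i)) *
            (∏ i, φ i (fun i => glue π (Z i) (Y i)) (glue π a c)) *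
            (∏ b ∈ 𝓑, uq (pr π) Z b) * sg Z a) := by
      intro Z
      rw [sum1 π]
      apply Finset.sum_congr rfl
      intro c _
      apply Finset.sum_congr rfl
      intro a _
      rw [sgV_V, hG, Finset.prod_congr rfl fun b _ => uq_V π Z Y b]
      ring
    rw [Finset.sum_congr rfl fun Z _ => h1 Z, Finset.sum_comm]
    apply Finset.sum_congr rfl
    intro c _
    rw [Finset.mul_sum]
    apply Finset.sum_congr rfl
    intro Z _
    rw [Finset.mul_sum]
  have hR : ∑ X : Fin n → ρ → Bool, g X * ∏ b ∈ 𝓑, uq π X (some b) =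
      (∑ Y, G Y) * ∏ b ∈ 𝓑, ((bz (pr π) b : ℝ) * (2 ^ n - 1) ^ (bz (pr π) b - 1)) := by
    rw [sumn π, ← sum_uq n 𝓑 (pr π) hpr, Finset.sum_mul]
    apply Finset.sum_congr rfl
    intro Y _
    rw [Finset.mul_sum]
    apply Finset.sum_congr rfl
    intro Z _
    rw [hG, Finset.prod_congr rfl fun b _ => uq_V π Z Y b]
  have hKe : 2 ^ Fintype.card (Wt π) * K = 2 ^ Fintype.card ρ *
      (∏ b ∈ 𝓑, ((bz (pr π) b : ℝ) * (2 ^ n - 1) ^ (bz (pr π) b - 1))) *
        ∏ b ∈ 𝓑, ((2 ^ n - 1) / √(bz (pr π) b : ℝ)) := by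
    rw [hK, mul_assoc (2 ^ Fintype.card ρ), ← Finset.prod_mul_distrib,
      ← Finset.prod_congr rfl fun b _ => block (2 ^ n - 1) (bz (pr π) b), Finset.prod_mul_distrib,
      Finset.prod_pow_eq_pow_sum, ← card_V π 𝓑 hπ, ← card_VW π, mul_pow, pow_add]
    ring
  have hbz : ∏ b ∈ 𝓑, ((2 ^ n - 1) / √(bz π (some b) : ℝ)) = ∏ b ∈ 𝓑, ((2 ^ n - 1) / √(bz (pr π) b : ℝ)) := by
    apply Finset.prod_congr rfl
    intro b _
    rw [bz_V π b]
  rw [hL, hR, hbz]
  calc _ ≤ ∑ Y : Fin n → Wt π → Bool, ∑ c : Wt π → Bool, G Y * K := by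
        refine (Finset.abs_sum_le_sum_abs _ _).trans (Finset.sum_le_sum fun Y _ => ?_)
        refine (Finset.abs_sum_le_sum_abs _ _).trans (Finset.sum_le_sum fun c _ => ?_)
        rw [abs_mul, abs_of_nonneg (hG0 Y)]
        exact mul_le_mul_of_nonneg_left (hin Y c) (hG0 Y)
    _ = (∑ Y, G Y) * (2 ^ Fintype.card (Wt π) * K) := by
        rw [Finset.sum_mul]
        apply Finset.sum_congr rfl
        intro Y _
        rw [Finset.sum_const, Finset.card_univ, Fintype.card_fun, Fintype.card_bool, nsmul_eq_mul, Nat.cast_pow,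
          Nat.cast_ofNat]
        ring
    _ = _ := by
        rw [hKe]
        ring
    _ ≤ _ := le_refl _

end Pool.Agent.Lib.Pf91712x
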