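import Pool.Agent.Lib.Pf91712x.Base
import Pool.Agent.Lib.Pf91712x.Trans
import Pool.Agent.Lib.Pf91712x.CS
import Pool.Agent.Lib.Pf91712x.Split
import Pool.Agent.Lib.Pf91712x.Blocks

/-!
PROOF. Induction. `Bnd m → Bnd (m + 1)`: by `cs`,
`split (bndG h)` for each `A`, `A'`, `blocks`, `sum_uq` (`a = 2 ^ (m + 1) - 1`)
`(∑) ^ 2 ≤ 2 ^ card ρ * ∏ (B a ^ (B - 1)) * (2 ^ card ρ * ∏ a ^ (B + 1)) = (2 a) ^ (2 card ρ) * ∏ B` (`card ρ = ∑ B_b`,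
`Finset.card_eq_sum_card_fiberwise`; block by block `B a ^ (B - 1) a ^ (B + 1) = B a ^ (2 B)`, also for `B = 0`);
`abs_le_of_sq_le_sq`, `Real.sq_sqrt`, `Real.sqrt_prod` or `Finset.prod_pow`.
-/

set_option autoImplicit false

open Finset

namespace Pool.Agent.Lib.Pf91712x

theorem bnd (n : ℕ) : Bnd n := by
  induction n with
  | zero => exact bnd_zero
  | succ m h =>
    intro ρ β _ _ _ 𝓑 π hπ ψ φ hψ hφ hφ2
    have ha0 : (0 : ℝ) ≤ 2 ^ (m + 1) - 1 := by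
      have : (1 : ℝ) ≤ 2 ^ (m + 1) := one_le_pow₀ (by norm_num)
      linarith
    have hc : Fintype.card ρ = ∑ b ∈ 𝓑, bz π b := by
      have h1 := Finset.card_eq_sum_card_fiberwise (s := (univ : Finset ρ)) (t := 𝓑) (f := π)
        (fun x _ => hπ x)
      rw [← Finset.card_univ, h1]
      rfl
    have h1 := cs 𝓑 π hπ ψ φ hψ hφ hφ2
    have h2 := sum_uq (m + 1) 𝓑 π hπ
    rw [h2] at h1
    have h3 := Finset.sum_le_sum fun A (_ : A ∈ (univ : Finset (ρ → Bool))) =>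
      Finset.sum_le_sum fun A' (_ : A' ∈ (univ : Finset (ρ → Bool))) =>
        split (bndG h) 𝓑 π hπ ψ φ hψ hφ hφ2 A A'
    have h4 : ∑ A : ρ → Bool, ∑ A' : ρ → Bool, (2 : ℝ) ^ Fintype.card ρ *
        ∑ X : Fin m → ρ → Bool, ∏ b ∈ 𝓑, kk m π A A' (dD X) b ≤
        2 ^ Fintype.card ρ * ∏ b ∈ 𝓑, (2 ^ (m + 1) - 1 : ℝ) ^ (bz π b + 1) := by
      simp_rw [← mul_sum]
      exact mul_le_mul_of_nonneg_left (blocks m 𝓑 π hπ) (by positivity)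
    have h5 := h1.trans (mul_le_mul_of_nonneg_left (h3.trans h4)
      (mul_nonneg (by positivity) (Finset.prod_nonneg fun b _ => mul_nonneg (Nat.cast_nonneg _)
        (pow_nonneg ha0 _))))
    have hT0 : (0 : ℝ) ≤ (2 * (2 ^ (m + 1) - 1)) ^ Fintype.card ρ * ∏ b ∈ 𝓑, √(bz π b : ℝ) :=
      mul_nonneg (pow_nonneg (mul_nonneg (by norm_num) ha0) _)
        (Finset.prod_nonneg fun b _ => Real.sqrt_nonneg _)
    refine abs_le_of_sq_le_sq (h5.trans (le_of_eq ?_)) hT0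
    have e1 : (∏ b ∈ 𝓑, ((bz π b : ℝ) * (2 ^ (m + 1) - 1) ^ (bz π b - 1))) *
        ∏ b ∈ 𝓑, (2 ^ (m + 1) - 1 : ℝ) ^ (bz π b + 1) =
        (∏ b ∈ 𝓑, (2 ^ (m + 1) - 1 : ℝ) ^ bz π b) ^ 2 * (∏ b ∈ 𝓑, √(bz π b : ℝ)) ^ 2 := by
      rw [← Finset.prod_mul_distrib, ← Finset.prod_pow, ← Finset.prod_pow,
        ← Finset.prod_mul_distrib]
      apply Finset.prod_congr rfl
      intro b _
      rw [Real.sq_sqrt (Nat.cast_nonneg _)]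
      rcases Nat.eq_zero_or_pos (bz π b) with h0 | h0
      · rw [h0]; simp
      · obtain ⟨k, hk⟩ : ∃ k, bz π b = k + 1 := ⟨bz π b - 1, by omega⟩
        rw [hk, Nat.add_sub_cancel]
        ring
    have e2 : (∏ b ∈ 𝓑, (2 ^ (m + 1) - 1 : ℝ) ^ bz π b) = (2 ^ (m + 1) - 1) ^ Fintype.card ρ := by
      rw [hc, Finset.prod_pow_eq_pow_sum]
    rw [e2] at e1
    calc 2 ^ Fintype.card ρ * (∏ b ∈ 𝓑, ((bz π b : ℝ) * (2 ^ (m + 1) - 1) ^ (bz π b - 1))) *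
          (2 ^ Fintype.card ρ * ∏ b ∈ 𝓑, (2 ^ (m + 1) - 1 : ℝ) ^ (bz π b + 1))
        = (2 ^ Fintype.card ρ) ^ 2 *
          ((∏ b ∈ 𝓑, ((bz π b : ℝ) * (2 ^ (m + 1) - 1) ^ (bz π b - 1))) *
            ∏ b ∈ 𝓑, (2 ^ (m + 1) - 1 : ℝ) ^ (bz π b + 1)) := by ring
      _ = ((2 * (2 ^ (m + 1) - 1)) ^ Fintype.card ρ * ∏ b ∈ 𝓑, √(bz π b : ℝ)) ^ 2 := by
          rw [e1, mul_pow 2 (2 ^ (m + 1) - 1 : ℝ) (Fintype.card ρ)]
          ring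

end Pool.Agent.Lib.Pf91712x
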