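import Pool.Agent.Lib.Pf91712x.CylDefs
import Pool.Agent.Lib.Pf91712x.Ind

/-!
PROOF. Let `X` be the intersection of the cylinders `C i`. Use `bnd n` with `β = Fin J`, `𝓑 = univ`,
the inputs `X i x = decide (r i.castSucc x = 0)`, `L x = decide (r (Fin.last n) x = 0)` (a bijection of the inputs, inverse
`r i x = if .. then 0 else 1`), `φ i` the indicator of `C i.castSucc`, `ψ` the indicator of `C (Fin.last n)` (does not depend on
the last player: choose any `L`). On `X` no row is in all sets, so `sg = 1`: the sum is the number of the `r ∈ X` with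
exactly one common row of the first `n` players in each block, and all these are in `R0`.
-/

set_option autoImplicit false

open Finset

namespace Pool.Agent.Lib.Pf91712x

open Pool.Agent.Lib.Pf91712 (CI)

namespace Cyl1Aux

variable {ρ : Type} {n : ℕ}

/-- the input with the given sets -/
def toR (Z : Fin n → ρ → Bool) (L : ρ → Bool) : Fin (n + 1) → ρ → Fin (1 + 1) :=
  fun i x => if (Fin.lastCases (motive := fun _ => ρ → Bool) L Z i) x = true then 0 else 1

theorem toR_castSucc (Z : Fin n → ρ → Bool) (L : ρ → Bool) (i : Fin n) (x : ρ) :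
    toR Z L i.castSucc x = 0 ↔ Z i x = true := by
  unfold toR
  rw [Fin.lastCases_castSucc]
  by_cases h : Z i x = true
  · simp [h]
  · simp [h]

theorem toR_last (Z : Fin n → ρ → Bool) (L : ρ → Bool) (x : ρ) :
    toR Z L (Fin.last n) x = 0 ↔ L x = true := by
  unfold toR
  rw [Fin.lastCases_last]
  by_cases h : L x = true
  · simp [h]
  · simp [h]

theorem fin2_ext {a b : Fin (1 + 1)} (h : a = 0 ↔ b = 0) : a = b := by
  have ha := a.isLt
  have hb := b.isLt
  rw [Fin.ext_iff, Fin.ext_iff] at h
  simp only [Fin.val_zero] at h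
  apply Fin.ext
  omega

theorem toR_dec (r : Fin (n + 1) → ρ → Fin (1 + 1)) :
    toR (fun i x => decide (r i.castSucc x = 0)) (fun x => decide (r (Fin.last n) x = 0)) = r := by
  funext i x
  refine Fin.lastCases ?_ (fun i => ?_) i
  · apply fin2_ext
    rw [toR_last, decide_eq_true_iff]
  · apply fin2_ext
    rw [toR_castSucc, decide_eq_true_iff]

theorem toR_congr {Z Z' : Fin n → ρ → Bool} {L L' : ρ → Bool} {i : Fin (n + 1)}
    (hZ : ∀ j : Fin n, j.castSucc ≠ i → Z j = Z' j) (hL : Fin.last n ≠ i → L = L') :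
    ∀ j, j ≠ i → toR Z L j = toR Z' L' j := by
  intro j
  refine Fin.lastCases (fun hj => ?_) (fun j hj => ?_) j
  · funext x
    apply fin2_ext
    rw [toR_last, toR_last, hL hj]
  · funext x
    apply fin2_ext
    rw [toR_castSucc, toR_castSucc, hZ j hj]

end Cyl1Aux

open Cyl1Aux

theorem cyl1 {ρ : Type} [Fintype ρ] [DecidableEq ρ] (n J B : ℕ) (π : ρ → Fin J)
    (hπ : ∀ b, bz π b = B) (X : Set (Fin (n + 1) → ρ → Fin (1 + 1))) (hX : CI X)
    (hX0 : ∀ r ∈ X, ∀ x, ∃ i, r i x ≠ 0) :
    (Nat.card {r // r ∈ R0 n J π ∧ r ∈ X} : ℝ) ≤ (2 * (2 ^ n - 1)) ^ (J * B) * (√(B : ℝ)) ^ J := by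
  classical
  obtain ⟨C, hC, hXC⟩ := hX
  set φ : Fin n → (Fin n → ρ → Bool) → (ρ → Bool) → ℝ :=
    fun i Z L => if toR Z L ∈ C i.castSucc then 1 else 0 with hφ
  set ψ : (Fin n → ρ → Bool) → ℝ :=
    fun Z => if toR Z (fun _ => false) ∈ C (Fin.last n) then 1 else 0 with hψ
  have hb := bnd n ρ (Fin J) univ π (fun x => mem_univ _) ψ φ
    (by
      intro Z
      rw [hψ]
      simp only
      split_ifs <;> simp)
    (by
      intro i Z L
      rw [hφ]
      simp only
      split_ifs <;> simp)
    (by
      intro i Z Z' L h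
      rw [hφ]
      simp only
      have h1 : toR Z L ∈ C i.castSucc ↔ toR Z' L ∈ C i.castSucc := by
        refine hC _ _ _ (toR_congr (fun j hj => h j (fun hji => hj (by rw [hji]))) (fun _ => rfl))
      rw [if_congr h1 rfl rfl])
  have hcard : Fintype.card ρ = J * B := by
    have h1 : (univ : Finset ρ).card = ∑ b : Fin J, (univ.filter fun x => π x = b).card :=
      card_eq_sum_card_fiberwise (fun x _ => mem_univ _)
    rw [card_univ] at h1
    rw [h1]
    have h2 : ∀ b ∈ (univ : Finset (Fin J)), (univ.filter fun x => π x = b).card = B :=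
      fun b _ => hπ b
    rw [sum_congr rfl h2, sum_const, card_univ, Fintype.card_fin, smul_eq_mul]
  have hprod : ∏ b ∈ (univ : Finset (Fin J)), √(bz π b : ℝ) = (√(B : ℝ)) ^ J := by
    rw [prod_congr rfl (fun b _ => by rw [hπ b]), prod_const, card_univ, Fintype.card_fin]
  rw [hcard, hprod] at hb
  refine le_trans ?_ (le_trans (le_abs_self _) hb)
  -- the terms
  have hterm : ∀ (Z : Fin n → ρ → Bool) (L : ρ → Bool),
      ψ Z * (∏ i, φ i Z L) * (∏ b ∈ (univ : Finset (Fin J)), uq π Z b) * sg Z L =
      if toR Z L ∈ R0 n J π ∧ toR Z L ∈ X then 1 else 0 := by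
    intro Z L
    have h1 : ψ Z * (∏ i, φ i Z L) = if toR Z L ∈ X then 1 else 0 := by
      have h2 : toR Z (fun _ => false) ∈ C (Fin.last n) ↔ toR Z L ∈ C (Fin.last n) :=
        hC _ _ _ (toR_congr (fun _ _ => rfl) (fun h => absurd rfl h))
      have h3 : (∏ i, φ i Z L) = if ∀ i : Fin n, toR Z L ∈ C i.castSucc then 1 else 0 := by
        rw [hφ]
        simp only
        rw [Finset.prod_boole]
        simp
      have h4 : toR Z L ∈ X ↔ toR Z L ∈ C (Fin.last n) ∧ ∀ i : Fin n, toR Z L ∈ C i.castSucc := by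
        rw [hXC]
        constructor
        · intro h
          exact ⟨h _, fun i => h _⟩
        · rintro ⟨h5, h6⟩ i
          refine Fin.lastCases h5 h6 i
      rw [h3, hψ]
      simp only
      by_cases h5 : toR Z L ∈ C (Fin.last n)
      · rw [if_pos (h2.2 h5), one_mul]
        by_cases h6 : ∀ i : Fin n, toR Z L ∈ C i.castSucc
        · rw [if_pos h6, if_pos (h4.2 ⟨h5, h6⟩)]
        · rw [if_neg h6, if_neg (fun h => h6 (h4.1 h).2)]
      · rw [if_neg (fun h => h5 (h2.1 h)), zero_mul, if_neg (fun h => h5 (h4.1 h).1)]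
    rw [h1]
    by_cases hx : toR Z L ∈ X
    · have hs : sg Z L = 1 := by
        unfold sg
        refine prod_eq_one (fun x _ => ?_)
        rw [if_neg]
        intro h
        rw [Bool.and_eq_true] at h
        obtain ⟨h2, h3⟩ := h
        unfold dD at h2
        rw [decide_eq_true_iff] at h2
        obtain ⟨i, hi⟩ := hX0 _ hx x
        apply hi
        revert hi
        refine Fin.lastCases (fun _ => ?_) (fun i _ => ?_) i
        · exact (toR_last Z L x).2 h3
        · exact (toR_castSucc Z L i x).2 (h2 i)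
      have hu : (∏ b ∈ (univ : Finset (Fin J)), uq π Z b) =
          if ∀ b : Fin J, cp π b (dD Z) = 1 then 1 else 0 := by
        unfold uq
        rw [Finset.prod_boole]
        simp
      have hR : toR Z L ∈ R0 n J π ↔ ∀ b : Fin J, cp π b (dD Z) = 1 := by
        unfold R0
        rw [mem_filter]
        have h5 : ∀ b : Fin J, (univ.filter fun x => π x = b ∧ ∀ i : Fin n, toR Z L i.castSucc x = 0) =
            univ.filter fun x => π x = b ∧ dD Z x = true := by
          intro b
          refine filter_congr (fun x _ => ?_)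
          unfold dD
          rw [decide_eq_true_iff]
          constructor
          · rintro ⟨h6, h7⟩
            exact ⟨h6, fun i => (toR_castSucc Z L i x).1 (h7 i)⟩
          · rintro ⟨h6, h7⟩
            exact ⟨h6, fun i => (toR_castSucc Z L i x).2 (h7 i)⟩
        constructor
        · rintro ⟨-, h6, -⟩ b
          unfold cp
          rw [← h5 b]
          exact h6 b
        · intro h6
          refine ⟨mem_univ _, fun b => ?_, hX0 _ hx⟩
          rw [h5 b]
          exact h6 b
      rw [hs, hu, if_pos hx, one_mul, mul_one]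
      by_cases h7 : ∀ b : Fin J, cp π b (dD Z) = 1
      · rw [if_pos h7, if_pos ⟨hR.2 h7, hx⟩]
      · rw [if_neg h7, if_neg (fun h => h7 (hR.1 h.1))]
    · rw [if_neg hx, zero_mul, zero_mul, if_neg (fun h => hx h.2)]
  simp only [hterm]
  -- the number
  have hsum : ∑ Z : Fin n → ρ → Bool, ∑ L : ρ → Bool,
      (if toR Z L ∈ R0 n J π ∧ toR Z L ∈ X then (1 : ℝ) else 0) =
      (((univ : Finset ((Fin n → ρ → Bool) × (ρ → Bool))).filter fun p =>
        toR p.1 p.2 ∈ R0 n J π ∧ toR p.1 p.2 ∈ X).card : ℝ) := by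
    rw [card_filter, Nat.cast_sum, Fintype.sum_prod_type]
    refine sum_congr rfl (fun Z _ => sum_congr rfl (fun L _ => ?_))
    split_ifs <;> simp
  rw [hsum]
  rw [Nat.card_eq_fintype_card, Fintype.card_subtype]
  norm_cast
  refine card_le_card_of_injOn
    (fun r => ((fun i x => decide (r i.castSucc x = 0)), (fun x => decide (r (Fin.last n) x = 0)))) ?_ ?_
  · intro r hr
    rw [mem_coe, mem_filter] at hr ⊢
    refine ⟨mem_univ _, ?_⟩
    simp only
    rw [toR_dec]
    exact hr.2
  · intro r _ r' _ h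
    rw [← toR_dec r, ← toR_dec r']
    rw [Prod.mk.injEq] at h
    rw [h.1, h.2]

end Pool.Agent.Lib.Pf91712x
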