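import Pool.Agent.Lib.Pf91712x.Fact

/-!
Sums of the products of `uq` over the sets of one or all players, from `fact`.
* `sum_uq`: `fact` with `C = Fin n → Bool` (swap the arguments of `X`): for one block with `B` rows the number of the
  assignments with exactly one row of type `true, ..., true` is `B (2 ^ n - 1) ^ (B - 1)`.
* `sum_A`: for fixed `X` the sum over `A : ρ → Bool` of the product for `Fin.cons A X` is by `fact` (`C = Bool`) the product over
  the blocks of the number of the `A` on the block with exactly one common row with `D = dD X`: `s * 2 ^ (B - s)`, `s = cp π b D`.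
-/

set_option autoImplicit false

open Finset

namespace Pool.Agent.Lib.Pf91712x

theorem dD_cons {n : ℕ} {ρ : Type} (A : ρ → Bool) (X : Fin n → ρ → Bool) (x : ρ) :
    dD (Fin.cons A X : Fin (n + 1) → ρ → Bool) x = (A x && dD X x) := by
  unfold dD
  cases h : A x <;> simp [Fin.forall_fin_succ, h]

namespace UqAux

theorem card_fib {ρ β : Type} [Fintype ρ] [DecidableEq β] (π : ρ → β) (b : β) (P : ρ → Prop)
    [DecidablePred P] :
    (univ.filter fun x : ρ => π x = b ∧ P x).card =
      (univ.filter fun x : {x // π x = b} => P x.1).card := by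
  rw [← Finset.card_map (Function.Embedding.subtype _)]
  congr 1
  ext x
  simp only [Finset.mem_filter, Finset.mem_univ, true_and, Finset.mem_map,
    Function.Embedding.coe_subtype, Subtype.exists, exists_and_right, exists_eq_right]
  constructor
  · rintro ⟨h1, h2⟩
    exact ⟨h1, h2⟩
  · rintro ⟨h1, h2⟩
    exact ⟨h1, h2⟩

theorem card_fib' {ρ β : Type} [Fintype ρ] [DecidableEq β] (π : ρ → β) (b : β) :
    Fintype.card {x // π x = b} = bz π b := by
  rw [Fintype.card_subtype]
  rfl

/-- exactly one -/
theorem one_ind {T : Type} [Fintype T] [DecidableEq T] (q : T → Prop) [DecidablePred q] :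
    (if (univ.filter fun x => q x).card = 1 then (1 : ℝ) else 0) =
      ∑ x, ∏ y, (if y = x then (if q y then (1 : ℝ) else 0) else (if q y then 0 else 1)) := by
  have h1 : ∀ x : T, (∏ y, (if y = x then (if q y then (1 : ℝ) else 0) else (if q y then 0 else 1))) =
      if (univ.filter fun x => q x) = {x} then 1 else 0 := by
    intro x
    have h2 : ∀ y : T, (if y = x then (if q y then (1 : ℝ) else 0) else (if q y then 0 else 1)) =
        if (q y ↔ y = x) then 1 else 0 := by
      intro y
      by_cases h3 : y = x
      · subst h3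
        by_cases h4 : q y <;> simp [h4]
      · by_cases h4 : q y <;> simp [h3, h4]
    rw [Finset.prod_congr rfl fun y _ => h2 y, Finset.prod_boole]
    congr 1
    apply propext
    rw [Finset.ext_iff]
    simp
  rw [Finset.sum_congr rfl fun x _ => h1 x]
  by_cases h : (univ.filter fun x => q x).card = 1
  · rw [if_pos h]
    obtain ⟨z, hz⟩ := Finset.card_eq_one.1 h
    rw [hz]
    simp [Finset.singleton_inj]
  · rw [if_neg h]
    symm
    apply Finset.sum_eq_zero
    intro x _
    rw [if_neg]
    intro h'
    exact h (by rw [h']; simp)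

theorem one_sum {T C : Type} [Fintype T] [DecidableEq T] [Fintype C] (p : T → C → Prop)
    [∀ x c, Decidable (p x c)] :
    ∑ h : T → C, (if (univ.filter fun x => p x (h x)).card = 1 then (1 : ℝ) else 0) =
      ∑ x, ∏ y, (if y = x then ((univ.filter fun c => p y c).card : ℝ)
        else ((univ.filter fun c => ¬ p y c).card : ℝ)) := by
  have h1 : ∀ h : T → C, (if (univ.filter fun x => p x (h x)).card = 1 then (1 : ℝ) else 0) =
      ∑ x, ∏ y, (if y = x then (if p y (h y) then (1 : ℝ) else 0) else (if p y (h y) then 0 else 1)) :=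
    fun h => one_ind (fun x => p x (h x))
  rw [Finset.sum_congr rfl fun h _ => h1 h, Finset.sum_comm]
  refine Finset.sum_congr rfl fun x _ => ?_
  have h2 := Finset.prod_univ_sum (fun _ : T => (univ : Finset C))
    (fun y c => (if y = x then (if p y c then (1 : ℝ) else 0) else (if p y c then 0 else 1)))
  rw [Fintype.piFinset_univ] at h2
  rw [← h2]
  refine Finset.prod_congr rfl fun y _ => ?_
  by_cases h3 : y = x
  · simp only [h3, if_true]
    rw [Finset.sum_boole]
  · simp only [h3, if_false]
    have h4 : ∀ c : C, (if p y c then (0 : ℝ) else 1) = if ¬ p y c then 1 else 0 := by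
      intro c
      by_cases h5 : p y c <;> simp [h5]
    rw [Finset.sum_congr rfl fun c _ => h4 c, Finset.sum_boole]

end UqAux

open UqAux

theorem sum_uq {ρ β : Type} [Fintype ρ] [DecidableEq ρ] [DecidableEq β] (n : ℕ) (𝓑 : Finset β)
    (π : ρ → β) (hπ : ∀ x, π x ∈ 𝓑) :
    ∑ X : Fin n → ρ → Bool, ∏ b ∈ 𝓑, uq π X b =
      ∏ b ∈ 𝓑, ((bz π b : ℝ) * (2 ^ n - 1) ^ (bz π b - 1)) := by
  classical
  have h0 : ∑ X : Fin n → ρ → Bool, ∏ b ∈ 𝓑, uq π X b =
      ∑ Y : ρ → Fin n → Bool, ∏ b ∈ 𝓑, uq π (fun i x => Y x i) b :=
    Fintype.sum_equiv (Equiv.piComm fun _ _ => Bool) _ _ fun X => rfl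
  rw [h0]
  have h1 : ∀ (Y : ρ → Fin n → Bool) (b : β), uq π (fun i x => Y x i) b =
      (fun (b : β) (h : {x // π x = b} → (Fin n → Bool)) =>
        if (univ.filter fun x => ∀ i, h x i = true).card = 1 then (1 : ℝ) else 0) b
        (fun x => Y x.1) := by
    intro Y b
    unfold uq cp
    have h2 := card_fib π b (fun x => ∀ i, Y x i = true)
    have h3 : (univ.filter fun x : ρ => π x = b ∧ dD (fun i x => Y x i) x = true) =
        (univ.filter fun x : ρ => π x = b ∧ ∀ i, Y x i = true) := by
      apply Finset.filter_congr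
      intro x _
      unfold dD
      rw [decide_eq_true_iff]
    rw [h3, h2]
  rw [Finset.sum_congr rfl fun Y _ => Finset.prod_congr rfl fun b _ => h1 Y b]
  refine (fact 𝓑 π hπ (fun (b : β) (h : {x // π x = b} → (Fin n → Bool)) =>
        if (univ.filter fun x => ∀ i, h x i = true).card = 1 then (1 : ℝ) else 0)).trans ?_
  refine Finset.prod_congr rfl fun b _ => ?_
  rw [one_sum (fun (_ : {x // π x = b}) (c : Fin n → Bool) => ∀ i, c i = true)]
  have h4 : ((univ.filter fun c : Fin n → Bool => ∀ i, c i = true).card : ℝ) = 1 := by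
    have : (univ.filter fun c : Fin n → Bool => ∀ i, c i = true) = {fun _ => true} := by
      ext c
      simp [funext_iff]
    rw [this]
    simp
  have h5 : ((univ.filter fun c : Fin n → Bool => ¬ ∀ i, c i = true).card : ℝ) = 2 ^ n - 1 := by
    have h6 := Finset.card_filter_add_card_filter_not (s := (univ : Finset (Fin n → Bool)))
      (fun c : Fin n → Bool => ∀ i, c i = true)
    have h7 : (univ : Finset (Fin n → Bool)).card = 2 ^ n := by simp
    rw [h7] at h6
    have h8 : ((univ.filter fun c : Fin n → Bool => ∀ i, c i = true).card : ℝ) +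
        ((univ.filter fun c : Fin n → Bool => ¬ ∀ i, c i = true).card : ℝ) = 2 ^ n := by
      exact_mod_cast h6
    rw [h4] at h8
    linarith
  rw [h4, h5]
  have h9 : ∀ x : {x // π x = b}, (∏ y, (if y = x then (1 : ℝ) else (2 ^ n - 1))) =
      (2 ^ n - 1) ^ (bz π b - 1) := by
    intro x
    rw [← Finset.mul_prod_erase univ _ (Finset.mem_univ x), if_pos rfl, one_mul]
    have h10 : ∀ y ∈ univ.erase x, (if y = x then (1 : ℝ) else (2 ^ n - 1)) = 2 ^ n - 1 := by
      intro y hy
      rw [if_neg (Finset.ne_of_mem_erase hy)]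
    rw [Finset.prod_congr rfl h10, Finset.prod_const, Finset.card_erase_of_mem (Finset.mem_univ x),
      Finset.card_univ, card_fib']
  rw [Finset.sum_congr rfl fun x _ => h9 x, Finset.sum_const, Finset.card_univ, card_fib',
    nsmul_eq_mul]

theorem sum_A {ρ β : Type} [Fintype ρ] [DecidableEq ρ] [DecidableEq β] (n : ℕ) (𝓑 : Finset β)
    (π : ρ → β) (hπ : ∀ x, π x ∈ 𝓑) (X : Fin n → ρ → Bool) :
    ∑ A : ρ → Bool, ∏ b ∈ 𝓑, uq π (Fin.cons A X : Fin (n + 1) → ρ → Bool) b =
      ∏ b ∈ 𝓑, ((cp π b (dD X) : ℝ) * 2 ^ bz π b / 2 ^ cp π b (dD X)) := by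
  classical
  have h1 : ∀ (A : ρ → Bool) (b : β), uq π (Fin.cons A X : Fin (n + 1) → ρ → Bool) b =
      (fun (b : β) (h : {x // π x = b} → Bool) =>
        if (univ.filter fun x => h x = true ∧ dD X x.1 = true).card = 1 then (1 : ℝ) else 0) b
        (fun x => A x.1) := by
    intro A b
    unfold uq cp
    have h2 := card_fib π b (fun x => A x = true ∧ dD X x = true)
    have h3 : (univ.filter fun x : ρ => π x = b ∧
        dD (Fin.cons A X : Fin (n + 1) → ρ → Bool) x = true) =
        (univ.filter fun x : ρ => π x = b ∧ (A x = true ∧ dD X x = true)) := by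
      apply Finset.filter_congr
      intro x _
      rw [dD_cons, Bool.and_eq_true]
    rw [h3, h2]
  rw [Finset.sum_congr rfl fun A _ => Finset.prod_congr rfl fun b _ => h1 A b]
  refine (fact 𝓑 π hπ (fun (b : β) (h : {x // π x = b} → Bool) =>
        if (univ.filter fun x => h x = true ∧ dD X x.1 = true).card = 1 then (1 : ℝ) else 0)).trans ?_
  refine Finset.prod_congr rfl fun b _ => ?_
  rw [one_sum (fun (x : {x // π x = b}) (c : Bool) => c = true ∧ dD X x.1 = true)]
  have h4 : ∀ x : {x // π x = b}, ((univ.filter fun c : Bool => c = true ∧ dD X x.1 = true).card : ℝ) =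
      if dD X x.1 = true then 1 else 0 := by
    intro x
    cases h : dD X x.1
    · simp
    · have : (univ.filter fun c : Bool => c = true ∧ true = true) = {true} := by
        ext c
        simp
      rw [this]
      simp
  have h5 : ∀ x : {x // π x = b},
      ((univ.filter fun c : Bool => ¬ (c = true ∧ dD X x.1 = true)).card : ℝ) =
      if dD X x.1 = true then 1 else 2 := by
    intro x
    cases h : dD X x.1
    · have : (univ.filter fun c : Bool => ¬ (c = true ∧ false = true)) = univ := by
        ext c
        simp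
      rw [this]
      simp
    · have : (univ.filter fun c : Bool => ¬ (c = true ∧ true = true)) = {false} := by
        ext c
        simp
      rw [this]
      simp
  have hcp : (univ.filter fun x : {x // π x = b} => dD X x.1 = true).card = cp π b (dD X) := by
    unfold cp
    rw [card_fib π b (fun x => dD X x = true)]
  have hle : cp π b (dD X) ≤ bz π b := by
    rw [← hcp, ← card_fib']
    exact Finset.card_le_univ _
  have h6 : ∀ x : {x // π x = b}, (∏ y : {x // π x = b}, (if y = x
        then ((univ.filter fun c : Bool => c = true ∧ dD X y.1 = true).card : ℝ)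
        else ((univ.filter fun c : Bool => ¬ (c = true ∧ dD X y.1 = true)).card : ℝ))) =
      if dD X x.1 = true then (2 : ℝ) ^ bz π b / 2 ^ cp π b (dD X) else 0 := by
    intro x
    simp only [h4, h5]
    by_cases hx : dD X x.1 = true
    · rw [if_pos hx]
      have h7 : ∀ y ∈ (univ : Finset {x // π x = b}), (if y = x
          then (if dD X y.1 = true then (1 : ℝ) else 0) else (if dD X y.1 = true then 1 else 2)) =
          (if dD X y.1 = true then 1 else 2) := by
        intro y _
        by_cases hy : y = x
        · rw [if_pos hy, hy, if_pos hx, if_pos hx]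
        · rw [if_neg hy]
      rw [Finset.prod_congr rfl h7, Finset.prod_ite, Finset.prod_const_one, one_mul,
        Finset.prod_const]
      have h8 := Finset.card_filter_add_card_filter_not (s := (univ : Finset {x // π x = b}))
        (fun x => dD X x.1 = true)
      rw [hcp, Finset.card_univ, card_fib'] at h8
      rw [eq_div_iff (by positivity), ← pow_add]
      congr 1
      omega
    · rw [if_neg hx]
      apply Finset.prod_eq_zero (Finset.mem_univ x)
      rw [if_pos rfl, if_neg hx]
  rw [Finset.sum_congr rfl fun x _ => h6 x, ← Finset.sum_filter, Finset.sum_const, hcp, nsmul_eq_mul,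
    mul_div_assoc]

end Pool.Agent.Lib.Pf91712x
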