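import Pool.Agent.Lib.Pf91712x.CylDefs
import Pool.Agent.Lib.Pf91712x.Uq

/-!
the size of `R0`. PROOF. The number of the first `n` sets with exactly one common row in each block is
`∏_b B (2 ^ n - 1) ^ (B - 1)` (`sum_uq` with `𝓑 = univ`, `X i x = decide (r i.castSucc x = 0)`), and for given first `n` sets there are
`2 ^ (J * B - J)` sets of the last player which avoid the `J` common rows.
-/

set_option autoImplicit false

open Finset

namespace Pool.Agent.Lib.Pf91712x

namespace Cyl2Aux

/-- the first sets have exactly one common row in each block -/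
def PP {ρ : Type} [Fintype ρ] [DecidableEq ρ] {n J : ℕ} (π : ρ → Fin J) (X : Fin n → ρ → Bool) : Prop :=
  ∀ b, cp π b (dD X) = 1

instance {ρ : Type} [Fintype ρ] [DecidableEq ρ] {n J : ℕ} (π : ρ → Fin J) (X : Fin n → ρ → Bool) :
    Decidable (PP π X) := by unfold PP; infer_instance

theorem count_L {ρ : Type} [Fintype ρ] [DecidableEq ρ] (D : ρ → Bool) :
    ((univ : Finset (ρ → Bool)).filter fun L => ∀ x, ¬ (D x = true ∧ L x = true)).card =
      2 ^ (Fintype.card ρ - (univ.filter fun x => D x = true).card) := by
  have h : ((univ : Finset (ρ → Bool)).filter fun L => ∀ x, ¬ (D x = true ∧ L x = true)) =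
      Fintype.piFinset (fun x => if D x = true then ({false} : Finset Bool) else univ) := by
    ext L
    rw [mem_filter, Fintype.mem_piFinset]
    constructor
    · rintro ⟨_, h1⟩ x
      by_cases h2 : D x = true
      · rw [if_pos h2, mem_singleton]
        have := h1 x
        cases h3 : L x
        · rfl
        · exact absurd ⟨h2, h3⟩ this
      · rw [if_neg h2]
        exact mem_univ _
    · intro h1
      refine ⟨mem_univ _, ?_⟩
      rintro x ⟨h2, h3⟩
      have := h1 x
      rw [if_pos h2, mem_singleton] at this
      rw [this] at h3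
      exact Bool.noConfusion h3
  rw [h, Fintype.card_piFinset]
  have h4 : ∀ x, (if D x = true then ({false} : Finset Bool) else univ).card =
      if D x = true then 1 else 2 := by
    intro x
    split_ifs
    · exact card_singleton _
    · rw [card_univ, Fintype.card_bool]
  rw [prod_congr rfl (fun x _ => h4 x), prod_ite, prod_const_one, one_mul, prod_const]
  congr 1
  have h5 := card_filter_add_card_filter_not (s := (univ : Finset ρ)) (fun x => D x = true)
  rw [card_univ] at h5
  omega

theorem card_D {ρ : Type} [Fintype ρ] [DecidableEq ρ] {n J : ℕ} (π : ρ → Fin J) (X : Fin n → ρ → Bool)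
    (h : PP π X) : (univ.filter fun x => dD X x = true).card = J := by
  have h1 := card_eq_sum_card_fiberwise (f := π) (s := univ.filter fun x => dD X x = true)
    (t := (univ : Finset (Fin J))) (fun x _ => mem_coe.2 (mem_univ _))
  rw [h1]
  have h2 : ∀ b ∈ (univ : Finset (Fin J)),
      ((univ.filter fun x => dD X x = true).filter fun x => π x = b).card = 1 := by
    intro b _
    have h3 := h b
    unfold cp at h3
    rw [filter_filter]
    rw [← h3]
    congr 1
    ext x
    simp only [mem_filter, mem_univ, true_and]
    exact and_comm
  rw [sum_congr rfl h2]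
  simp

theorem card_rho {ρ : Type} [Fintype ρ] [DecidableEq ρ] {J B : ℕ} (π : ρ → Fin J)
    (hπ : ∀ b, bz π b = B) : Fintype.card ρ = J * B := by
  have h1 := card_eq_sum_card_fiberwise (f := π) (s := (univ : Finset ρ))
    (t := (univ : Finset (Fin J))) (fun x _ => mem_coe.2 (mem_univ _))
  rw [← card_univ, h1]
  have h2 : ∀ b ∈ (univ : Finset (Fin J)), ((univ : Finset ρ).filter fun x => π x = b).card = B :=
    fun b _ => hπ b
  rw [sum_congr rfl h2]
  simp

theorem card_P {ρ : Type} [Fintype ρ] [DecidableEq ρ] (n J B : ℕ) (π : ρ → Fin J)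
    (hπ : ∀ b, bz π b = B) :
    ((univ : Finset (Fin n → ρ → Bool)).filter fun X => PP π X).card =
      (B * (2 ^ n - 1) ^ (B - 1)) ^ J := by
  have h := sum_uq n (univ : Finset (Fin J)) π (fun x => mem_univ _)
  have h1 : ∀ X : Fin n → ρ → Bool, ∏ b, uq π X b = if PP π X then (1 : ℝ) else 0 := by
    intro X
    unfold uq
    rw [prod_boole]
    unfold PP
    simp
  rw [sum_congr rfl (fun X _ => h1 X), sum_boole] at h
  simp only [hπ, prod_const, card_univ, Fintype.card_fin] at h
  have h2 : ((2 : ℝ) ^ n - 1) = ((2 ^ n - 1 : ℕ) : ℝ) := by
    rw [Nat.cast_sub Nat.one_le_two_pow]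
    push_cast
    ring
  rw [h2] at h
  exact_mod_cast h

end Cyl2Aux

open Cyl2Aux

theorem cyl2 {ρ : Type} [Fintype ρ] [DecidableEq ρ] (n J B : ℕ) (π : ρ → Fin J)
    (hπ : ∀ b, bz π b = B) :
    (R0 n J π).card = (B * (2 ^ n - 1) ^ (B - 1)) ^ J * 2 ^ (J * (B - 1)) := by
  classical
  have hS : (R0 n J π).card = ((univ : Finset ((Fin n → ρ → Bool) × (ρ → Bool))).filter
      fun p => PP π p.1 ∧ ∀ x, ¬ (dD p.1 x = true ∧ p.2 x = true)).card := by
    refine card_bij' (fun r _ => (fun i x => decide (r i.castSucc x = 0),
        fun x => decide (r (Fin.last n) x = 0)))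
      (fun p _ => Fin.snoc (α := fun _ => ρ → Fin (1 + 1)) (fun i x => if p.1 i x = true then 0 else 1)
        (fun x => if p.2 x = true then 0 else 1)) ?_ ?_ ?_ ?_
    · intro r hr
      unfold R0 at hr
      rw [mem_filter] at hr
      rw [mem_filter]
      refine ⟨mem_univ _, ?_, ?_⟩
      · intro b
        unfold cp dD
        refine Eq.trans ?_ (hr.2.1 b)
        congr 1
        ext x
        simp
      · intro x
        obtain ⟨i, hi⟩ := hr.2.2 x
        unfold dD
        simp only [decide_eq_true_eq]
        rintro ⟨h1, h2⟩
        induction i using Fin.lastCases with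
        | last => exact hi h2
        | cast i => exact hi (h1 i)
    · intro p hp
      rw [mem_filter] at hp
      unfold R0
      rw [mem_filter]
      refine ⟨mem_univ _, ?_, ?_⟩
      · intro b
        have h1 := hp.2.1 b
        unfold cp dD at h1
        refine Eq.trans ?_ h1
        congr 1
        ext x
        simp [Fin.snoc_castSucc]
      · intro x
        have h1 := hp.2.2 x
        unfold dD at h1
        simp only [decide_eq_true_eq] at h1
        by_contra h2
        push Not at h2
        apply h1
        constructor
        · intro i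
          have h3 := h2 i.castSucc
          rw [Fin.snoc_castSucc] at h3
          by_contra h4
          rw [if_neg h4] at h3
          exact absurd h3 (by decide)
        · have h3 := h2 (Fin.last n)
          rw [Fin.snoc_last] at h3
          by_contra h4
          rw [if_neg h4] at h3
          exact absurd h3 (by decide)
    · intro r _
      funext i x
      have hv : ∀ v : Fin (1 + 1), (if decide (v = 0) = true then (0 : Fin (1 + 1)) else 1) = v := by
        decide
      induction i using Fin.lastCases with
      | last => simp only [Fin.snoc_last]; exact hv _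
      | cast i => simp only [Fin.snoc_castSucc]; exact hv _
    · intro p _
      have hv : ∀ v : Bool, decide ((if v = true then (0 : Fin (1 + 1)) else 1) = 0) = v := by
        decide
      refine Prod.ext ?_ ?_
      · funext i x
        simp only [Fin.snoc_castSucc]
        exact hv _
      · funext x
        simp only [Fin.snoc_last]
        exact hv _
  have hT : ((univ : Finset ((Fin n → ρ → Bool) × (ρ → Bool))).filter
      fun p => PP π p.1 ∧ ∀ x, ¬ (dD p.1 x = true ∧ p.2 x = true)).card =
      ∑ X : Fin n → ρ → Bool, if PP π X then 2 ^ (J * (B - 1)) else 0 := by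
    rw [card_filter, Fintype.sum_prod_type]
    refine sum_congr rfl fun X _ => ?_
    by_cases hX : PP π X
    · rw [if_pos hX]
      have h1 := count_L (dD X)
      rw [card_D π X hX, card_rho π hπ, card_filter] at h1
      rw [Nat.mul_sub_one, ← h1]
      refine sum_congr rfl fun L _ => ?_
      simp only [hX, true_and]
    · rw [if_neg hX]
      refine sum_eq_zero fun L _ => ?_
      rw [if_neg]
      exact fun h => hX h.1
  rw [hS, hT, ← sum_filter, sum_const, smul_eq_mul, card_P n J B π hπ]

end Pool.Agent.Lib.Pf91712x
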