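import Pool.Agent.Lib.Pf91712x.Cyl1
import Pool.Agent.Lib.Pf91712x.Cyl2

/-!
PROOF. `B = 4 ^ (n + 2)`, `√B = 2 ^ (n + 2)`, `a = 2 ^ n - 1`, and
`card R0 = (B a ^ (B - 1) 2 ^ (B - 1)) ^ J = ((2 a) ^ B √B) ^ J * (√B / (2 a)) ^ J ≥ 2 ^ J * ((2 a) ^ B √B) ^ J` as `√B / (2 a) ≥ 2`
(`a ≥ 1` because `1 ≤ n`); avoid the division: `2 * (2 a) * √B ≤ B`.
-/

set_option autoImplicit false

open Finset

namespace Pool.Agent.Lib.Pf91712x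

open Pool.Agent.Lib.Pf91712 (CI)

theorem cyl {ρ : Type} [Fintype ρ] [DecidableEq ρ] (n J : ℕ) (hn : 1 ≤ n) (π : ρ → Fin J)
    (hπ : ∀ b, bz π b = 4 ^ (n + 2)) (X : Set (Fin (n + 1) → ρ → Fin (1 + 1))) (hX : CI X)
    (hX0 : ∀ r ∈ X, ∀ x, ∃ i, r i x ≠ 0) :
    2 ^ J * Nat.card {r // r ∈ R0 n J π ∧ r ∈ X} ≤ (R0 n J π).card := by
  have _ := hn
  have h1 := cyl1 n J (4 ^ (n + 2)) π hπ X hX hX0
  have h2 := cyl2 n J (4 ^ (n + 2)) π hπ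
  have hs : √((4 ^ (n + 2) : ℕ) : ℝ) = 2 ^ (n + 2) := by
    have e : ((4 ^ (n + 2) : ℕ) : ℝ) = (2 ^ (n + 2)) ^ 2 := by
      push_cast
      rw [← pow_mul, mul_comm, pow_mul]
      norm_num
    rw [e]
    exact Real.sqrt_sq (by positivity)
  rw [hs] at h1
  have hBr : ((4 ^ (n + 2) : ℕ) : ℝ) = 2 ^ (n + 2) * 2 ^ (n + 2) := by
    push_cast
    rw [← mul_pow]
    norm_num
  have hB1 : 1 ≤ 4 ^ (n + 2) := Nat.one_le_pow _ _ (by norm_num)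
  generalize 4 ^ (n + 2) = B at *
  obtain ⟨C, rfl⟩ : ∃ C, B = C + 1 := ⟨B - 1, by omega⟩
  have ha0 : (0 : ℝ) ≤ 2 ^ n - 1 := by
    have : (1 : ℝ) ≤ 2 ^ n := one_le_pow₀ (by norm_num)
    linarith
  have ha1 : (2 : ℝ) ^ n - 1 ≤ 2 ^ n := by linarith
  have hc : ((R0 n J π).card : ℝ) =
      (((C + 1 : ℕ) : ℝ) * (2 * (2 ^ n - 1)) ^ C) ^ J := by
    have h3 : ((2 ^ n - 1 : ℕ) : ℝ) = 2 ^ n - 1 := by
      rw [Nat.cast_sub (Nat.one_le_two_pow)]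
      push_cast
      ring
    rw [h2, Nat.add_sub_cancel]
    rw [Nat.cast_mul, Nat.cast_pow, Nat.cast_mul, Nat.cast_pow, h3, Nat.cast_pow, Nat.cast_ofNat,
      mul_comm J C, pow_mul, ← mul_pow]
    congr 1
    rw [mul_pow]
    ring
  have key : 2 * ((2 * ((2 : ℝ) ^ n - 1)) ^ (C + 1) * 2 ^ (n + 2)) ≤
      ((C + 1 : ℕ) : ℝ) * (2 * (2 ^ n - 1)) ^ C := by
    rw [hBr, pow_succ]
    have h4 : 0 ≤ (2 * ((2 : ℝ) ^ n - 1)) ^ C := by positivity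
    have h5 : 2 * (2 * ((2 : ℝ) ^ n - 1)) ≤ 2 ^ (n + 2) := by
      rw [pow_add]
      linarith
    calc 2 * ((2 * ((2 : ℝ) ^ n - 1)) ^ C * (2 * (2 ^ n - 1)) * 2 ^ (n + 2))
        = (2 * (2 * ((2 : ℝ) ^ n - 1))) * (2 ^ (n + 2) * (2 * (2 ^ n - 1)) ^ C) := by ring
      _ ≤ 2 ^ (n + 2) * (2 ^ (n + 2) * (2 * (2 ^ n - 1)) ^ C) :=
          mul_le_mul_of_nonneg_right h5 (by positivity)
      _ = 2 ^ (n + 2) * 2 ^ (n + 2) * (2 * (2 ^ n - 1)) ^ C := by ring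
  have hfin : (2 : ℝ) ^ J * (Nat.card {r // r ∈ R0 n J π ∧ r ∈ X} : ℝ) ≤ ((R0 n J π).card : ℝ) := by
    calc (2 : ℝ) ^ J * (Nat.card {r // r ∈ R0 n J π ∧ r ∈ X} : ℝ)
        ≤ 2 ^ J * ((2 * (2 ^ n - 1)) ^ (J * (C + 1)) * (2 ^ (n + 2)) ^ J) :=
          mul_le_mul_of_nonneg_left h1 (by positivity)
      _ = (2 * ((2 * ((2 : ℝ) ^ n - 1)) ^ (C + 1) * 2 ^ (n + 2))) ^ J := by
          rw [mul_comm J (C + 1), pow_mul, ← mul_pow, ← mul_pow]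
      _ ≤ (((C + 1 : ℕ) : ℝ) * (2 * (2 ^ n - 1)) ^ C) ^ J := by
          apply pow_le_pow_left₀ _ key
          positivity
      _ = ((R0 n J π).card : ℝ) := hc.symm
  exact_mod_cast hfin

theorem R0_pos {ρ : Type} [Fintype ρ] [DecidableEq ρ] (n J : ℕ) (hn : 1 ≤ n) (π : ρ → Fin J)
    (hπ : ∀ b, bz π b = 4 ^ (n + 2)) : 0 < (R0 n J π).card := by
  rw [cyl2 n J (4 ^ (n + 2)) π hπ]
  have ha : 0 < 2 ^ n - 1 := by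
    have : 2 ^ 1 ≤ 2 ^ n := Nat.pow_le_pow_right (by norm_num) hn
    omega
  positivity

end Pool.Agent.Lib.Pf91712x
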