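import Pool.Agent.Lib.Pf91712x.Defs

/-!
Inputs in `R0`: exactly one row in each block is in the sets of the first `n` players, and no row is in all sets. The row
`x` is in the set of player `i` iff `r i x = 0`.
-/

set_option autoImplicit false

open Finset

namespace Pool.Agent.Lib.Pf91712x

/-- the inputs with exactly one common row of the first `n` players in each block, and no common row of all players -/
def R0 {ρ : Type} [Fintype ρ] [DecidableEq ρ] (n J : ℕ) (π : ρ → Fin J) :
    Finset (Fin (n + 1) → ρ → Fin (1 + 1)) :=
  univ.filter fun r => (∀ b, (univ.filter fun x => π x = b ∧ ∀ i : Fin n, r i.castSucc x = 0).card = 1) ∧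
    ∀ x, ∃ i, r i x ≠ 0

end Pool.Agent.Lib.Pf91712x
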