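import Mathlib
import Pool.Agent.Lib.Pf91712.CDefs

/-!
# The Rao-Yehudayoff bound: definitions

Rows `x : ρ`, blocks `b ∈ 𝓑` (the row `x` is in the block `π x`), players `i : Fin n` with sets
`X i : ρ → Bool`, and a last player with the set `L : ρ → Bool`.
-/

set_option autoImplicit false

open Finset

namespace Pool.Agent.Lib.Pf91712x

/-- the row `x` is in all sets `X i` -/
def dD {n : ℕ} {ρ : Type} (X : Fin n → ρ → Bool) (x : ρ) : Bool := decide (∀ i, X i x = true)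

/-- the number of the rows of the block `b` with `P` -/
def cp {ρ β : Type} [Fintype ρ] [DecidableEq β] (π : ρ → β) (b : β) (P : ρ → Bool) : ℕ :=
  (univ.filter fun x => π x = b ∧ P x = true).card

/-- the size of the block `b` -/
def bz {ρ β : Type} [Fintype ρ] [DecidableEq β] (π : ρ → β) (b : β) : ℕ :=
  (univ.filter fun x => π x = b).card

/-- exactly one row of the block `b` is in all sets -/
noncomputable def uq {n : ℕ} {ρ β : Type} [Fintype ρ] [DecidableEq β] (π : ρ → β)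
    (X : Fin n → ρ → Bool) (b : β) : ℝ := if cp π b (dD X) = 1 then 1 else 0

/-- `(-1)` to the number of the rows which are in all sets and in `L` -/
noncomputable def sg {n : ℕ} {ρ : Type} [Fintype ρ] (X : Fin n → ρ → Bool) (L : ρ → Bool) : ℝ :=
  ∏ x, if (dD X x && L x) = true then (-1 : ℝ) else 1

/-- the same with the rows with `V` only -/
noncomputable def sgV {n : ℕ} {ρ : Type} [Fintype ρ] (V : ρ → Bool) (X : Fin n → ρ → Bool)
    (L : ρ → Bool) : ℝ :=
  ∏ x, if (V x && (dD X x && L x)) = true then (-1 : ℝ) else 1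

/-- the weight `1 / (s * 2 ^ (B - s))`, and `0` for `s = 0` -/
noncomputable def wt (B s : ℕ) : ℝ := 2 ^ s / (s * 2 ^ B)

/-- the bound for one block, as a function of the sets `A`, `A'` and of the set `D` of the rows in all
other sets -/
noncomputable def kk {ρ β : Type} [Fintype ρ] [DecidableEq β] (m : ℕ) (π : ρ → β)
    (A A' D : ρ → Bool) (b : β) : ℝ :=
  wt (bz π b) (cp π b D) *
    ((if cp π b (fun x => D x && (A x && A' x)) = 1 ∧ cp π b (fun x => D x && xor (A x) (A' x)) = 0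
        then 1 else 0) +
      (if cp π b (fun x => D x && (A x && A' x)) = 0 ∧ cp π b (fun x => D x && (A x && !(A' x))) = 1 ∧
          cp π b (fun x => D x && (!(A x) && A' x)) = 1 then 1 else 0) *
        ((2 ^ m - 1) / √(cp π b (fun x => A x && !(A' x)) : ℝ) *
          ((2 ^ m - 1) / √(cp π b (fun x => !(A x) && A' x) : ℝ))))

/-- the bound for `n + 1` players: `n` players with exactly one common row in each block and a last
player -/
def Bnd (n : ℕ) : Prop :=
  ∀ (ρ β : Type) [Fintype ρ] [DecidableEq ρ] [DecidableEq β] (𝓑 : Finset β) (π : ρ → β),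
    (∀ x, π x ∈ 𝓑) →
  ∀ (ψ : (Fin n → ρ → Bool) → ℝ) (φ : Fin n → (Fin n → ρ → Bool) → (ρ → Bool) → ℝ),
    (∀ X, |ψ X| ≤ 1) → (∀ i X L, |φ i X L| ≤ 1) →
    (∀ i X Y L, (∀ j, j ≠ i → X j = Y j) → φ i X L = φ i Y L) →
    |∑ X : Fin n → ρ → Bool, ∑ L : ρ → Bool,
        ψ X * (∏ i, φ i X L) * (∏ b ∈ 𝓑, uq π X b) * sg X L| ≤
      (2 * (2 ^ n - 1)) ^ Fintype.card ρ * ∏ b ∈ 𝓑, √(bz π b : ℝ)

/-- `Bnd` with rows outside of the blocks and a weight `g` which only depends on these rows -/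
def BndG (n : ℕ) : Prop :=
  ∀ (ρ β : Type) [Fintype ρ] [DecidableEq ρ] [DecidableEq β] (𝓑 : Finset β) (π : ρ → Option β),
    (∀ x b, π x = some b → b ∈ 𝓑) →
  ∀ (g : (Fin n → ρ → Bool) → ℝ), (∀ X, 0 ≤ g X) →
    (∀ X Y, (∀ x, π x = none → ∀ i, X i x = Y i x) → g X = g Y) →
  ∀ (ψ : (Fin n → ρ → Bool) → ℝ) (φ : Fin n → (Fin n → ρ → Bool) → (ρ → Bool) → ℝ),
    (∀ X, |ψ X| ≤ 1) → (∀ i X L, |φ i X L| ≤ 1) →
    (∀ i X Y L, (∀ j, j ≠ i → X j = Y j) → φ i X L = φ i Y L) →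
    |∑ X : Fin n → ρ → Bool, ∑ L : ρ → Bool,
        ψ X * (∏ i, φ i X L) * g X * (∏ b ∈ 𝓑, uq π X (some b)) *
          sgV (fun x => (π x).isSome) X L| ≤
      2 ^ Fintype.card ρ * (∑ X : Fin n → ρ → Bool, g X * ∏ b ∈ 𝓑, uq π X (some b)) *
        ∏ b ∈ 𝓑, ((2 ^ n - 1) / √(bz π (some b) : ℝ))

end Pool.Agent.Lib.Pf91712x
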