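import Pool.Agent.Lib.Pf91712g.Num

/-!
the numerical conditions with `o(m²)` guess bits. Models: Pf91712g/Num.lean (`small_sup`, `q2`, `q3`, `asym2`).

`small_supX`: the maximum of `L` on `[0, b m]` is `o(m²)` (for `j ≤ j0` use the constant `sup`, for `j > j0` use `C b² L j ≤ j² ≤ b² m²`).

`asymX`: `τ = c3 + 1 + W m / m`; for large `m`: `16 * (W m / m) ≤ m` (from `16 W m ≤ m²`), so `16 * τ ≤ m + 16 (c3 + 1)`. Conditions:
(1) `AsymAux.p1`; (2) `q2`; (3) `2 * ((2 ^ (k m) (τ + 2) 2 ^ (k m - (τ + 2)) + 1) ^ ((t + 1) (τ + 1)) * ((w + 1) ^ (2 ^ (τ + 2))) ^ t)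
≤ 2 ^ (1 + (2 k m + 1) (2 ^ (c3 m) + 1) (τ + 1) + (W m + 1) 2 ^ (τ + 2) 2 ^ (c3 m))` and the exponent is
`≤ (1 + (2 k m + 1) 2 (τ + 1) + (W m + 1) 2 ^ (τ + 2)) 2 ^ (c3 m) < 2 ^ m 2 ^ (c3 m) / 2 ^ (2 (τ + 3)) ≤ 2 ^ (k m - 2 (τ + 3))`, because
`2 ^ (3 τ + 8) * polynomial (m) < 2 ^ m` for large `m`.
-/

set_option autoImplicit false

namespace Pool.Agent.Lib.Pf91712x

open Pool.Agent.Lib.Pf91712

/-- `L m = o(m²)` -/
def SmallX (L : ℕ → ℕ) : Prop := ∀ C : ℕ, ∃ m0 : ℕ, ∀ m, m0 ≤ m → C * L m ≤ m ^ 2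

theorem small_supX (L : ℕ → ℕ) (hL : SmallX L) (H b : ℕ) (hb : 1 ≤ b) :
    SmallX (fun m => H * (Finset.range (b * m + 1)).sup L) := by
  intro C
  obtain ⟨j0, hj0⟩ := hL (C * H * b ^ 2)
  refine ⟨C * H * (Finset.range j0).sup L + 1, fun m hm => ?_⟩
  have hmpos : 1 ≤ m := by omega
  have key : ∀ j, j ≤ b * m → C * H * L j ≤ m ^ 2 := by
    intro j hj
    by_cases hjj : j < j0
    · have h2 : L j ≤ (Finset.range j0).sup L := Finset.le_sup (Finset.mem_range.2 hjj)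
      have h3 : C * H * L j ≤ C * H * (Finset.range j0).sup L := Nat.mul_le_mul_left _ h2
      have h4 : m ≤ m ^ 2 := by nlinarith
      omega
    · push Not at hjj
      have h3 := hj0 j hjj
      have h8 : b ^ 2 * (C * H * L j) ≤ b ^ 2 * m ^ 2 := by
        calc b ^ 2 * (C * H * L j) = C * H * b ^ 2 * L j := by ring
          _ ≤ j ^ 2 := h3
          _ ≤ (b * m) ^ 2 := Nat.pow_le_pow_left hj 2
          _ = b ^ 2 * m ^ 2 := by ring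
      exact Nat.le_of_mul_le_mul_left h8 (by positivity)
  have hne : (Finset.range (b * m + 1)).Nonempty := ⟨0, Finset.mem_range.2 (by omega)⟩
  obtain ⟨j, hj, hj2⟩ := Finset.exists_mem_eq_sup (Finset.range (b * m + 1)) hne L
  have h9 := key j (by rw [Finset.mem_range] at hj; omega)
  show C * (H * (Finset.range (b * m + 1)).sup L) ≤ m ^ 2
  rw [hj2]
  calc _ = C * H * L j := by ring
    _ ≤ _ := h9

namespace NumXAux

/-- the main number -/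
theorem q3X (k c3 : ℕ) (W : ℕ → ℕ) (hW : SmallX W) : ∃ m0 : ℕ, ∀ m, m0 ≤ m →
    (1 + (2 * k * m + 1) * (2 * ((c3 + 1 + W m / m) + 1)) +
      (W m + 1) * 2 ^ ((c3 + 1 + W m / m) + 2)) * 2 ^ (2 * ((c3 + 1 + W m / m) + 3)) < 2 ^ m ∧
      (c3 + 1 + W m / m) + 4 ≤ m := by
  obtain ⟨j0, hj0⟩ := hW 16
  obtain ⟨j1, hj1⟩ := Pf91712g.log_small 32 (48 * (c3 + 1) + 16 * 13 + 32 * k)
  refine ⟨max (max j0 j1) 16, fun m hm => ?_⟩
  have hm0 : j0 ≤ m := (le_max_left _ _).trans ((le_max_left _ _).trans hm)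
  have hm1 : j1 ≤ m := (le_max_right _ _).trans ((le_max_left _ _).trans hm)
  have hm2 : 16 ≤ m := (le_max_right _ _).trans hm
  have h0 := hj0 m hm0
  have h1 := hj1 m hm1
  obtain ⟨a, ha⟩ : ∃ a, a = Nat.log 2 m := ⟨_, rfl⟩
  rw [← ha] at h1
  obtain ⟨q, hq⟩ : ∃ q, q = W m / m := ⟨_, rfl⟩
  rw [← hq]
  have hq1 : q * m ≤ W m := hq ▸ Nat.div_mul_le_self _ _
  have h3 : 16 * q ≤ m := by
    have h4 : m * (16 * q) ≤ m * m := by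
      calc m * (16 * q) = 16 * (q * m) := by ring
        _ ≤ 16 * W m := by gcongr
        _ ≤ m ^ 2 := h0
        _ = m * m := by ring
    exact Nat.le_of_mul_le_mul_left h4 (by omega)
  have h5 : c3 + 1 + q + 4 ≤ m := by omega
  refine ⟨?_, h5⟩
  have hma : m < 2 ^ (a + 1) := ha ▸ Nat.lt_pow_succ_log_self (by norm_num) m
  obtain ⟨τ, hτ⟩ : ∃ τ, τ = c3 + 1 + q := ⟨_, rfl⟩
  rw [← hτ]
  have hWm : W m + 1 ≤ m ^ 2 := by
    by_cases hz : W m = 0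
    · rw [hz]; nlinarith
    · have := Nat.pos_of_ne_zero hz
      omega
  have e1 : 1 + (2 * k * m + 1) * (2 * (τ + 1)) + (W m + 1) * 2 ^ (τ + 2) ≤
      2 ^ (τ + 2) * ((2 * k + 3) * m ^ 2) := by
    have f1 : 2 * (τ + 1) ≤ 2 ^ (τ + 2) := by
      rw [pow_succ 2 (τ + 1)]
      have : τ + 1 < 2 ^ (τ + 1) := Nat.lt_two_pow_self
      omega
    have f2 : 1 ≤ 2 ^ (τ + 2) := Nat.one_le_two_pow
    have f3 : m ≤ m ^ 2 := by nlinarith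
    calc 1 + (2 * k * m + 1) * (2 * (τ + 1)) + (W m + 1) * 2 ^ (τ + 2)
        ≤ 2 ^ (τ + 2) * 1 + (2 * k * m ^ 2 + 1) * 2 ^ (τ + 2) + m ^ 2 * 2 ^ (τ + 2) := by
          gcongr
          omega
      _ = 2 ^ (τ + 2) * (2 * k * m ^ 2 + 2 + m ^ 2) := by ring
      _ ≤ 2 ^ (τ + 2) * ((2 * k + 3) * m ^ 2) := by
          apply Nat.mul_le_mul_left
          nlinarith
  have e3 : 2 * k + 3 < 2 ^ (2 * k + 3) := Nat.lt_two_pow_self
  have e4 : m ^ 2 ≤ 2 ^ (2 * a + 2) := by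
    calc m ^ 2 ≤ (2 ^ (a + 1)) ^ 2 := Nat.pow_le_pow_left hma.le 2
      _ = _ := by rw [← pow_mul]; congr 1; ring
  have hm2pos : 0 < m ^ 2 := by positivity
  calc (1 + (2 * k * m + 1) * (2 * (τ + 1)) + (W m + 1) * 2 ^ (τ + 2)) * 2 ^ (2 * (τ + 3))
      ≤ (2 ^ (τ + 2) * ((2 * k + 3) * m ^ 2)) * 2 ^ (2 * (τ + 3)) := by
        gcongr
    _ = (2 * k + 3) * (m ^ 2 * (2 ^ (τ + 2) * 2 ^ (2 * (τ + 3)))) := by ring
    _ < 2 ^ (2 * k + 3) * (m ^ 2 * (2 ^ (τ + 2) * 2 ^ (2 * (τ + 3)))) := by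
        apply Nat.mul_lt_mul_of_pos_right e3
        positivity
    _ ≤ 2 ^ (2 * k + 3) * (2 ^ (2 * a + 2) * (2 ^ (τ + 2) * 2 ^ (2 * (τ + 3)))) := by
        gcongr
    _ = 2 ^ ((2 * k + 3) + ((2 * a + 2) + ((τ + 2) + 2 * (τ + 3)))) := by
        rw [← pow_add, ← pow_add, ← pow_add]
    _ ≤ 2 ^ m := by
        apply Nat.pow_le_pow_right (by norm_num)
        omega

end NumXAux

theorem asymX (c2 c3 k : ℕ) (W : ℕ → ℕ) (hW : SmallX W) (hk : 2 * c2 + 3 ≤ k) (hk' : c3 + 1 ≤ k) :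
    ∃ m0 : ℕ, ∀ m, m0 ≤ m → ∃ τ : ℕ, 2 * (τ + 3) ≤ k * m ∧
    ∀ t d w : ℕ, t ≤ 2 ^ (c3 * m) → d ≤ 2 ^ (c2 * m) → w ≤ 2 ^ (W m) →
    (τ + 2) * 2 ^ (k * m - (τ + 2)) ≤ 2 ^ (k * m) ∧
    2 * (t * w * (d + 1) ^ (2 * τ + 1)) ≤ (2 ^ (k * m - (τ + 2))) ^ (τ + 1) ∧
    2 * ((2 ^ (k * m) * (τ + 2) * 2 ^ (k * m - (τ + 2)) + 1) ^ ((t + 1) * (τ + 1)) *
        ((w + 1) ^ (2 ^ (τ + 2))) ^ t) < 2 ^ (2 ^ (k * m - 2 * (τ + 3))) := by
  obtain ⟨m0, hm0⟩ := NumXAux.q3X k c3 W hW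
  refine ⟨max m0 1, fun m hm => ?_⟩
  obtain ⟨hA, hB⟩ := hm0 m ((le_max_left _ _).trans hm)
  have hmpos : 1 ≤ m := (le_max_right _ _).trans hm
  have hq2 : W m < (W m / m + 1) * m := by
    have := Nat.lt_div_mul_add (a := W m) (b := m) (by omega)
    linarith
  obtain ⟨τ, hτ⟩ : ∃ τ, τ = c3 + 1 + W m / m := ⟨_, rfl⟩
  rw [← hτ] at hA hB
  have hWτ : c3 * m + W m ≤ τ * m := by
    rw [hτ]
    nlinarith
  have h3m : 3 * m ≤ k * m := Nat.mul_le_mul_right _ (by omega)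
  refine ⟨τ, by omega, fun t d w ht hd hw => ?_⟩
  have hp1 : (τ + 2) * 2 ^ (k * m - (τ + 2)) ≤ 2 ^ (k * m) := by
    apply AsymAux.p1
    omega
  refine ⟨hp1, Pf91712g.q2 c2 c3 k τ (W m) m t d w hk hB hWτ ht hd hw, ?_⟩
  -- the third inequality
  have hT : 1 ≤ 2 ^ (c3 * m) := Nat.one_le_two_pow
  have hN1 : 2 ^ (k * m) * (τ + 2) * 2 ^ (k * m - (τ + 2)) + 1 ≤ 2 ^ (2 * k * m + 1) := by
    have e1 : 2 ^ (k * m) * (τ + 2) * 2 ^ (k * m - (τ + 2)) ≤ 2 ^ (k * m) * 2 ^ (k * m) := by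
      rw [mul_assoc]
      exact Nat.mul_le_mul_left _ hp1
    have e2 : 2 ^ (k * m) * 2 ^ (k * m) = 2 ^ (2 * k * m) := by
      rw [← pow_add]; congr 1; ring
    have e3 : 1 ≤ 2 ^ (2 * k * m) := Nat.one_le_two_pow
    rw [pow_succ]
    omega
  have hw1 : w + 1 ≤ 2 ^ (W m + 1) := by
    have : 1 ≤ 2 ^ (W m) := Nat.one_le_two_pow
    rw [pow_succ]; omega
  obtain ⟨E, hE⟩ : ∃ E, E = 1 + (2 * k * m + 1) * (2 * (τ + 1)) + (W m + 1) * 2 ^ (τ + 2) :=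
    ⟨_, rfl⟩
  rw [← hE] at hA
  have hbase : 2 * ((2 ^ (k * m) * (τ + 2) * 2 ^ (k * m - (τ + 2)) + 1) ^ ((t + 1) * (τ + 1)) *
        ((w + 1) ^ (2 ^ (τ + 2))) ^ t) ≤ 2 ^ (E * 2 ^ (c3 * m)) := by
    have e1 : (2 ^ (k * m) * (τ + 2) * 2 ^ (k * m - (τ + 2)) + 1) ^ ((t + 1) * (τ + 1)) ≤
        2 ^ ((2 * k * m + 1) * ((2 ^ (c3 * m) + 1) * (τ + 1))) := by
      rw [pow_mul 2 (2 * k * m + 1)]
      calc _ ≤ (2 ^ (2 * k * m + 1)) ^ ((t + 1) * (τ + 1)) := Nat.pow_le_pow_left hN1 _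
        _ ≤ _ := Nat.pow_le_pow_right (Nat.pos_of_ne_zero (by positivity)) (by gcongr)
    have e2 : ((w + 1) ^ (2 ^ (τ + 2))) ^ t ≤
        2 ^ ((W m + 1) * (2 ^ (τ + 2) * 2 ^ (c3 * m))) := by
      rw [← pow_mul, pow_mul 2 (W m + 1)]
      calc _ ≤ (2 ^ (W m + 1)) ^ (2 ^ (τ + 2) * t) := Nat.pow_le_pow_left hw1 _
        _ ≤ _ := Nat.pow_le_pow_right (Nat.pos_of_ne_zero (by positivity)) (by gcongr)
    calc _ ≤ 2 * (2 ^ ((2 * k * m + 1) * ((2 ^ (c3 * m) + 1) * (τ + 1))) *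
          2 ^ ((W m + 1) * (2 ^ (τ + 2) * 2 ^ (c3 * m)))) := by
          gcongr
      _ = 2 ^ (1 + ((2 * k * m + 1) * ((2 ^ (c3 * m) + 1) * (τ + 1)) +
          (W m + 1) * (2 ^ (τ + 2) * 2 ^ (c3 * m)))) := by
          rw [← pow_add, ← pow_succ']
          congr 1; ring
      _ ≤ _ := by
          apply Nat.pow_le_pow_right (by norm_num)
          have f2 : (2 * k * m + 1) * ((2 ^ (c3 * m) + 1) * (τ + 1)) ≤
              ((2 * k * m + 1) * (2 * (τ + 1))) * 2 ^ (c3 * m) := by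
            calc (2 * k * m + 1) * ((2 ^ (c3 * m) + 1) * (τ + 1))
                ≤ (2 * k * m + 1) * ((2 * 2 ^ (c3 * m)) * (τ + 1)) := by
                  gcongr
                  omega
              _ = _ := by ring
          calc 1 + ((2 * k * m + 1) * ((2 ^ (c3 * m) + 1) * (τ + 1)) +
                (W m + 1) * (2 ^ (τ + 2) * 2 ^ (c3 * m)))
              ≤ 2 ^ (c3 * m) + (((2 * k * m + 1) * (2 * (τ + 1))) * 2 ^ (c3 * m) +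
                (W m + 1) * (2 ^ (τ + 2) * 2 ^ (c3 * m))) := by
                gcongr
            _ = E * 2 ^ (c3 * m) := by rw [hE]; ring
  refine lt_of_le_of_lt hbase (Nat.pow_lt_pow_right (by norm_num) ?_)
  have h6 : E * 2 ^ (c3 * m) * 2 ^ (2 * (τ + 3)) <
      2 ^ (k * m - 2 * (τ + 3)) * 2 ^ (2 * (τ + 3)) := by
    calc E * 2 ^ (c3 * m) * 2 ^ (2 * (τ + 3)) = (E * 2 ^ (2 * (τ + 3))) * 2 ^ (c3 * m) := by ring
      _ < 2 ^ m * 2 ^ (c3 * m) := Nat.mul_lt_mul_of_pos_right hA (by positivity)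
      _ = 2 ^ (m + c3 * m) := by rw [pow_add]
      _ ≤ 2 ^ (k * m) := by
          apply Nat.pow_le_pow_right (by norm_num)
          have := Nat.mul_le_mul_right m hk'
          nlinarith
      _ = 2 ^ (k * m - 2 * (τ + 3)) * 2 ^ (2 * (τ + 3)) := by
          rw [← pow_add]
          congr 1
          omega
  exact Nat.lt_of_mul_lt_mul_right h6

end Pool.Agent.Lib.Pf91712x
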