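import Pool.Agent.Lib.Pf91712x.Defs

/-!
one block, fixed `D` with `s ≥ 1` elements, `N = card σ - s`. PROOF.
* `one_a`: the number of the pairs `(A, A')` with exactly one row in `D ∩ A ∩ A'` and none in `D ∩ (A ∆ A')` is `s * 4 ^ N` (choose the row;
  the other rows of `D` are in neither set; `4 ^ N` for the rest).
* `one_b`: the pairs with none in `D ∩ A ∩ A'`, one in `D ∩ A \ A'`, one in `D ∩ A' \ A`: `s (s - 1)` ways on `D`; on the rest the types
  `(A x, A' x)` are arbitrary, and `|A \ A'| = 1 + a`, `|A' \ A| = 1 + b` with the numbers `a`, `b` of the rows of these types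
  outside of `D`. `1 / (√(1+a) √(1+b)) ≤ (1 / (1 + a) + 1 / (1 + b)) / 2`, and
  `∑ 1 / (1 + a) = ∑_a C(N, a) 3 ^ (N - a) / (1 + a) = (4 ^ (N+1) - 3 ^ (N+1)) / (N + 1) ≤ 4 ^ (N + 1) / (N + 1)`.
(Functions `σ → Bool × Bool`, restricted to `D` and to the complement: `Equiv.piEquivPiSubtypeProd`.)
-/

set_option autoImplicit false

open Finset

namespace Pool.Agent.Lib.Pf91712x

/-- the number of the elements with `P` -/
def nn {σ : Type} [Fintype σ] (P : σ → Bool) : ℕ := (univ.filter fun x => P x = true).card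

namespace One1Aux

theorem sumprod {σ : Type} [Fintype σ] [DecidableEq σ] (f : σ → Bool → ℝ) :
    ∑ A : σ → Bool, ∏ x, f x (A x) = ∏ x, ∑ b, f x b := by
  have h := Finset.prod_univ_sum (fun _ : σ => (univ : Finset Bool)) f
  rw [Fintype.piFinset_univ] at h
  exact h.symm

/-- the condition at `x` when `x0` is the common row -/
def cnd {σ : Type} [DecidableEq σ] (D : σ → Bool) (x0 x : σ) (b b' : Bool) : Bool :=
  if x = x0 then b && b' else (!(D x) || (!b && !b'))

theorem ind_eq {σ : Type} [Fintype σ] [DecidableEq σ] (D A A' : σ → Bool) :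
    (if nn (fun x => D x && (A x && A' x)) = 1 ∧ nn (fun x => D x && xor (A x) (A' x)) = 0
        then (1 : ℝ) else 0) =
      ∑ x0 ∈ univ.filter (fun x => D x = true),
        ∏ x, if cnd D x0 x (A x) (A' x) = true then (1 : ℝ) else 0 := by
  simp_rw [Finset.prod_boole]
  by_cases hc : nn (fun x => D x && (A x && A' x)) = 1 ∧ nn (fun x => D x && xor (A x) (A' x)) = 0
  · rw [if_pos hc]
    obtain ⟨h1, h2⟩ := hc
    unfold nn at h1 h2
    beta_reduce at h1 h2
    rw [Finset.card_eq_one] at h1
    obtain ⟨x0, hx0⟩ := h1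
    rw [Finset.card_eq_zero] at h2
    have m0 : x0 ∈ univ.filter (fun x => (D x && (A x && A' x)) = true) := by
      rw [hx0]; exact mem_singleton_self _
    have e0 : D x0 = true ∧ A x0 = true ∧ A' x0 = true := by
      have h := (mem_filter.1 m0).2
      simpa [Bool.and_eq_true] using h
    have u0 : ∀ x, D x = true → A x = true → A' x = true → x = x0 := by
      intro x h1 h2 h3
      have h : x ∈ univ.filter (fun x => (D x && (A x && A' x)) = true) := by
        rw [mem_filter]; exact ⟨mem_univ _, by rw [h1, h2, h3]; rfl⟩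
      rw [hx0] at h
      exact mem_singleton.1 h
    have v0 : ∀ x, D x = true → A x = A' x := by
      intro x h1
      by_contra hne
      have h : x ∈ univ.filter (fun x => (D x && xor (A x) (A' x)) = true) := by
        rw [mem_filter]
        refine ⟨mem_univ _, ?_⟩
        rw [h1]
        revert hne
        cases A x <;> cases A' x <;> simp
      rw [h2] at h
      exact absurd h (notMem_empty _)
    rw [Finset.sum_eq_single x0]
    · rw [if_pos]
      intro x _
      unfold cnd
      by_cases hx : x = x0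
      · rw [if_pos hx, hx, e0.2.1, e0.2.2]; rfl
      · rw [if_neg hx]
        cases hD : D x
        · rfl
        · have h1 := v0 x hD
          have h2 := u0 x hD
          cases hA : A x
          · rw [hA] at h1
            rw [← h1]; rfl
          · rw [hA] at h1
            exact absurd (h2 hA h1.symm) hx
    · intro x1 hx1 hne
      rw [if_neg]
      intro h
      have h1 := h x0 (mem_univ _)
      unfold cnd at h1
      rw [if_neg (Ne.symm hne), e0.1, e0.2.1, e0.2.2] at h1
      exact absurd h1 (by decide)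
    · intro h
      have h' : x0 ∈ univ.filter (fun x => D x = true) := mem_filter.2 ⟨mem_univ _, e0.1⟩
      exact absurd h' h
  · rw [if_neg hc]
    symm
    refine sum_eq_zero fun x0 hx0 => ?_
    rw [if_neg]
    intro h
    apply hc
    have hD0 := (mem_filter.1 hx0).2
    have e0 := h x0 (mem_univ _)
    unfold cnd at e0
    rw [if_pos rfl] at e0
    have r0 : ∀ x, x ≠ x0 → D x = true → A x = false ∧ A' x = false := by
      intro x hx hD
      have h1 := h x (mem_univ _)
      unfold cnd at h1
      rw [if_neg hx, hD] at h1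
      revert h1
      cases A x <;> cases A' x <;> simp
    constructor
    · unfold nn
      beta_reduce
      rw [Finset.card_eq_one]
      refine ⟨x0, ?_⟩
      ext x
      rw [mem_filter, mem_singleton]
      constructor
      · rintro ⟨_, hx⟩
        by_contra hne
        have h1 : D x = true := by
          cases hh : D x
          · rw [hh] at hx; exact absurd hx (by simp)
          · rfl
        have h2 := r0 x hne h1
        rw [h1, h2.1, h2.2] at hx
        exact absurd hx (by decide)
      · intro hx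
        refine ⟨mem_univ _, ?_⟩
        rw [hx, hD0, Bool.true_and]
        exact e0
    · unfold nn
      beta_reduce
      rw [Finset.card_eq_zero, Finset.filter_eq_empty_iff]
      intro x _ hx'
      have hx : (D x && xor (A x) (A' x)) = true := hx'
      have h1 : D x = true := by
        cases hh : D x
        · rw [hh] at hx; exact absurd hx (by simp)
        · rfl
      by_cases hxx : x = x0
      · subst hxx
        rw [h1, Bool.true_and] at hx
        revert e0 hx
        cases A x <;> cases A' x <;> simp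
      · have h2 := r0 x hxx h1
        rw [h1, h2.1, h2.2] at hx
        exact absurd hx (by decide)

theorem sum_cnd {σ : Type} [Fintype σ] [DecidableEq σ] (D : σ → Bool) (x0 : σ) (h0 : D x0 = true) :
    ∑ A : σ → Bool, ∑ A' : σ → Bool,
      ∏ x, (if cnd D x0 x (A x) (A' x) = true then (1 : ℝ) else 0) =
      4 ^ (Fintype.card σ - nn D) := by
  have h1 : ∀ A : σ → Bool, ∑ A' : σ → Bool,
      ∏ x, (if cnd D x0 x (A x) (A' x) = true then (1 : ℝ) else 0) =
      ∏ x, ∑ b', (if cnd D x0 x (A x) b' = true then (1 : ℝ) else 0) := fun A =>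
    sumprod (fun x b' => if cnd D x0 x (A x) b' = true then (1 : ℝ) else 0)
  rw [sum_congr rfl fun A _ => h1 A]
  rw [sumprod (fun x b => ∑ b', (if cnd D x0 x b b' = true then (1 : ℝ) else 0))]
  have h2 : ∀ x, ∑ b, ∑ b', (if cnd D x0 x b b' = true then (1 : ℝ) else 0) =
      if D x = true then 1 else 4 := by
    intro x
    unfold cnd
    by_cases hx : x = x0
    · subst hx
      rw [if_pos h0]
      simp only [Fintype.sum_bool]
      norm_num
    · simp only [if_neg hx]
      cases hD : D x
      · simp only [Fintype.sum_bool]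
        norm_num
      · simp only [Fintype.sum_bool]
        norm_num
  rw [prod_congr rfl fun x _ => h2 x, Finset.prod_ite, Finset.prod_const_one, one_mul,
    Finset.prod_const]
  congr 1
  have h3 := Finset.card_filter_add_card_filter_not (s := (univ : Finset σ)) (fun x => D x = true)
  rw [Finset.card_univ] at h3
  unfold nn
  omega

end One1Aux

theorem one_a {σ : Type} [Fintype σ] [DecidableEq σ] (D : σ → Bool) :
    ∑ A : σ → Bool, ∑ A' : σ → Bool,
      (if nn (fun x => D x && (A x && A' x)) = 1 ∧ nn (fun x => D x && xor (A x) (A' x)) = 0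
        then (1 : ℝ) else 0) = nn D * 4 ^ (Fintype.card σ - nn D) := by
  simp_rw [One1Aux.ind_eq]
  have h1 : ∀ A : σ → Bool, ∑ A' : σ → Bool, ∑ x0 ∈ univ.filter (fun x => D x = true),
        ∏ x, (if One1Aux.cnd D x0 x (A x) (A' x) = true then (1 : ℝ) else 0) =
      ∑ x0 ∈ univ.filter (fun x => D x = true), ∑ A' : σ → Bool,
        ∏ x, (if One1Aux.cnd D x0 x (A x) (A' x) = true then (1 : ℝ) else 0) := fun A => Finset.sum_comm
  rw [sum_congr rfl fun A _ => h1 A, Finset.sum_comm]
  rw [sum_congr rfl fun x0 hx0 => One1Aux.sum_cnd D x0 (mem_filter.1 hx0).2]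
  rw [Finset.sum_const, nsmul_eq_mul]
  rfl

namespace One1bAux

/-- the condition at `x` for the row `x0` of the first and the row `x1` of the second set -/
def cb {σ : Type} [DecidableEq σ] (D : σ → Bool) (x0 x1 x : σ) (b b' : Bool) : Bool :=
  if x = x0 then b && !b' else if x = x1 then !b && b' else (!(D x) || (!b && !b'))

theorem cb_swap {σ : Type} [DecidableEq σ] (D : σ → Bool) {x0 x1 : σ} (h : x0 ≠ x1) (x : σ)
    (b b' : Bool) : cb D x0 x1 x b b' = cb D x1 x0 x b' b := by
  unfold cb
  by_cases h0 : x = x0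
  · have h1 : x ≠ x1 := fun e => h (h0.symm.trans e)
    rw [if_pos h0, if_neg h1, if_pos h0]
    cases b <;> cases b' <;> rfl
  · by_cases h1 : x = x1
    · rw [if_neg h0, if_pos h1, if_pos h1]
      cases b <;> cases b' <;> rfl
    · rw [if_neg h0, if_neg h1, if_neg h1, if_neg h0]
      cases D x <;> cases b <;> cases b' <;> rfl

/-- the product of the conditions -/
noncomputable def pc {σ : Type} [Fintype σ] [DecidableEq σ] (D : σ → Bool) (x0 x1 : σ)
    (A A' : σ → Bool) : ℝ := ∏ x, if cb D x0 x1 x (A x) (A' x) = true then (1 : ℝ) else 0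

theorem pc_nonneg {σ : Type} [Fintype σ] [DecidableEq σ] (D : σ → Bool) (x0 x1 : σ)
    (A A' : σ → Bool) : 0 ≤ pc D x0 x1 A A' := by
  unfold pc
  refine Finset.prod_nonneg fun x _ => ?_
  split_ifs <;> norm_num

theorem pc_swap {σ : Type} [Fintype σ] [DecidableEq σ] (D : σ → Bool) {x0 x1 : σ} (h : x0 ≠ x1)
    (A A' : σ → Bool) : pc D x0 x1 A A' = pc D x1 x0 A' A := by
  unfold pc
  refine Finset.prod_congr rfl fun x _ => ?_
  rw [cb_swap D h]

theorem pc_pos {σ : Type} [Fintype σ] [DecidableEq σ] {D : σ → Bool} {x0 x1 : σ}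
    {A A' : σ → Bool} (h : ∀ x, cb D x0 x1 x (A x) (A' x) = true) : pc D x0 x1 A A' = 1 := by
  unfold pc
  refine Finset.prod_eq_one fun x _ => ?_
  rw [if_pos (h x)]

theorem pc_zero {σ : Type} [Fintype σ] [DecidableEq σ] {D : σ → Bool} {x0 x1 : σ}
    {A A' : σ → Bool} (h : ¬ ∀ x, cb D x0 x1 x (A x) (A' x) = true) : pc D x0 x1 A A' = 0 := by
  push Not at h
  obtain ⟨x, hx⟩ := h
  unfold pc
  refine Finset.prod_eq_zero (Finset.mem_univ x) ?_
  rw [if_neg hx]

/-- the weight at `x` -/
noncomputable def ww {σ : Type} [DecidableEq σ] (D : σ → Bool) (x0 x1 : σ) (t : ℝ) (x : σ)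
    (b b' : Bool) : ℝ :=
  if cb D x0 x1 x b b' = true then (if x ≠ x0 ∧ (b && !b') = true then t else 1) else 0

theorem x0_mem {σ : Type} [Fintype σ] [DecidableEq σ] {D : σ → Bool} {x0 x1 : σ}
    {A A' : σ → Bool} (h : ∀ x, cb D x0 x1 x (A x) (A' x) = true) :
    x0 ∈ univ.filter fun x => (A x && !(A' x)) = true := by
  have h0 := h x0
  unfold cb at h0
  rw [if_pos rfl] at h0
  exact mem_filter.2 ⟨mem_univ _, h0⟩

theorem prod_ww {σ : Type} [Fintype σ] [DecidableEq σ] (D : σ → Bool) (x0 x1 : σ) (t : ℝ)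
    (A A' : σ → Bool) : ∏ x, ww D x0 x1 t x (A x) (A' x) =
      pc D x0 x1 A A' * t ^ (nn (fun x => A x && !(A' x)) - 1) := by
  by_cases h : ∀ x, cb D x0 x1 x (A x) (A' x) = true
  · rw [pc_pos h, one_mul]
    have e : ∀ x, ww D x0 x1 t x (A x) (A' x) =
        if x ≠ x0 ∧ (A x && !(A' x)) = true then t else 1 := by
      intro x
      unfold ww
      rw [if_pos (h x)]
    rw [Finset.prod_congr rfl fun x _ => e x, Finset.prod_ite, Finset.prod_const_one, mul_one,
      Finset.prod_const]
    congr 1
    have e2 : (univ.filter fun x => x ≠ x0 ∧ (A x && !(A' x)) = true) =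
        (univ.filter fun x => (A x && !(A' x)) = true).erase x0 := by
      ext x
      simp [Finset.mem_erase]
    rw [e2, Finset.card_erase_of_mem (x0_mem h)]
    rfl
  · rw [pc_zero h, zero_mul]
    push Not at h
    obtain ⟨x, hx⟩ := h
    refine Finset.prod_eq_zero (Finset.mem_univ x) ?_
    unfold ww
    rw [if_neg hx]

theorem sum_ww {σ : Type} [Fintype σ] [DecidableEq σ] (D : σ → Bool) {x0 x1 : σ} (hne : x0 ≠ x1)
    (h0 : D x0 = true) (h1 : D x1 = true) (t : ℝ) :
    ∑ A : σ → Bool, ∑ A' : σ → Bool, pc D x0 x1 A A' * t ^ (nn (fun x => A x && !(A' x)) - 1) =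
      (3 + t) ^ (Fintype.card σ - nn D) := by
  simp_rw [← prod_ww]
  have e1 : ∀ A : σ → Bool, ∑ A' : σ → Bool, ∏ x, ww D x0 x1 t x (A x) (A' x) =
      ∏ x, ∑ b', ww D x0 x1 t x (A x) b' := fun A =>
    One1Aux.sumprod (fun x b' => ww D x0 x1 t x (A x) b')
  rw [sum_congr rfl fun A _ => e1 A]
  rw [One1Aux.sumprod (fun x b => ∑ b', ww D x0 x1 t x b b')]
  have e2 : ∀ x, ∑ b, ∑ b', ww D x0 x1 t x b b' = if D x = true then 1 else 3 + t := by
    intro x
    unfold ww cb
    by_cases hx0 : x = x0
    · subst hx0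
      rw [if_pos h0]
      simp only [Fintype.sum_bool]
      norm_num
    · by_cases hx1 : x = x1
      · subst hx1
        rw [if_pos h1]
        simp only [Fintype.sum_bool, if_neg hx0]
        norm_num
      · simp only [if_neg hx0, if_neg hx1]
        cases hD : D x
        · simp only [Fintype.sum_bool]
          simp [hx0]
          ring
        · simp only [Fintype.sum_bool]
          simp [hx0]
  rw [prod_congr rfl fun x _ => e2 x, Finset.prod_ite, Finset.prod_const_one, one_mul,
    Finset.prod_const]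
  congr 1
  have h3 := Finset.card_filter_add_card_filter_not (s := (univ : Finset σ)) (fun x => D x = true)
  rw [Finset.card_univ] at h3
  unfold nn
  omega

theorem int_eq {σ : Type} [Fintype σ] [DecidableEq σ] (D : σ → Bool) (x0 x1 : σ)
    (A A' : σ → Bool) : pc D x0 x1 A A' * (1 / (nn (fun x => A x && !(A' x)) : ℝ)) =
      ∫ t in (0 : ℝ)..1, pc D x0 x1 A A' * t ^ (nn (fun x => A x && !(A' x)) - 1) := by
  by_cases h : ∀ x, cb D x0 x1 x (A x) (A' x) = true
  · rw [pc_pos h]
    simp only [one_mul]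
    have hp : 0 < nn (fun x => A x && !(A' x)) := Finset.card_pos.2 ⟨x0, x0_mem h⟩
    obtain ⟨k, hk⟩ : ∃ k, nn (fun x => A x && !(A' x)) = k + 1 :=
      ⟨nn (fun x => A x && !(A' x)) - 1, by omega⟩
    rw [hk, Nat.add_sub_cancel, integral_pow]
    push_cast
    simp
  · rw [pc_zero h]
    simp

theorem sum_inv {σ : Type} [Fintype σ] [DecidableEq σ] (D : σ → Bool) {x0 x1 : σ} (hne : x0 ≠ x1)
    (h0 : D x0 = true) (h1 : D x1 = true) :
    ∑ A : σ → Bool, ∑ A' : σ → Bool,
      pc D x0 x1 A A' * (1 / (nn (fun x => A x && !(A' x)) : ℝ)) ≤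
      4 ^ (Fintype.card σ - nn D + 1) / ((Fintype.card σ - nn D : ℕ) + 1) := by
  simp_rw [int_eq]
  have e : ∑ A : σ → Bool, ∑ A' : σ → Bool, (∫ t in (0 : ℝ)..1,
      pc D x0 x1 A A' * t ^ (nn (fun x => A x && !(A' x)) - 1)) =
      ∫ t in (0 : ℝ)..1, ∑ A : σ → Bool, ∑ A' : σ → Bool,
        pc D x0 x1 A A' * t ^ (nn (fun x => A x && !(A' x)) - 1) := by
    rw [intervalIntegral.integral_finsetSum]
    · refine Finset.sum_congr rfl fun A _ => ?_
      rw [intervalIntegral.integral_finsetSum]
      intro A' _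
      exact Continuous.intervalIntegrable (by fun_prop) _ _
    · intro A _
      exact Continuous.intervalIntegrable (by fun_prop) _ _
  rw [e]
  simp_rw [sum_ww D hne h0 h1]
  have e2 := intervalIntegral.integral_comp_add_left (a := 0) (b := 1)
    (fun t : ℝ => t ^ (Fintype.card σ - nn D)) 3
  rw [e2, integral_pow]
  have h4 : (3 : ℝ) + 1 = 4 := by norm_num
  have h3 : (0 : ℝ) ≤ (3 + 0) ^ (Fintype.card σ - nn D + 1) := by positivity
  rw [h4]
  refine div_le_div_of_nonneg_right ?_ (by positivity)
  linarith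

/-- one pair of rows -/
theorem pair_le {σ : Type} [Fintype σ] [DecidableEq σ] (D : σ → Bool) {x0 x1 : σ} (hne : x0 ≠ x1)
    (h0 : D x0 = true) (h1 : D x1 = true) :
    ∑ A : σ → Bool, ∑ A' : σ → Bool, pc D x0 x1 A A' *
        (1 / √(nn (fun x => A x && !(A' x)) : ℝ) * (1 / √(nn (fun x => !(A x) && A' x) : ℝ))) ≤
      4 ^ (Fintype.card σ - nn D + 1) / ((Fintype.card σ - nn D : ℕ) + 1) := by
  have hA := sum_inv D hne h0 h1
  have hB := sum_inv D hne.symm h1 h0
  have hB' : ∑ A : σ → Bool, ∑ A' : σ → Bool,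
      pc D x0 x1 A A' * (1 / (nn (fun x => !(A x) && A' x) : ℝ)) ≤
      4 ^ (Fintype.card σ - nn D + 1) / ((Fintype.card σ - nn D : ℕ) + 1) := by
    refine le_trans (le_of_eq ?_) hB
    rw [Finset.sum_comm]
    refine Finset.sum_congr rfl fun A _ => Finset.sum_congr rfl fun A' _ => ?_
    rw [pc_swap D hne]
    have : (fun x => !(A' x) && A x) = fun x => A x && !(A' x) := by
      funext x
      rw [Bool.and_comm]
    rw [this]
  have hp : ∀ A A' : σ → Bool, pc D x0 x1 A A' *
        (1 / √(nn (fun x => A x && !(A' x)) : ℝ) * (1 / √(nn (fun x => !(A x) && A' x) : ℝ))) ≤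
      1 / 2 * (pc D x0 x1 A A' * (1 / (nn (fun x => A x && !(A' x)) : ℝ))) +
        1 / 2 * (pc D x0 x1 A A' * (1 / (nn (fun x => !(A x) && A' x) : ℝ))) := by
    intro A A'
    have e1 : 1 / (nn (fun x => A x && !(A' x)) : ℝ) =
        (1 / √(nn (fun x => A x && !(A' x)) : ℝ)) ^ 2 := by
      rw [div_pow, one_pow, Real.sq_sqrt (Nat.cast_nonneg _)]
    have e2 : 1 / (nn (fun x => !(A x) && A' x) : ℝ) =
        (1 / √(nn (fun x => !(A x) && A' x) : ℝ)) ^ 2 := by
      rw [div_pow, one_pow, Real.sq_sqrt (Nat.cast_nonneg _)]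
    rw [e1, e2]
    generalize 1 / √(nn (fun x => A x && !(A' x)) : ℝ) = u
    generalize 1 / √(nn (fun x => !(A x) && A' x) : ℝ) = w
    have h1 : u * w ≤ 1 / 2 * u ^ 2 + 1 / 2 * w ^ 2 := by nlinarith [sq_nonneg (u - w)]
    have h2 := mul_le_mul_of_nonneg_left h1 (pc_nonneg D x0 x1 A A')
    linarith
  refine (Finset.sum_le_sum fun A _ => Finset.sum_le_sum fun A' _ => hp A A').trans ?_
  simp only [Finset.sum_add_distrib, ← Finset.mul_sum]
  linarith

/-- the indicator -/
theorem ind_le {σ : Type} [Fintype σ] [DecidableEq σ] (D A A' : σ → Bool) :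
    (if nn (fun x => D x && (A x && A' x)) = 0 ∧ nn (fun x => D x && (A x && !(A' x))) = 1 ∧
        nn (fun x => D x && (!(A x) && A' x)) = 1 then (1 : ℝ) else 0) ≤
      ∑ p ∈ (univ.filter fun x => D x = true).offDiag, pc D p.1 p.2 A A' := by
  split_ifs with hc
  · obtain ⟨c1, c2, c3⟩ := hc
    unfold nn at c1 c2 c3
    beta_reduce at c1 c2 c3
    rw [Finset.card_eq_zero] at c1
    rw [Finset.card_eq_one] at c2 c3
    obtain ⟨x0, hx0⟩ := c2
    obtain ⟨x1, hx1⟩ := c3
    have m0 : x0 ∈ univ.filter (fun x => (D x && (A x && !(A' x))) = true) := by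
      rw [hx0]; exact mem_singleton_self _
    have m1 : x1 ∈ univ.filter (fun x => (D x && (!(A x) && A' x)) = true) := by
      rw [hx1]; exact mem_singleton_self _
    have e0 : D x0 = true ∧ A x0 = true ∧ A' x0 = false := by
      have h := (mem_filter.1 m0).2
      simpa [Bool.and_eq_true] using h
    have e1 : D x1 = true ∧ A x1 = false ∧ A' x1 = true := by
      have h := (mem_filter.1 m1).2
      simpa [Bool.and_eq_true] using h
    have hne : x0 ≠ x1 := by
      rintro rfl
      rw [e0.2.1] at e1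
      exact absurd e1.2.1 (by decide)
    have hall : ∀ x, cb D x0 x1 x (A x) (A' x) = true := by
      intro x
      unfold cb
      by_cases hx : x = x0
      · rw [if_pos hx, hx, e0.2.1, e0.2.2]; rfl
      · by_cases hx' : x = x1
        · rw [if_neg hx, if_pos hx', hx', e1.2.1, e1.2.2]; rfl
        · rw [if_neg hx, if_neg hx']
          have k0 : x ∉ univ.filter (fun x => (D x && (A x && !(A' x))) = true) := by
            rw [hx0]; simpa using hx
          have k1 : x ∉ univ.filter (fun x => (D x && (!(A x) && A' x)) = true) := by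
            rw [hx1]; simpa using hx'
          have k2 : x ∉ univ.filter (fun x => (D x && (A x && A' x)) = true) := by
            rw [c1]; exact notMem_empty _
          rw [mem_filter] at k0 k1 k2
          have k0' : ¬ ((D x && (A x && !(A' x))) = true) := fun h => k0 ⟨mem_univ _, h⟩
          have k1' : ¬ ((D x && (!(A x) && A' x)) = true) := fun h => k1 ⟨mem_univ _, h⟩
          have k2' : ¬ ((D x && (A x && A' x)) = true) := fun h => k2 ⟨mem_univ _, h⟩
          revert k0' k1' k2'
          cases D x <;> cases A x <;> cases A' x <;> simp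
    have hm : (x0, x1) ∈ (univ.filter fun x => D x = true).offDiag := by
      rw [Finset.mem_offDiag]
      exact ⟨mem_filter.2 ⟨mem_univ _, e0.1⟩, mem_filter.2 ⟨mem_univ _, e1.1⟩, hne⟩
    have h1 := Finset.single_le_sum (f := fun p : σ × σ => pc D p.1 p.2 A A')
      (fun p _ => pc_nonneg D p.1 p.2 A A') hm
    have h2 : pc D x0 x1 A A' = 1 := pc_pos hall
    simp only [h2] at h1
    exact h1
  · exact Finset.sum_nonneg fun p _ => pc_nonneg D p.1 p.2 A A'

end One1bAux

theorem one_b {σ : Type} [Fintype σ] [DecidableEq σ] (D : σ → Bool) :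
    ∑ A : σ → Bool, ∑ A' : σ → Bool,
      (if nn (fun x => D x && (A x && A' x)) = 0 ∧ nn (fun x => D x && (A x && !(A' x))) = 1 ∧
          nn (fun x => D x && (!(A x) && A' x)) = 1 then (1 : ℝ) else 0) *
        (1 / √(nn (fun x => A x && !(A' x)) : ℝ) * (1 / √(nn (fun x => !(A x) && A' x) : ℝ))) ≤
      nn D * (nn D - 1) * 4 ^ (Fintype.card σ - nn D + 1) / ((Fintype.card σ - nn D : ℕ) + 1) := by
  have h1 : ∀ A A' : σ → Bool,
      (if nn (fun x => D x && (A x && A' x)) = 0 ∧ nn (fun x => D x && (A x && !(A' x))) = 1 ∧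
          nn (fun x => D x && (!(A x) && A' x)) = 1 then (1 : ℝ) else 0) *
        (1 / √(nn (fun x => A x && !(A' x)) : ℝ) * (1 / √(nn (fun x => !(A x) && A' x) : ℝ))) ≤
      ∑ p ∈ (univ.filter fun x => D x = true).offDiag, One1bAux.pc D p.1 p.2 A A' *
        (1 / √(nn (fun x => A x && !(A' x)) : ℝ) * (1 / √(nn (fun x => !(A x) && A' x) : ℝ))) := by
    intro A A'
    rw [← Finset.sum_mul]
    exact mul_le_mul_of_nonneg_right (One1bAux.ind_le D A A') (by positivity)
  refine (Finset.sum_le_sum fun A _ => Finset.sum_le_sum fun A' _ => h1 A A').trans ?_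
  have h2 : ∑ A : σ → Bool, ∑ A' : σ → Bool,
      ∑ p ∈ (univ.filter fun x => D x = true).offDiag, One1bAux.pc D p.1 p.2 A A' *
        (1 / √(nn (fun x => A x && !(A' x)) : ℝ) * (1 / √(nn (fun x => !(A x) && A' x) : ℝ))) =
      ∑ p ∈ (univ.filter fun x => D x = true).offDiag, ∑ A : σ → Bool, ∑ A' : σ → Bool,
        One1bAux.pc D p.1 p.2 A A' *
        (1 / √(nn (fun x => A x && !(A' x)) : ℝ) * (1 / √(nn (fun x => !(A x) && A' x) : ℝ))) := by
    rw [Finset.sum_comm' (s := (univ.filter fun x => D x = true).offDiag)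
      (t := fun _ => (univ : Finset (σ → Bool)))
      (t' := (univ : Finset (σ → Bool))) (s' := fun _ => (univ.filter fun x => D x = true).offDiag)]
    · exact Finset.sum_congr rfl fun A _ => Finset.sum_comm
    · intro x y
      simp
  rw [h2]
  have h3 : ∀ p ∈ (univ.filter fun x => D x = true).offDiag,
      ∑ A : σ → Bool, ∑ A' : σ → Bool, One1bAux.pc D p.1 p.2 A A' *
        (1 / √(nn (fun x => A x && !(A' x)) : ℝ) * (1 / √(nn (fun x => !(A x) && A' x) : ℝ))) ≤
      4 ^ (Fintype.card σ - nn D + 1) / ((Fintype.card σ - nn D : ℕ) + 1) := by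
    intro p hp
    obtain ⟨a, b, c⟩ := Finset.mem_offDiag.1 hp
    exact One1bAux.pair_le D c (mem_filter.1 a).2 (mem_filter.1 b).2
  refine (Finset.sum_le_card_nsmul _ _ _ h3).trans ?_
  rw [Finset.offDiag_card, nsmul_eq_mul, mul_div_assoc]
  have e : (((univ.filter fun x => D x = true).card * (univ.filter fun x => D x = true).card -
      (univ.filter fun x => D x = true).card : ℕ) : ℝ) = nn D * (nn D - 1) := by
    have : (univ.filter fun x => D x = true).card = nn D := rfl
    rw [this, Nat.cast_sub (Nat.le_mul_self _)]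
    push_cast
    ring
  rw [e]

end Pool.Agent.Lib.Pf91712x
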