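import Mathlib

/-!
PROOF. `C(B, s) (s - 1) / (B - s + 1) = C(B, s - 1) (s - 1) / s ≤ C(B, s - 1)`, so the second part is at most
`∑_{s ≥ 1} C(B, s - 1) (2 v) ^ (B - s) 4 v² = 2 v ∑_{s' < B} C(B, s') (2 v) ^ (B - s') ≤ 2 v (1 + 2 v) ^ B`, and the first is
`∑_{s ≥ 1} C(B, s) (2 v) ^ (B - s) ≤ (1 + 2 v) ^ B`.
-/

set_option autoImplicit false

open Finset

namespace Pool.Agent.Lib.Pf91712x

namespace OneSumAux

theorem term_le (B t : ℕ) (ht : t + 1 ≤ B) (v : ℝ) (hv : 0 ≤ v) :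
    (B.choose (t + 1) : ℝ) * (v ^ (B - (t + 1)) * (2 ^ (B - (t + 1)) *
      (1 + 4 * v ^ 2 * (((t + 1 : ℕ) : ℝ) - 1) / ((B - (t + 1) : ℕ) + 1)))) ≤
    (2 * v) ^ (B - (t + 1)) * (B.choose (t + 1) : ℝ) +
      2 * v * ((2 * v) ^ (B - t) * (B.choose t : ℝ)) := by
  obtain ⟨q, hq⟩ : ∃ q, q = B - (t + 1) := ⟨_, rfl⟩
  have hq1 : B - t = q + 1 := by omega
  have h1 : (B.choose (t + 1) : ℝ) * (t + 1) = (B.choose t : ℝ) * (q + 1) := by
    have := Nat.choose_succ_right_eq B t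
    rw [hq1] at this
    exact_mod_cast this
  rw [← hq, hq1]
  push_cast
  have hq0 : (0 : ℝ) < (q : ℝ) + 1 := by positivity
  have hC1 : (0 : ℝ) ≤ (B.choose (t + 1) : ℝ) := Nat.cast_nonneg _
  have h2 : (B.choose (t + 1) : ℝ) * t / ((q : ℝ) + 1) ≤ (B.choose t : ℝ) := by
    rw [div_le_iff₀ hq0, ← h1]
    nlinarith
  have h3 : (B.choose (t + 1) : ℝ) * (v ^ q * (2 ^ q *
      (1 + 4 * v ^ 2 * (((t : ℝ) + 1) - 1) / ((q : ℝ) + 1)))) =
      (2 * v) ^ q * (B.choose (t + 1) : ℝ) +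
        (2 * v) ^ q * (2 * v) ^ 2 * ((B.choose (t + 1) : ℝ) * t / ((q : ℝ) + 1)) := by
    rw [mul_pow]
    ring
  rw [h3]
  have h4 : (2 * v) ^ q * (2 * v) ^ 2 * ((B.choose (t + 1) : ℝ) * t / ((q : ℝ) + 1)) ≤
      (2 * v) ^ q * (2 * v) ^ 2 * (B.choose t : ℝ) :=
    mul_le_mul_of_nonneg_left h2 (by positivity)
  have h5 : (2 * v) ^ q * (2 * v) ^ 2 * (B.choose t : ℝ) =
      2 * v * ((2 * v) ^ (q + 1) * (B.choose t : ℝ)) := by ring
  linarith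

end OneSumAux

theorem one_sum (B : ℕ) (v : ℝ) (hv : 0 ≤ v) :
    ∑ s ∈ Finset.Icc 1 B, (B.choose s : ℝ) * (v ^ (B - s) * (2 ^ (B - s) *
      (1 + 4 * v ^ 2 * (s - 1) / ((B - s : ℕ) + 1)))) ≤ (1 + 2 * v) ^ (B + 1) := by
  have hbin : (1 + 2 * v) ^ B = ∑ m ∈ range (B + 1), (2 * v) ^ (B - m) * (B.choose m : ℝ) := by
    rw [add_pow]
    refine Finset.sum_congr rfl fun m _ => ?_
    rw [one_pow, one_mul]
  have hterm : ∀ s ∈ Finset.Icc 1 B, (B.choose s : ℝ) * (v ^ (B - s) * (2 ^ (B - s) *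
      (1 + 4 * v ^ 2 * (s - 1) / ((B - s : ℕ) + 1)))) ≤
      (2 * v) ^ (B - s) * (B.choose s : ℝ) +
        2 * v * ((2 * v) ^ (B - (s - 1)) * (B.choose (s - 1) : ℝ)) := by
    intro s hs
    obtain ⟨h1, h2⟩ := Finset.mem_Icc.1 hs
    obtain ⟨t, rfl⟩ : ∃ t, s = t + 1 := ⟨s - 1, by omega⟩
    have := OneSumAux.term_le B t h2 v hv
    simpa using this
  refine (Finset.sum_le_sum hterm).trans ?_
  rw [Finset.sum_add_distrib, ← Finset.mul_sum]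
  have e1 : ∑ s ∈ Finset.Icc 1 B, (2 * v) ^ (B - s) * (B.choose s : ℝ) ≤ (1 + 2 * v) ^ B := by
    rw [hbin]
    refine Finset.sum_le_sum_of_subset_of_nonneg ?_ fun m _ _ => by positivity
    intro s hs
    have := Finset.mem_Icc.1 hs
    exact Finset.mem_range.2 (by omega)
  have e2 : ∑ s ∈ Finset.Icc 1 B, (2 * v) ^ (B - (s - 1)) * (B.choose (s - 1) : ℝ) ≤
      (1 + 2 * v) ^ B := by
    rw [hbin]
    have e3 : ∑ s ∈ Finset.Icc 1 B, (2 * v) ^ (B - (s - 1)) * (B.choose (s - 1) : ℝ) =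
        ∑ m ∈ (Finset.Icc 1 B).image (fun s => s - 1), (2 * v) ^ (B - m) * (B.choose m : ℝ) := by
      rw [Finset.sum_image]
      intro a ha b hb hab
      have h1 := Finset.mem_Icc.1 (Finset.mem_coe.1 ha)
      have h2 := Finset.mem_Icc.1 (Finset.mem_coe.1 hb)
      simp only at hab
      omega
    rw [e3]
    refine Finset.sum_le_sum_of_subset_of_nonneg ?_ fun m _ _ => by positivity
    intro m hm
    obtain ⟨s, hs, rfl⟩ := Finset.mem_image.1 hm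
    have := Finset.mem_Icc.1 hs
    exact Finset.mem_range.2 (by omega)
  have e4 := mul_le_mul_of_nonneg_left e2 (show 0 ≤ 2 * v by positivity)
  calc _ ≤ (1 + 2 * v) ^ B + 2 * v * (1 + 2 * v) ^ B := add_le_add e1 e4
    _ = (1 + 2 * v) ^ (B + 1) := by ring

end Pool.Agent.Lib.Pf91712x
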