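import Pool.Agent.Lib.Pf91712x.One1
import Pool.Agent.Lib.Pf91712x.OneSum

/-!
PROOF. By `one_a`, `one_b` the inner sum over `A`, `A'` is for
`nn D = s ≥ 1` at most `2 ^ s / (s 2 ^ B) * (s 4 ^ N + v² s (s - 1) 4 ^ (N + 1) / (N + 1)) = 2 ^ N (1 + 4 v² (s - 1) / (N + 1))`,
`N = B - s`, `v = 2 ^ m - 1`; for `s = 0` it is `0` (`wt B 0 = 0`). There are `C(B, s)` functions `D` with `nn D = s`, with
`∏ = v ^ (B - s)` (`D ↦` the set of the `x` with `D x`, `Finset.sum_powerset_apply_card` or `sum_fiberwise`). Then `one_sum`,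
`1 + 2 v = 2 ^ (m + 1) - 1`.
-/

set_option autoImplicit false

open Finset

namespace Pool.Agent.Lib.Pf91712x

namespace OneBlockAux

theorem nn_le {σ : Type} [Fintype σ] (D : σ → Bool) : nn D ≤ Fintype.card σ := by
  unfold nn
  exact Finset.card_le_univ _

/-- the product -/
theorem prod_eq {σ : Type} [Fintype σ] [DecidableEq σ] (v : ℝ) (D : σ → Bool) :
    (∏ x, if D x = true then (1 : ℝ) else v) = v ^ (Fintype.card σ - nn D) := by
  rw [Finset.prod_ite, Finset.prod_const_one, one_mul, Finset.prod_const]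
  congr 1
  unfold nn
  have h := Finset.card_filter_add_card_filter_not (s := (univ : Finset σ)) (fun x => D x = true)
  rw [Finset.card_univ] at h
  omega

/-- a sum over the functions `D` of a function of the number of the elements -/
theorem sum_nn {σ : Type} [Fintype σ] [DecidableEq σ] (G : ℕ → ℝ) :
    ∑ D : σ → Bool, G (nn D) =
      ∑ s ∈ Finset.range (Fintype.card σ + 1), ((Fintype.card σ).choose s : ℝ) * G s := by
  have h := Finset.sum_powerset_apply_card G (x := (univ : Finset σ))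
  rw [Finset.card_univ] at h
  simp only [nsmul_eq_mul] at h
  rw [← h]
  refine Finset.sum_nbij' (fun D => univ.filter fun x => D x = true) (fun S x => decide (x ∈ S))
    ?_ ?_ ?_ ?_ ?_
  · intro D _
    simp
  · intro S _
    simp
  · intro D _
    funext x
    simp
  · intro S _
    ext x
    simp
  · intro D _
    rfl

/-- the bound for `s` elements -/
noncomputable def F (B : ℕ) (v : ℝ) (s : ℕ) : ℝ :=
  if s = 0 then 0 else 2 ^ (B - s) * (1 + 4 * v ^ 2 * (s - 1) / ((B - s : ℕ) + 1))

/-- the arithmetic of one set -/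
theorem arith (B s : ℕ) (v : ℝ) (hs : s ≤ B) :
    wt B s * ((s : ℝ) * 4 ^ (B - s) +
      v ^ 2 * ((s : ℝ) * (s - 1) * 4 ^ (B - s + 1) / ((B - s : ℕ) + 1))) = F B v s := by
  unfold F wt
  by_cases h0 : s = 0
  · subst h0
    simp
  · rw [if_neg h0]
    obtain ⟨N, rfl⟩ := Nat.exists_eq_add_of_le hs
    have hN : s + N - s = N := by omega
    rw [hN]
    have hs0 : (s : ℝ) ≠ 0 := by exact_mod_cast h0
    have hN0 : ((N : ℝ) + 1) ≠ 0 := by positivity
    have h2 : (2 : ℝ) ^ s ≠ 0 := by positivity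
    have h2N : (2 : ℝ) ^ N ≠ 0 := by positivity
    have h4 : (4 : ℝ) ^ N = 2 ^ N * 2 ^ N := by
      rw [← mul_pow]; norm_num
    rw [pow_succ (4 : ℝ) N, pow_add, h4]
    field_simp

theorem wt_nonneg (B s : ℕ) : 0 ≤ wt B s := by
  unfold wt
  positivity

/-- the inner sum -/
theorem inner {σ : Type} [Fintype σ] [DecidableEq σ] (v : ℝ) (D : σ → Bool) :
    ∑ A : σ → Bool, ∑ A' : σ → Bool, wt (Fintype.card σ) (nn D) *
        ((if nn (fun x => D x && (A x && A' x)) = 1 ∧ nn (fun x => D x && xor (A x) (A' x)) = 0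
            then 1 else 0) +
          (if nn (fun x => D x && (A x && A' x)) = 0 ∧ nn (fun x => D x && (A x && !(A' x))) = 1 ∧
              nn (fun x => D x && (!(A x) && A' x)) = 1 then 1 else 0) *
            (v / √(nn (fun x => A x && !(A' x)) : ℝ) *
              (v / √(nn (fun x => !(A x) && A' x) : ℝ)))) ≤
      F (Fintype.card σ) v (nn D) := by
  have ha := one_a D
  have hb := one_b D
  rw [← arith (Fintype.card σ) (nn D) v (nn_le D)]
  have e : ∑ A : σ → Bool, ∑ A' : σ → Bool, wt (Fintype.card σ) (nn D) *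
        ((if nn (fun x => D x && (A x && A' x)) = 1 ∧ nn (fun x => D x && xor (A x) (A' x)) = 0
            then (1 : ℝ) else 0) +
          (if nn (fun x => D x && (A x && A' x)) = 0 ∧ nn (fun x => D x && (A x && !(A' x))) = 1 ∧
              nn (fun x => D x && (!(A x) && A' x)) = 1 then 1 else 0) *
            (v / √(nn (fun x => A x && !(A' x)) : ℝ) *
              (v / √(nn (fun x => !(A x) && A' x) : ℝ)))) =
      wt (Fintype.card σ) (nn D) *
        ((∑ A : σ → Bool, ∑ A' : σ → Bool,
          (if nn (fun x => D x && (A x && A' x)) = 1 ∧ nn (fun x => D x && xor (A x) (A' x)) = 0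
            then (1 : ℝ) else 0)) +
        v ^ 2 * ∑ A : σ → Bool, ∑ A' : σ → Bool,
          (if nn (fun x => D x && (A x && A' x)) = 0 ∧ nn (fun x => D x && (A x && !(A' x))) = 1 ∧
            nn (fun x => D x && (!(A x) && A' x)) = 1 then (1 : ℝ) else 0) *
          (1 / √(nn (fun x => A x && !(A' x)) : ℝ) *
            (1 / √(nn (fun x => !(A x) && A' x) : ℝ)))) := by
    rw [Finset.mul_sum, ← Finset.sum_add_distrib, Finset.mul_sum]
    refine Finset.sum_congr rfl fun A _ => ?_
    rw [Finset.mul_sum, ← Finset.sum_add_distrib, Finset.mul_sum]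
    refine Finset.sum_congr rfl fun A' _ => ?_
    ring
  rw [e, ha]
  refine mul_le_mul_of_nonneg_left ?_ (wt_nonneg _ _)
  have hv : 0 ≤ v ^ 2 := sq_nonneg v
  have := mul_le_mul_of_nonneg_left hb hv
  linarith

end OneBlockAux

open OneBlockAux in
theorem one_block (σ : Type) [Fintype σ] [DecidableEq σ] (m : ℕ) :
    ∑ D : σ → Bool, (∏ x, if D x = true then (1 : ℝ) else 2 ^ m - 1) *
      ∑ A : σ → Bool, ∑ A' : σ → Bool, wt (Fintype.card σ) (nn D) *
        ((if nn (fun x => D x && (A x && A' x)) = 1 ∧ nn (fun x => D x && xor (A x) (A' x)) = 0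
            then 1 else 0) +
          (if nn (fun x => D x && (A x && A' x)) = 0 ∧ nn (fun x => D x && (A x && !(A' x))) = 1 ∧
              nn (fun x => D x && (!(A x) && A' x)) = 1 then 1 else 0) *
            ((2 ^ m - 1) / √(nn (fun x => A x && !(A' x)) : ℝ) *
              ((2 ^ m - 1) / √(nn (fun x => !(A x) && A' x) : ℝ)))) ≤
      (2 ^ (m + 1) - 1) ^ (Fintype.card σ + 1) := by
  have hv : (0 : ℝ) ≤ 2 ^ m - 1 := by
    have := one_le_pow₀ (M₀ := ℝ) (a := 2) (n := m) (by norm_num)
    linarith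
  have e1 : (2 : ℝ) ^ (m + 1) - 1 = 1 + 2 * (2 ^ m - 1) := by ring
  generalize (2 : ℝ) ^ m - 1 = v at hv e1 ⊢
  rw [e1]
  refine le_trans ?_ (one_sum (Fintype.card σ) v hv)
  have h1 : ∀ D : σ → Bool, (∏ x, if D x = true then (1 : ℝ) else v) *
      (∑ A : σ → Bool, ∑ A' : σ → Bool, wt (Fintype.card σ) (nn D) *
        ((if nn (fun x => D x && (A x && A' x)) = 1 ∧ nn (fun x => D x && xor (A x) (A' x)) = 0
            then 1 else 0) +
          (if nn (fun x => D x && (A x && A' x)) = 0 ∧ nn (fun x => D x && (A x && !(A' x))) = 1 ∧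
              nn (fun x => D x && (!(A x) && A' x)) = 1 then 1 else 0) *
            (v / √(nn (fun x => A x && !(A' x)) : ℝ) *
              (v / √(nn (fun x => !(A x) && A' x) : ℝ))))) ≤
      (fun s => v ^ (Fintype.card σ - s) * F (Fintype.card σ) v s) (nn D) := by
    intro D
    rw [prod_eq]
    exact mul_le_mul_of_nonneg_left (inner v D) (pow_nonneg hv _)
  refine (Finset.sum_le_sum fun D _ => h1 D).trans ?_
  rw [sum_nn (fun s => v ^ (Fintype.card σ - s) * F (Fintype.card σ) v s), Finset.range_eq_Ico, Finset.sum_eq_sum_Ico_succ_bot (Nat.succ_pos _)]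
  have hF0 : F (Fintype.card σ) v 0 = 0 := by simp [F]
  simp only [hF0, mul_zero, zero_add]
  apply le_of_eq
  refine Finset.sum_congr ?_ ?_
  · ext s
    simp only [Finset.mem_Ico, Finset.mem_Icc]
    omega
  · intro s hs
    have hs1 : s ≠ 0 := by
      have := (Finset.mem_Icc.mp hs).1
      omega
    simp only [F, if_neg hs1]

end Pool.Agent.Lib.Pf91712x
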